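import Pool.Agent.Helper26.SK.G.Defs

/-! This file is the work of helper81. -/

/-!
# MP_05e0c2_gt, block GC: cables do not see scalars of suitable order at the poles, general `d`
(helper81, after helper44's proof for `d = 3`)
-/

namespace Pool.Agent.Helper26.SK.G

open Str Piece

variable {d : ℕ} {a : ℂ}

namespace GC

/-- Coloured strands which agree up to a scalar of order dividing `N` at the poles. -/
def Rl (N : ℕ) : CS d → CS d → Prop
  | .pole x _, .pole y _ => ∃ e : ℂ, e ^ N = 1 ∧ ∀ i, x i = e * y i
  | .web u S, .web u' S' => u = u' ∧ S = S'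
  | _, _ => False

theorem Rl.ty_eq {N : ℕ} {x y : CS d} (h : Rl N x y) : ty x = ty y := by
  cases x <;> cases y
  · rfl
  · exact absurd h (by simp [Rl])
  · exact absurd h (by simp [Rl])
  · obtain ⟨rfl, rfl⟩ := h; rfl

theorem rl_web {N : ℕ} (u : Bool) (S : Finset (Fin d)) : Rl N (CS.web u S) (CS.web u S) :=
  ⟨rfl, rfl⟩

theorem map_ty_eq {N : ℕ} {X Y : List (CS d)} (h : List.Forall₂ (Rl N) X Y) :
    X.map ty = Y.map ty := by
  induction h with
  | nil => rfl
  | cons h _ ih => rw [List.map_cons, List.map_cons, h.ty_eq, ih]

/-- The strands of the cable replacing one strand. -/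
def cab (w : List ℕ) : Str → List Str
  | pole => [pole]
  | web u _ => (if u then w else w.reverse).map (web u)

/-- The strands of the cable. -/
def cabs (w : List ℕ) (s : List Str) : List Str := s.flatMap (cab w)

theorem length_cab (w : List ℕ) (x : Str) : (cab w x).length = width w.length x := by
  cases x with
  | pole => rfl
  | web u k => cases u <;> simp [cab, width]

theorem length_cabs (w : List ℕ) (s : List Str) :
    (cabs w s).length = (s.map (width w.length)).sum := by
  induction s with
  | nil => rfl
  | cons x s ih =>
    simp only [cabs, List.flatMap_cons, List.length_append, List.map_cons, List.sum_cons] at ih ⊢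
    rw [ih, length_cab]

theorem cabs_append (w : List ℕ) (s t : List Str) : cabs w (s ++ t) = cabs w s ++ cabs w t := by
  simp [cabs]

theorem cabs_cons (w : List ℕ) (x : Str) (t : List Str) : cabs w (x :: t) = cab w x ++ cabs w t := by
  simp [cabs]

/-- The product of the coefficients of the crossings of two bundles. -/
noncomputable def cprod (a : ℂ) (o : Bool) (X Y : List (CS d)) : ℂ :=
  (X.map fun x => (Y.map fun y => cf a o x y).prod).prod

theorem act_cr {i : ℕ} (o : Bool) (A : List (CS d)) (hA : A.length = i) (x y : CS d)
    (B : List (CS d)) (K : Cont d) : act a (cr i o) (A ++ x :: y :: B) K =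
      cf a o x y * K (A ++ y :: x :: B) := by
  have := act_shift_of_length (a := a) (cr 0 o) A (x :: y :: B) hA K
  simp only [Piece.shift, Nat.zero_add] at this
  rw [this, act_cr0]

theorem actW_row (o : Bool) (x : CS d) (Y A B : List (CS d)) {i : ℕ}
    (hA : A.length = i) (K : Cont d) :
    actW a ((List.range Y.length).map fun y => cr (i + y) o) (A ++ x :: (Y ++ B)) K =
      (Y.map fun y => cf a o x y).prod * K (A ++ (Y ++ x :: B)) := by
  induction Y generalizing A i with
  | nil => simp [actW]
  | cons y Y ih =>
    rw [List.length_cons, List.range_succ_eq_map, List.map_cons, List.map_map, actW, Nat.add_zero,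
      List.cons_append, act_cr o A hA]
    have := ih (A ++ [y]) (i := i + 1) (by simp [hA])
    simp only [List.append_assoc, List.cons_append, List.nil_append] at this
    rw [List.map_congr_left (g := fun y => cr (i + 1 + y) o), this]
    · rw [List.map_cons, List.prod_cons, List.cons_append, mul_assoc]
    · intro j _
      simp only [Function.comp_apply, Piece.cr.injEq, and_true]
      omega

theorem actW_grid (o : Bool) (X Y A B : List (CS d)) {i : ℕ}
    (hA : A.length = i) (K : Cont d) :
    actW a (grid i X.length Y.length o) (A ++ (X ++ (Y ++ B))) K =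
      cprod a o X Y * K (A ++ (Y ++ (X ++ B))) := by
  induction X using List.reverseRecOn generalizing B K with
  | nil => simp [grid, actW, cprod]
  | append_singleton X x ih =>
    have h1 : grid i (X ++ [x]).length Y.length o =
        ((List.range Y.length).map fun y => cr (i + X.length + y) o) ++
          grid i X.length Y.length o := by
      simp [grid, List.range_succ]
    rw [h1, actW_append]
    have h2 := actW_row (a := a) o x Y (A ++ X) B (i := i + X.length) (by simp [hA])
      (fun t => actW a (grid i X.length Y.length o) t K)
    simp only [List.append_assoc, List.cons_append, List.nil_append] at h2 ⊢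
    rw [h2, ih (x :: B) K, ← mul_assoc]
    congr 1
    simp only [cprod, List.map_append, List.map_cons, List.map_nil, List.prod_append,
      List.prod_cons, List.prod_nil, mul_one]
    ring

/-- Local minima and maxima. -/
def isCC : Piece → Bool
  | cup _ _ _ => true
  | cap _ => true
  | _ => false

/-- Pieces of links. -/
def isLk : Piece → Bool
  | cup _ _ k => decide (k = 1)
  | cap _ => true
  | cr _ _ => true
  | _ => false

theorem split_forall₂ {N : ℕ} {A B C : List (CS d)} (h : List.Forall₂ (Rl N) (A ++ B) C) :
    ∃ A' B', C = A' ++ B' ∧ List.Forall₂ (Rl N) A A' ∧ List.Forall₂ (Rl N) B B' := by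
  induction A generalizing C with
  | nil => exact ⟨[], C, rfl, .nil, h⟩
  | cons x A ih =>
    rw [List.cons_append] at h
    cases h with
    | cons h1 h2 =>
      obtain ⟨A', B', rfl, hA, hB⟩ := ih h2
      exact ⟨_ :: A', B', rfl, .cons h1 hA, hB⟩

theorem step_sim {N : ℕ} {p : Piece} {s t : List Str} (h : Step d p s t)
    (hp : isCC p = true) {cs cs' : List (CS d)} (hcc : List.Forall₂ (Rl N) cs cs')
    (hcs : cs.map ty = s) {K K' : Cont d}
    (hK : ∀ x x' : List (CS d), List.Forall₂ (Rl N) x x' → x.map ty = t → K x = K' x') :
    act a p cs K = act a p cs' K' := by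
  cases h with
  | cup A B u k h =>
    obtain ⟨A₁, B₁, rfl, hA, hB⟩ := List.map_eq_append_iff.1 hcs
    obtain ⟨A₂, B₂, rfl, hA', hB'⟩ := split_forall₂ hcc
    have hl : A₁.length = A.length := by rw [← hA, List.length_map]
    have hl' : A₂.length = A.length := by rw [← hA'.length_eq, hl]
    have e1 := act_shift_of_length (a := a) (cup 0 u k) A₁ B₁ hl K
    have e2 := act_shift_of_length (a := a) (cup 0 u k) A₂ B₂ hl' K'
    simp only [Piece.shift, Nat.zero_add] at e1 e2
    rw [e1, e2, act_cup0, act_cup0]
    apply Finset.sum_congr rfl
    intro S hS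
    rw [Finset.mem_powersetCard] at hS
    rw [hK _ (A₂ ++ (CS.web u S :: CS.web (!u) S :: B₂))
      (List.rel_append hA' (.cons (rl_web _ _) (.cons (rl_web _ _) hB')))]
    simp [ty, hA, hB, hS.2]
  | cap A B u k =>
    rw [List.append_assoc] at hcs
    obtain ⟨A₁, C₁, rfl, hA, hC⟩ := List.map_eq_append_iff.1 hcs
    obtain ⟨X₁, B₁, rfl, hX, hB⟩ := List.map_eq_append_iff.1 hC
    obtain ⟨S, T, rfl, hS, hT⟩ : ∃ S T, X₁ = [CS.web u S, CS.web (!u) T] ∧ S.card = k ∧
        T.card = k := by
      obtain ⟨a, b, rfl⟩ : ∃ a b, X₁ = [a, b] := by
        apply List.length_eq_two.1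
        simpa using congrArg List.length hX
      cases a with
      | pole c e => simp [ty] at hX
      | web v S =>
        cases b with
        | pole c e => simp [ty] at hX
        | web v' T =>
          simp only [List.map_cons, ty, List.map_nil, List.cons.injEq, Str.web.injEq,
            and_true] at hX
          obtain ⟨⟨rfl, h1⟩, rfl, h2⟩ := hX
          exact ⟨S, T, rfl, h1, h2⟩
    obtain ⟨A₂, C₂, rfl, hA', hC'⟩ := split_forall₂ hcc
    obtain ⟨B₂, rfl, hB'⟩ : ∃ B₂, C₂ = [CS.web u S, CS.web (!u) T] ++ B₂ ∧
        List.Forall₂ (Rl N) B₁ B₂ := by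
      cases hC' with
      | cons h1 h2 =>
        cases h2 with
        | cons h2 h3 =>
          rename_i x1 x2 l2
          refine ⟨l2, ?_, h3⟩
          cases x1 with
          | pole _ _ => exact absurd h1 (by simp [Rl])
          | web _ _ =>
            cases x2 with
            | pole _ _ => exact absurd h2 (by simp [Rl])
            | web _ _ =>
              obtain ⟨rfl, rfl⟩ := h1
              obtain ⟨rfl, rfl⟩ := h2
              rfl
    have hl : A₁.length = A.length := by rw [← hA, List.length_map]
    have hl' : A₂.length = A.length := by rw [← hA'.length_eq, hl]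
    have e1 := act_shift_of_length (a := a) (cap 0) A₁ ([CS.web u S, CS.web (!u) T] ++ B₁) hl K
    have e2 := act_shift_of_length (a := a) (cap 0) A₂ ([CS.web u S, CS.web (!u) T] ++ B₂) hl' K'
    simp only [Piece.shift, Nat.zero_add] at e1 e2
    rw [e1, e2, List.cons_append, List.cons_append, List.nil_append, List.cons_append,
      List.cons_append, List.nil_append, act_cap0, act_cap0]
    rw [hK (A₁ ++ B₁) (A₂ ++ B₂) (List.rel_append hA' hB') (by simp [hA, hB])]
  | cr A B x y o h => simp [isCC] at hp
  | merge A B k l h => simp [isCC] at hp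
  | split A B k l h => simp [isCC] at hp

theorem run_sim {N : ℕ} {D : List Piece} {s t : List Str} (h : Run d D s t)
    (hD : ∀ p ∈ D, isCC p = true) {cs cs' : List (CS d)} (hcc : List.Forall₂ (Rl N) cs cs')
    (hcs : cs.map ty = s) {K K' : Cont d}
    (hK : ∀ x x' : List (CS d), List.Forall₂ (Rl N) x x' → x.map ty = t → K x = K' x') :
    actW a D cs K = actW a D cs' K' := by
  induction D generalizing s cs cs' with
  | nil =>
    cases h
    exact hK cs cs' hcc hcs
  | cons p D ih =>
    obtain ⟨r, hr, h⟩ := h
    rw [actW, actW]
    exact step_sim hr (hD p (by simp)) hcc hcs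
      (fun x x' hx hx' => ih h (fun q hq => hD q (by simp [hq])) hx hx')

theorem run_cups (u : Bool) (W : List ℕ) (hW : ∀ k ∈ W, 0 < k ∧ k < d) (A B : List Str) {i : ℕ}
    (hA : A.length = i) :
    Run d (W.mapIdx fun j k => cup (i + j) u k) (A ++ B)
      (A ++ (W.map (web u) ++ (W.reverse.map (web !u) ++ B))) := by
  induction W generalizing A B i with
  | nil => simp [Run]
  | cons k W ih =>
    rw [List.mapIdx_cons]
    refine ⟨A ++ [web u k, web (!u) k] ++ B, ?_, ?_⟩
    · have := Step.cup (d := d) A B u k (hW k (by simp))
      rwa [hA] at this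
    · have := ih (fun k hk => hW k (by simp [hk])) (A ++ [web u k]) (web (!u) k :: B) (i := i + 1)
        (by simp [hA])
      simp only [List.append_assoc, List.cons_append, List.nil_append, List.map_cons,
        List.reverse_cons, List.map_append, List.map_nil] at this ⊢
      have e : (fun j k => cup (i + (j + 1)) u k) = fun j k => cup (i + 1 + j) u k := by
        funext j k
        rw [Nat.add_assoc, Nat.add_comm 1 j]
      rw [e]
      exact this

theorem run_caps (u : Bool) (W : List ℕ) (A B : List Str) {i : ℕ} (hA : A.length = i) :
    Run d ((List.range W.length).reverse.map fun j => cap (i + j))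
      (A ++ (W.map (web u) ++ (W.reverse.map (web !u) ++ B))) (A ++ B) := by
  induction W using List.reverseRecOn generalizing B with
  | nil => simp [Run]
  | append_singleton W k ih =>
    have h1 : ((List.range (W ++ [k]).length).reverse.map fun j => cap (i + j)) =
        cap (i + W.length) :: (List.range W.length).reverse.map fun j => cap (i + j) := by
      simp [List.range_succ]
    rw [h1]
    refine ⟨_, ?_, ih B⟩
    have := Step.cap (d := d) (A ++ W.map (web u)) (W.reverse.map (web !u) ++ B) u k
    simpa [hA] using this

theorem rl_eq {N : ℕ} {u : Bool} {W : List ℕ} {X X' : List (CS d)} (h : X.map ty = W.map (web u))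
    (hX : List.Forall₂ (Rl N) X X') : X' = X := by
  induction hX generalizing W with
  | nil => rfl
  | cons h1 h2 ih =>
    rename_i x x' X X'
    cases W with
    | nil => simp at h
    | cons k W =>
      simp only [List.map_cons, List.cons.injEq] at h
      rw [ih h.2]
      cases x with
      | pole c e => simp [ty] at h
      | web v S =>
        cases x' with
        | pole _ _ => exact absurd h1 (by simp [Rl])
        | web _ _ =>
          obtain ⟨rfl, rfl⟩ := h1
          rfl

theorem prod_smul (S : Finset (Fin d)) (e : ℂ) (x y : Fin d → ℂ) (h : ∀ i, x i = e * y i) :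
    ∏ i ∈ S, x i = e ^ S.card * ∏ i ∈ S, y i := by
  simp_rw [h]
  rw [Finset.prod_mul_distrib, Finset.prod_const]

theorem prod_pole_web (o u : Bool) {x y : Fin d → ℂ} (hx : ∏ i, x i = 1) (hy : ∏ i, y i = 1)
    (e : ℂ) (h : ∀ i, x i = e * y i) (W : List ℕ) (Y : List (CS d))
    (hY : Y.map ty = W.map (web u)) :
    (Y.map fun b => cf a o (CS.pole x hx) b).prod = (Y.map fun b => cf a o (CS.pole y hy) b).prod *
      (if o then (if u then e⁻¹ else e) else 1) ^ W.sum := by
  induction Y generalizing W with
  | nil =>
    cases W with
    | nil => simp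
    | cons k W => simp at hY
  | cons z Y ih =>
    cases W with
    | nil => simp at hY
    | cons k W =>
      simp only [List.map_cons, List.cons.injEq] at hY
      rw [List.map_cons, List.map_cons, List.prod_cons, List.prod_cons, List.sum_cons, ih W hY.2,
        pow_add]
      cases z with
      | pole c e => simp [ty] at hY
      | web v S =>
        simp only [ty, Str.web.injEq] at hY
        obtain ⟨⟨rfl, rfl⟩, -⟩ := hY
        cases o <;> cases v <;> simp [cf, prod_smul S e x y h] <;> ring

theorem prod_web_pole (o u : Bool) {x y : Fin d → ℂ} (hx : ∏ i, x i = 1) (hy : ∏ i, y i = 1)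
    (e : ℂ) (h : ∀ i, x i = e * y i) (W : List ℕ) (X : List (CS d))
    (hX : X.map ty = W.map (web u)) :
    (X.map fun b => cf a o b (CS.pole x hx)).prod = (X.map fun b => cf a o b (CS.pole y hy)).prod *
      (if o then 1 else (if u then e else e⁻¹)) ^ W.sum := by
  induction X generalizing W with
  | nil =>
    cases W with
    | nil => simp
    | cons k W => simp at hX
  | cons z X ih =>
    cases W with
    | nil => simp at hX
    | cons k W =>
      simp only [List.map_cons, List.cons.injEq] at hX
      rw [List.map_cons, List.map_cons, List.prod_cons, List.prod_cons, List.sum_cons, ih W hX.2,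
        pow_add]
      cases z with
      | pole c e => simp [ty] at hX
      | web v S =>
        simp only [ty, Str.web.injEq] at hX
        obtain ⟨⟨rfl, rfl⟩, -⟩ := hX
        cases o <;> cases v <;> simp [cf, prod_smul S e x y h] <;> ring

theorem sum_ite (w : List ℕ) (u : Bool) : (if u then w else w.reverse).sum = w.sum := by
  cases u <;> simp

theorem cprod_rel {w : List ℕ} (o : Bool) (x y : Str)
    (hxy : ¬ (x = pole ∧ y = pole)) {X Y X' Y' : List (CS d)} (hX : X.map ty = cab w x)
    (hY : Y.map ty = cab w y) (hXX : List.Forall₂ (Rl w.sum) X X')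
    (hYY : List.Forall₂ (Rl w.sum) Y Y') :
    cprod a o X Y = cprod a o X' Y' := by
  cases x with
  | pole =>
    cases y with
    | pole => simp at hxy
    | web u k =>
      obtain ⟨b, rfl⟩ : ∃ b, X = [b] := by
        apply List.length_eq_one_iff.1
        simpa [cab] using congrArg List.length hX
      cases b with
      | web v S => simp [ty, cab] at hX
      | pole p hp =>
        rw [cab] at hY
        rw [rl_eq hY hYY]
        cases hXX with
        | cons h1 h2 =>
          cases h2
          rename_i b'
          cases b' with
          | web _ _ => exact absurd h1 (by simp [Rl])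
          | pole p' hp' =>
            obtain ⟨e, he, h⟩ := h1
            simp only [cprod, List.map_cons, List.map_nil, List.prod_cons, List.prod_nil, mul_one]
            rw [prod_pole_web o u hp hp' e h _ Y hY, sum_ite w u]
            have : ((if o then (if u then e⁻¹ else e) else 1) : ℂ) ^ w.sum = 1 := by
              cases o <;> cases u <;> simp [he]
            rw [this, mul_one]
  | web u k =>
    cases y with
    | web u' k' => rw [rl_eq hX hXX, rl_eq hY hYY]
    | pole =>
      obtain ⟨b, rfl⟩ : ∃ b, Y = [b] := by
        apply List.length_eq_one_iff.1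
        simpa [cab] using congrArg List.length hY
      cases b with
      | web v S => simp [ty, cab] at hY
      | pole p hp =>
        rw [cab] at hX
        rw [rl_eq hX hXX]
        cases hYY with
        | cons h1 h2 =>
          cases h2
          rename_i b'
          cases b' with
          | web _ _ => exact absurd h1 (by simp [Rl])
          | pole p' hp' =>
            obtain ⟨e, he, h⟩ := h1
            simp only [cprod, List.map_cons, List.map_nil, List.prod_cons, List.prod_nil, mul_one]
            rw [prod_web_pole o u hp hp' e h _ X hX, sum_ite w u]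
            have : ((if o then 1 else (if u then e else e⁻¹)) : ℂ) ^ w.sum = 1 := by
              cases o <;> cases u <;> simp [he]
            rw [this, mul_one]

theorem off_append (w : List ℕ) (A B : List Str) :
    off w.length (A ++ B) A.length = (cabs w A).length := by
  rw [off, List.take_left, length_cabs]

theorem isCC_cups (u : Bool) (W : List ℕ) (i : ℕ) :
    ∀ p ∈ W.mapIdx (fun j k => cup (i + j) u k), isCC p = true := by
  intro p hp
  rw [List.mem_mapIdx] at hp
  obtain ⟨j, hj, rfl⟩ := hp
  rfl

theorem isCC_caps (n i : ℕ) :
    ∀ p ∈ (List.range n).reverse.map (fun j => cap (i + j)), isCC p = true := by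
  intro p hp
  rw [List.mem_map] at hp
  obtain ⟨j, -, rfl⟩ := hp
  rfl

theorem cable_sim {w : List ℕ} (hw : ∀ k ∈ w, 0 < k ∧ k < d)
    {L : List Piece} {s t : List Str} (h : Run d L s t)
    (hL : ∀ p ∈ L, isLk p = true) {cs cs' : List (CS d)}
    (hcc : List.Forall₂ (Rl w.sum) cs cs') (hcs : cs.map ty = cabs w s) (K K' : Cont d)
    (hK : ∀ x x' : List (CS d), List.Forall₂ (Rl w.sum) x x' → x.map ty = cabs w t →
      K x = K' x') :
    actW a (cable w L s) cs K = actW a (cable w L s) cs' K' := by
  induction L generalizing s cs cs' with
  | nil =>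
    cases h
    exact hK cs cs' hcc hcs
  | cons p L ih =>
    obtain ⟨r, hr, h⟩ := h
    have hL' := fun q hq => hL q (List.mem_cons_of_mem p hq)
    have ih' := fun (cs cs' : List (CS d)) hcc hcs => ih (cs := cs) (cs' := cs') h hL' hcc hcs
    cases hr with
    | cup A B u k hk =>
      have hk1 : k = 1 := by simpa [isLk] using hL (cup A.length u k) (by simp)
      subst hk1
      have hc : cable w (cup A.length u 1 :: L) (A ++ B) =
          ((if u then w else w.reverse).mapIdx fun j k => cup ((cabs w A).length + j) u k) ++
            cable w L (A ++ [web u 1, web (!u) 1] ++ B) := by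
        rw [cable, off_append]
        simp
      rw [hc, actW_append, actW_append]
      have hW : ∀ k ∈ (if u then w else w.reverse), 0 < k ∧ k < d := by
        intro k hk
        apply hw
        cases u <;> simpa using hk
      refine run_sim (run_cups u _ hW (cabs w A) (cabs w B) rfl) (isCC_cups _ _ _) hcc
        (by rw [hcs, cabs_append]) (fun x x' hxx hx => ih' x x' hxx ?_)
      rw [hx, cabs_append, cabs_append, cabs_cons, cabs_cons]
      cases u <;> simp [cab, cabs]
    | cap A B u k =>
      have hc : cable w (cap A.length :: L) (A ++ [web u k, web (!u) k] ++ B) =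
          ((List.range w.length).reverse.map fun j => cap ((cabs w A).length + j)) ++
            cable w L (A ++ B) := by
        rw [cable, List.append_assoc, off_append]
        simp
      rw [hc, actW_append, actW_append]
      have hl : w.length = (if u then w else w.reverse).length := by cases u <;> simp
      rw [hl]
      refine run_sim (run_caps u _ (cabs w A) (cabs w B) rfl) (isCC_caps _ _) hcc
        (by
          rw [hcs, cabs_append, cabs_append, cabs_cons, cabs_cons]
          cases u <;> simp [cab, cabs]) (fun x x' hxx hx => ih' x x' hxx ?_)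
      rw [hx, cabs_append]
    | cr A B x y o hxy =>
      have hc : cable w (cr A.length o :: L) (A ++ [x, y] ++ B) =
          grid (cabs w A).length (cab w x).length (cab w y).length o ++
            cable w L (A ++ [y, x] ++ B) := by
        rw [cable, List.append_assoc, off_append]
        simp [length_cab]
      rw [hc, actW_append, actW_append]
      have hn : cabs w [] = [] := rfl
      rw [List.append_assoc, cabs_append, cabs_append, cabs_cons, cabs_cons, hn, List.append_nil,
        List.append_assoc] at hcs
      obtain ⟨A₁, C₁, rfl, hA, hC⟩ := List.map_eq_append_iff.1 hcs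
      obtain ⟨X, C₁, rfl, hX, hC⟩ := List.map_eq_append_iff.1 hC
      obtain ⟨Y, B₁, rfl, hY, hB⟩ := List.map_eq_append_iff.1 hC
      obtain ⟨A₂, C₂, rfl, hAA, hCC⟩ := split_forall₂ hcc
      obtain ⟨X', C₂, rfl, hXX, hCC⟩ := split_forall₂ hCC
      obtain ⟨Y', B₂, rfl, hYY, hBB⟩ := split_forall₂ hCC
      rw [← hX, ← hY, List.length_map, List.length_map,
        actW_grid o X Y A₁ B₁ (by rw [← hA, List.length_map])]
      have e1 := actW_grid (a := a) o X' Y' A₂ B₂
        (i := (cabs w A).length) (by rw [← hA, List.length_map, hAA.length_eq])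
        (fun t => actW a (cable w L (A ++ [y, x] ++ B)) t K')
      rw [← hXX.length_eq, ← hYY.length_eq] at e1
      rw [e1, cprod_rel o x y hxy hX hY hXX hYY]
      congr 1
      refine ih' _ _ (List.rel_append hAA (List.rel_append hYY (List.rel_append hXX hBB))) ?_
      simp only [List.map_append, hA, hX, hY, hB, cabs_append, cabs_cons, hn, List.append_nil,
        List.append_assoc]
    | merge A B k l hk => simpa [isLk] using hL (merge A.length k l) (by simp)
    | split A B k l hk => simpa [isLk] using hL (split A.length k l) (by simp)

end GC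

set_option linter.unusedVariables false in
theorem ev_cable (ha : a ≠ 0) (hd : (a ^ d) ^ 2 = 1) {L : List Piece} (hL : IsLink d 3 L)
    {w : List ℕ} (hw : ∀ k ∈ w, 0 < k ∧ k < d) {c : ℂ} (hc : c ^ w.sum = 1)
    {x x' y z : Fin d → ℂ} (hx : ∏ i, x i = 1) (hx' : ∏ i, x' i = 1) (hxx : ∀ i, x' i = c * x i)
    (hy : ∏ i, y i = 1) (hz : ∏ i, z i = 1) :
    ev a [CS.pole x' hx', CS.pole y hy, CS.pole z hz] (cable w L (poles 3)) =
      ev a [CS.pole x hx, CS.pole y hy, CS.pole z hz] (cable w L (poles 3)) := by
  refine GC.cable_sim hw hL.1 (fun p hp => by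
    have := hL.2 p hp
    cases p <;> simp_all [GC.isLk]) ?_ (by rfl) (fun _ => 1)
      (fun _ => 1) (fun _ _ _ _ => rfl)
  exact .cons ⟨c, hc, hxx⟩ (.cons ⟨1, one_pow _, fun i => (one_mul _).symm⟩
    (.cons ⟨1, one_pow _, fun i => (one_mul _).symm⟩ .nil))

end Pool.Agent.Helper26.SK.G
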