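import Pool.Agent.Helper26.SK.G.Lad

/-! This file is the work of helper20. -/

/-!
# The crossing relations for general `d` at `q = ± 1`
-/

namespace Pool.Agent.Helper26.SK.G

open Str Piece

variable {d : ℕ} {a : ℂ}

/-- The alternating sum over an interval of subsets. -/
theorem gs3_alt_sum {A B : Finset (Fin d)} (h : A ⊆ B) :
    ∑ X ∈ B.powerset.filter (fun X => A ⊆ X), (-1 : ℂ) ^ X.card =
      if A = B then (-1) ^ B.card else 0 := by
  have e1 : ∑ X ∈ B.powerset.filter (fun X => A ⊆ X), (-1 : ℂ) ^ X.card =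
      ∑ X ∈ (B \ A).powerset, (-1 : ℂ) ^ A.card * (-1) ^ X.card := by
    refine Finset.sum_nbij' (fun X => X \ A) (fun X => A ∪ X) ?_ ?_ ?_ ?_ ?_
    · intro X hX
      rw [Finset.mem_filter, Finset.mem_powerset] at hX
      rw [Finset.mem_powerset]
      exact Finset.sdiff_subset_sdiff hX.1 (Finset.Subset.refl _)
    · intro X hX
      rw [Finset.mem_powerset] at hX
      rw [Finset.mem_filter, Finset.mem_powerset]
      exact ⟨Finset.union_subset h (hX.trans Finset.sdiff_subset), Finset.subset_union_left⟩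
    · intro X hX
      rw [Finset.mem_filter, Finset.mem_powerset] at hX
      exact Finset.union_sdiff_of_subset hX.2
    · intro X hX
      rw [Finset.mem_powerset] at hX
      have : Disjoint X A := Finset.disjoint_of_subset_left hX Finset.sdiff_disjoint
      rw [Finset.union_sdiff_left, Finset.sdiff_eq_self_of_disjoint this]
    · intro X hX
      rw [Finset.mem_filter, Finset.mem_powerset] at hX
      rw [← pow_add, Finset.card_sdiff_of_subset hX.2]
      congr 1
      have := Finset.card_le_card hX.2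
      omega
  rw [e1, ← Finset.mul_sum]
  have e2 : ∑ X ∈ (B \ A).powerset, (-1 : ℂ) ^ X.card = if B \ A = ∅ then 1 else 0 := by
    have := Finset.sum_powerset_neg_one_pow_card (x := B \ A)
    have h2 := congrArg (fun z : ℤ => (z : ℂ)) this
    push_cast at h2
    exact h2
  rw [e2]
  by_cases hAB : A = B
  · subst hAB
    simp
  · have : ¬ (B \ A = ∅) := by
      rw [Finset.sdiff_eq_empty_iff_subset]
      intro h'
      exact hAB (Finset.Subset.antisymm h h')
    rw [if_neg this, if_neg hAB, mul_zero]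

/-- The set obtained from `S ∪ T`, `S ∩ T` and one half. -/
def gs3_co (S T Z : Finset (Fin d)) : Finset (Fin d) := (S ∩ T) ∪ ((S ∪ T) \ Z)

/-- The alternating sum of ladders only keeps the flip. -/
theorem gs3_flip {S T : Finset (Fin d)} (hle : T.card ≤ S.card) {N : ℕ}
    (hN : (T \ S).card ≤ N) (G : Finset (Fin d) → Finset (Fin d) → ℂ) :
    ∑ t ∈ Finset.range (N + 1), (-1 : ℂ) ^ t * ∑ X ∈ Finset.powersetCard t (T \ S),
      ∑ Y ∈ Finset.powersetCard (S.card - T.card + t) ((S ∪ X) \ (T \ X)),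
        G ((S ∪ X) \ Y) ((T \ X) ∪ Y) = (-1) ^ (T \ S).card * G T S := by
  classical
  -- the set of the possible left halves
  set W : Finset (Finset (Fin d)) :=
    (Finset.powersetCard T.card (S ∪ T)).filter (fun Z => S ∩ T ⊆ Z) with hW
  -- step 1: all subsets of `T \ S`
  have e1 : ∑ t ∈ Finset.range (N + 1), (-1 : ℂ) ^ t * ∑ X ∈ Finset.powersetCard t (T \ S),
      ∑ Y ∈ Finset.powersetCard (S.card - T.card + t) ((S ∪ X) \ (T \ X)),
        G ((S ∪ X) \ Y) ((T \ X) ∪ Y) =
      ∑ X ∈ (T \ S).powerset, (-1 : ℂ) ^ X.card *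
        ∑ Y ∈ Finset.powersetCard (S.card - T.card + X.card) ((S ∪ X) \ (T \ X)),
          G ((S ∪ X) \ Y) ((T \ X) ∪ Y) := by
    rw [Finset.sum_powerset]
    have hsub : Finset.range ((T \ S).card + 1) ⊆ Finset.range (N + 1) :=
      Finset.range_subset_range.2 (by omega)
    rw [← Finset.sum_subset hsub]
    · apply Finset.sum_congr rfl
      intro t _
      rw [Finset.mul_sum]
      apply Finset.sum_congr rfl
      intro X hX
      rw [Finset.mem_powersetCard] at hX
      rw [hX.2]
    · intro t _ ht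
      rw [Finset.mem_range] at ht
      rw [Finset.powersetCard_eq_empty.2 (by omega)]
      simp
  rw [e1]
  -- step 2: reindex the inner sum
  have e2 : ∀ X ∈ (T \ S).powerset,
      ∑ Y ∈ Finset.powersetCard (S.card - T.card + X.card) ((S ∪ X) \ (T \ X)),
          G ((S ∪ X) \ Y) ((T \ X) ∪ Y) =
        ∑ Z ∈ W, if Z \ S ⊆ X then G Z (gs3_co S T Z) else 0 := by
    intro X hX
    rw [Finset.mem_powerset] at hX
    have hXS : Disjoint S X := Finset.disjoint_of_subset_right hX Finset.disjoint_sdiff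
    have hXT : X ⊆ T := hX.trans Finset.sdiff_subset
    have hcU : (S ∪ X).card = S.card + X.card := Finset.card_union_of_disjoint hXS
    rw [← Finset.sum_filter]
    refine Finset.sum_nbij' (fun Y => (S ∪ X) \ Y) (fun Z => (S ∪ X) \ Z) ?_ ?_ ?_ ?_ ?_
    · intro Y hY
      rw [Finset.mem_powersetCard] at hY
      have hY' : Y ⊆ S ∪ X := hY.1.trans Finset.sdiff_subset
      rw [Finset.mem_filter, hW, Finset.mem_filter, Finset.mem_powersetCard]
      refine ⟨⟨⟨?_, ?_⟩, ?_⟩, ?_⟩
      · exact Finset.sdiff_subset.trans (Finset.union_subset_union_right hXT)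
      · rw [Finset.card_sdiff_of_subset hY']
        omega
      · intro i hi
        rw [Finset.mem_inter] at hi
        rw [Finset.mem_sdiff, Finset.mem_union]
        refine ⟨Or.inl hi.1, fun hiY => ?_⟩
        have := hY.1 hiY
        rw [Finset.mem_sdiff, Finset.mem_sdiff] at this
        exact this.2 ⟨hi.2, fun hiX => Finset.disjoint_left.1 hXS hi.1 hiX⟩
      · intro i hi
        rw [Finset.mem_sdiff, Finset.mem_sdiff, Finset.mem_union] at hi
        tauto
    · intro Z hZ
      rw [Finset.mem_filter, hW, Finset.mem_filter, Finset.mem_powersetCard] at hZ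
      obtain ⟨⟨⟨hZ1, hZ2⟩, hZ3⟩, hZ4⟩ := hZ
      have hZU : Z ⊆ S ∪ X := by
        intro i hi
        by_cases hiS : i ∈ S
        · exact Finset.mem_union_left _ hiS
        · exact Finset.mem_union_right _ (hZ4 (Finset.mem_sdiff.2 ⟨hi, hiS⟩))
      rw [Finset.mem_powersetCard]
      refine ⟨?_, ?_⟩
      · intro i hi
        rw [Finset.mem_sdiff] at hi
        rw [Finset.mem_sdiff, Finset.mem_sdiff]
        refine ⟨hi.1, fun h => ?_⟩
        rcases Finset.mem_union.1 hi.1 with h' | h'
        · exact hi.2 (hZ3 (Finset.mem_inter.2 ⟨h', h.1⟩))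
        · exact h.2 h'
      · rw [Finset.card_sdiff_of_subset hZU]
        omega
    · intro Y hY
      rw [Finset.mem_powersetCard] at hY
      exact Finset.sdiff_sdiff_eq_self (hY.1.trans Finset.sdiff_subset)
    · intro Z hZ
      rw [Finset.mem_filter, hW, Finset.mem_filter, Finset.mem_powersetCard] at hZ
      obtain ⟨⟨⟨hZ1, hZ2⟩, hZ3⟩, hZ4⟩ := hZ
      have hZU : Z ⊆ S ∪ X := by
        intro i hi
        by_cases hiS : i ∈ S
        · exact Finset.mem_union_left _ hiS
        · exact Finset.mem_union_right _ (hZ4 (Finset.mem_sdiff.2 ⟨hi, hiS⟩))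
      exact Finset.sdiff_sdiff_eq_self hZU
    · intro Y hY
      rw [Finset.mem_powersetCard] at hY
      congr 1
      ext i
      have h1 := @hY.1 i
      have h2 := @hXT i
      have h3 : i ∈ S → i ∈ X → False := fun h h' => Finset.disjoint_left.1 hXS h h'
      simp only [gs3_co, Finset.mem_union, Finset.mem_inter, Finset.mem_sdiff] at h1 ⊢
      tauto
  rw [Finset.sum_congr rfl fun X hX => by rw [e2 X hX]]
  -- step 3: swap
  simp only [Finset.mul_sum]
  rw [Finset.sum_comm]
  have e3 : ∀ Z ∈ W, ∑ X ∈ (T \ S).powerset, (-1 : ℂ) ^ X.card *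
      (if Z \ S ⊆ X then G Z (gs3_co S T Z) else 0) =
        if Z = T then (-1) ^ (T \ S).card * G T S else 0 := by
    intro Z hZ
    rw [hW, Finset.mem_filter, Finset.mem_powersetCard] at hZ
    obtain ⟨⟨hZ1, hZ2⟩, hZ3⟩ := hZ
    have hZT : Z \ S ⊆ T \ S := by
      intro i hi
      rw [Finset.mem_sdiff] at hi ⊢
      refine ⟨?_, hi.2⟩
      rcases Finset.mem_union.1 (hZ1 hi.1) with h | h
      · exact absurd h hi.2
      · exact h
    have h1 : ∑ X ∈ (T \ S).powerset, (-1 : ℂ) ^ X.card *
        (if Z \ S ⊆ X then G Z (gs3_co S T Z) else 0) =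
        (∑ X ∈ (T \ S).powerset.filter (fun X => Z \ S ⊆ X), (-1 : ℂ) ^ X.card) *
          G Z (gs3_co S T Z) := by
      rw [Finset.sum_filter, Finset.sum_mul]
      apply Finset.sum_congr rfl
      intro X _
      split_ifs <;> simp
    rw [h1, gs3_alt_sum hZT]
    by_cases hZT' : Z = T
    · subst hZT'
      rw [if_pos rfl, if_pos rfl]
      congr 2
      ext i
      simp only [gs3_co, Finset.mem_union, Finset.mem_inter, Finset.mem_sdiff]
      tauto
    · rw [if_neg hZT', if_neg, zero_mul]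
      intro h2
      apply hZT'
      symm
      apply Finset.eq_of_subset_of_card_le _ (le_of_eq hZ2)
      intro i hi
      by_cases hiS : i ∈ S
      · exact hZ3 (Finset.mem_inter.2 ⟨hiS, hi⟩)
      · have : i ∈ Z \ S := by
          rw [h2]
          exact Finset.mem_sdiff.2 ⟨hi, hiS⟩
        exact (Finset.mem_sdiff.1 this).1
  rw [Finset.sum_congr rfl e3, Finset.sum_ite_eq' W T, if_pos]
  rw [hW, Finset.mem_filter, Finset.mem_powersetCard]
  exact ⟨⟨Finset.subset_union_right, rfl⟩, Finset.inter_subset_right⟩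

/-- The pairs in both orders. -/
theorem gs3_ell_add (S T : Finset (Fin d)) :
    ell S T + ell T S + (S ∩ T).card = S.card * T.card := by
  have e1 : ell T S = ((S ×ˢ T).filter fun p => p.2 < p.1).card := by
    unfold ell
    refine Finset.card_nbij' (fun p => (p.2, p.1)) (fun p => (p.2, p.1)) ?_ ?_ ?_ ?_
    · intro p hp
      simp only [Finset.coe_filter, Finset.mem_product, Set.mem_ofPred_eq] at hp ⊢
      tauto
    · intro p hp
      simp only [Finset.coe_filter, Finset.mem_product, Set.mem_ofPred_eq] at hp ⊢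
      tauto
    · intro p _; rfl
    · intro p _; rfl
  have e2 : (S ∩ T).card = ((S ×ˢ T).filter fun p => p.1 = p.2).card := by
    refine Finset.card_nbij' (fun i => (i, i)) (fun p => p.1) ?_ ?_ ?_ ?_
    · intro i hi
      simp only [Finset.coe_inter, Set.mem_inter_iff, Finset.mem_coe, Finset.coe_filter,
        Finset.mem_product, Set.mem_ofPred_eq] at hi ⊢
      tauto
    · intro p hp
      simp only [Finset.coe_inter, Set.mem_inter_iff, Finset.mem_coe, Finset.coe_filter,
        Finset.mem_product, Set.mem_ofPred_eq] at hp ⊢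
      obtain ⟨⟨h1, h2⟩, h3⟩ := hp
      exact ⟨h1, h3 ▸ h2⟩
    · intro i _; rfl
    · intro p hp
      simp only [Finset.coe_filter, Finset.mem_product, Set.mem_ofPred_eq] at hp
      ext <;> simp [hp.2]
  rw [e1, e2, ← Finset.card_product]
  unfold ell
  rw [← Finset.card_union_of_disjoint, ← Finset.card_union_of_disjoint]
  · congr 1
    ext p
    simp only [Finset.mem_union, Finset.mem_filter]
    constructor
    · tauto
    · intro hp
      rcases lt_trichotomy p.1 p.2 with h | h | h
      · exact Or.inl (Or.inl ⟨hp, h⟩)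
      · exact Or.inr ⟨hp, h⟩
      · exact Or.inl (Or.inr ⟨hp, h⟩)
  · rw [Finset.disjoint_left]
    intro p hp hp'
    simp only [Finset.mem_union, Finset.mem_filter] at hp hp'
    rcases hp with h | h
    · exact absurd hp'.2 h.2.ne
    · exact absurd hp'.2 h.2.ne'
  · rw [Finset.disjoint_left]
    intro p hp hp'
    simp only [Finset.mem_filter] at hp hp'
    exact absurd hp.2 (not_lt.2 hp'.2.le)

theorem gs3_pow {q : ℂ} (hq : q ^ 2 = 1) {m n : ℕ} (h : Even m ↔ Even n) : q ^ m = q ^ n := by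
  rcases Nat.even_or_odd m with hm | hm
  · have hn := h.1 hm
    obtain ⟨i, rfl⟩ := even_iff_two_dvd.1 hm
    obtain ⟨j, rfl⟩ := even_iff_two_dvd.1 hn
    rw [pow_mul, pow_mul, hq, one_pow, one_pow]
  · have hn : Odd n := by
      rw [← Nat.not_even_iff_odd] at hm ⊢
      exact fun h' => hm (h.2 h')
    obtain ⟨i, rfl⟩ := hm
    obtain ⟨j, rfl⟩ := hn
    rw [pow_succ, pow_succ, pow_mul, pow_mul, hq, one_pow, one_pow]

theorem gs3_fin {q : ℂ} (hq : q ^ 2 = 1) (S T : Finset (Fin d)) (β κ : ℂ) :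
    (-1) ^ (T.card + S.card * T.card) * β * q ^ (S.card * T.card) * eps q S T *
      ((-1) ^ (T \ S).card * (eps q T S * κ)) = β * q ^ (S ∩ T).card * κ := by
  have h1 := gs3_ell_add S T
  have h2 : (T \ S).card + (S ∩ T).card = T.card := by
    have := Finset.card_sdiff_add_card_inter T S
    rwa [Finset.inter_comm] at this
  have e1 : eps q S T * eps q T S = (-1) ^ (ell S T + ell T S) * q ^ (ell S T + ell T S) := by
    rw [eps, eps, ← pow_add, ← mul_pow]
    congr 1
    ring
  have e2 : (-1 : ℂ) ^ (T.card + S.card * T.card) * (-1) ^ (T \ S).card *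
      (-1) ^ (ell S T + ell T S) = 1 := by
    rw [← h1, ← h2, ← pow_add, ← pow_add]
    apply Even.neg_one_pow
    simp only [Nat.even_add]
    tauto
  have e3 : q ^ (S.card * T.card) * q ^ (ell S T + ell T S) = q ^ (S ∩ T).card := by
    rw [← h1, ← pow_add]
    apply gs3_pow hq
    simp only [Nat.even_add]
    tauto
  calc _ = ((-1 : ℂ) ^ (T.card + S.card * T.card) * (-1) ^ (T \ S).card) *
      (eps q S T * eps q T S) * q ^ (S.card * T.card) * β * κ := by ring
    _ = ((-1 : ℂ) ^ (T.card + S.card * T.card) * (-1) ^ (T \ S).card *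
      (-1) ^ (ell S T + ell T S)) * (q ^ (S.card * T.card) * q ^ (ell S T + ell T S)) *
        β * κ := by rw [e1]; ring
    _ = _ := by rw [e2, e3]; ring

theorem gs3_inv {q : ℂ} (hq : q ^ 2 = 1) : q⁻¹ = q := by
  exact (eq_inv_of_mul_eq_one_left (by rw [← sq, hq])).symm

theorem gs3_b {b : ℂ} {o : Bool} (hd : (a ^ d) ^ 2 = 1) (hb : b = if o then a else a⁻¹) :
    b ^ d = a ^ d := by
  subst hb
  cases o
  · simp only [Bool.false_eq_true, ↓reduceIte, inv_pow]
    exact gs3_inv hd
  · simp

theorem gs3_cf {b : ℂ} {o : Bool} (hd : (a ^ d) ^ 2 = 1) (hb : b = if o then a else a⁻¹)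
    (S T : Finset (Fin d)) : cf a o (CS.web true S) (CS.web true T) =
      b⁻¹ ^ (S.card * T.card) * (a ^ d) ^ (S ∩ T).card := by
  subst hb
  cases o
  · have e : ((a ^ d) ^ (S ∩ T).card)⁻¹ = (a ^ d) ^ (S ∩ T).card := by
      rw [← inv_pow, gs3_inv hd]
    simp [cf, wgt, e, mul_comm]
  · simp [cf, wgt]

theorem gs3_two {cs : List (CS d)} {k l : ℕ} (h : cs.map ty = [web true k, web true l]) :
    ∃ S T : Finset (Fin d), S.card = k ∧ T.card = l ∧
      cs = [CS.web true S, CS.web true T] := by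
  match cs with
  | [] => simp at h
  | [_] => simp at h
  | [x, y] =>
    cases x with
    | pole x hx => simp [ty] at h
    | web u S =>
      cases y with
      | pole x hx => simp [ty] at h
      | web u' T =>
        simp only [List.map_cons, List.map_nil, ty, List.cons.injEq, Str.web.injEq,
          and_true] at h
        obtain ⟨⟨rfl, rfl⟩, rfl, rfl⟩ := h
        exact ⟨S, T, rfl, rfl, rfl⟩
  | _ :: _ :: _ :: _ => simp at h

theorem sk_crossGe (ha : a ≠ 0) (hd : (a ^ d) ^ 2 = 1) {k l : ℕ} {o : Bool} {b : ℂ}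
    (hb : b = if o then a else a⁻¹) (h : 0 < l ∧ l ≤ k ∧ k < d) :
    SkEq (d := d) a [web true k, web true l] [(1, [cr 0 o])]
      ((List.range (min l (d - k) + 1)).map fun t =>
        ((-1) ^ (l + k * l) * (b ^ d) ^ l * b⁻¹ ^ (k * l) * (-(b ^ d)⁻¹) ^ t,
          ladF d k l t ++ ladE d (k + t) (l - t) (k - l + t))) := by
  intro cs hcs B K
  obtain ⟨S, T, hS, hT, rfl⟩ := gs3_two hcs
  obtain ⟨h0, h1, h2⟩ := h
  have hTSc : (T \ S).card ≤ min l (d - k) := by
    have e1 : (T \ S).card ≤ T.card := Finset.card_le_card Finset.sdiff_subset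
    have e2 : (S ∪ (T \ S)).card = S.card + (T \ S).card :=
      Finset.card_union_of_disjoint Finset.disjoint_sdiff
    have e3 := card_le_d (S ∪ (T \ S))
    omega
  set q : ℂ := a ^ d with hq
  -- the left side
  have hL : ([((1 : ℂ), [cr 0 o])].map fun x => x.1 *
      actW a x.2 ([CS.web true S, CS.web true T] ++ B) K).sum =
      b⁻¹ ^ (k * l) * q ^ (S ∩ T).card * K (vs T ++ (vs S ++ B)) := by
    rw [vs_of (S := S) (by omega), vs_of (S := T) (by omega)]
    simp only [List.map_cons, List.map_nil, List.sum_cons, List.sum_nil, one_mul, add_zero,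
      actW, List.cons_append, List.nil_append]
    rw [act_cr0, gs3_cf hd hb, hS, hT]
  rw [hL]
  -- the right side
  have hcs' : [CS.web true S, CS.web true T] ++ B = vs S ++ (vs T ++ B) := by
    rw [vs_of (S := S) (by omega), vs_of (S := T) (by omega)]
    rfl
  rw [hcs', List.map_map, gs3_b hd hb, ← hq]
  have hR := gs3_flip (S := S) (T := T) (by omega) hTSc
    (fun A C => eps q A C * K (vs A ++ (vs C ++ B)))
  have hterm : ∀ t ∈ Finset.range (min l (d - k) + 1),
      (-1) ^ (l + k * l) * q ^ l * b⁻¹ ^ (k * l) * (-q⁻¹) ^ t *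
        actW a (ladF d k l t ++ ladE d (k + t) (l - t) (k - l + t)) (vs S ++ (vs T ++ B)) K =
      (-1) ^ (l + k * l) * b⁻¹ ^ (k * l) * q ^ (k * l) * eps q S T *
        ((-1) ^ t * ∑ X ∈ Finset.powersetCard t (T \ S),
          ∑ Y ∈ Finset.powersetCard (S.card - T.card + t) ((S ∪ X) \ (T \ X)),
            (fun A C => eps q A C * K (vs A ++ (vs C ++ B))) ((S ∪ X) \ Y) ((T \ X) ∪ Y)) := by
    intro t ht
    rw [Finset.mem_range] at ht
    have ht1 : t ≤ l := by omega
    have ht2 : k + t ≤ d := by omega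
    rw [actW_append, actW_ladF hd hS hT ht1 ht2, Finset.mul_sum, Finset.mul_sum, Finset.mul_sum]
    apply Finset.sum_congr rfl
    intro X hX
    rw [Finset.mem_powersetCard] at hX
    have hXS : Disjoint S X := Finset.disjoint_of_subset_right hX.1 Finset.disjoint_sdiff
    have hXT : X ⊆ T := hX.1.trans Finset.sdiff_subset
    have hc1 : (S ∪ X).card = k + t := by
      rw [Finset.card_union_of_disjoint hXS]; omega
    have hc2 : (T \ X).card = l - t := by
      rw [Finset.card_sdiff_of_subset hXT]; omega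
    rw [actW_ladE hd hc1 hc2 (by omega) (by omega), Finset.mul_sum, Finset.mul_sum,
      Finset.mul_sum, Finset.mul_sum, hS, hT]
    apply Finset.sum_congr rfl
    intro Y _
    rw [← hq]
    have hee := eps_mul_self hd (S ∪ X) (T \ X)
    have hqq : q ^ l * (-q⁻¹) ^ t * q ^ (t * (l - t)) *
        q ^ ((k + t - (k - l + t)) * (k - l + t)) = (-1) ^ t * q ^ (k * l) := by
      rw [gs3_inv hd]
      have : (-q) ^ t = (-1) ^ t * q ^ t := by rw [← mul_pow]; congr 1; ring
      rw [this]
      obtain ⟨m, rfl⟩ : ∃ m, l = t + m := ⟨l - t, by omega⟩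
      obtain ⟨p, rfl⟩ : ∃ p, k = t + m + p := ⟨k - (t + m), by omega⟩
      have e1 : t + m - t = m := by omega
      have e2 : t + m + p - (t + m) + t = p + t := by omega
      have e3 : t + m + p + t - (p + t) = t + m := by omega
      rw [e1, e2, e3]
      have : q ^ (t + m) * q ^ t * q ^ (t * m) * q ^ ((t + m) * (p + t)) =
          q ^ ((t + m + p) * (t + m)) := by
        rw [← pow_add, ← pow_add, ← pow_add]
        apply gs3_pow hd
        by_cases ht : Even t <;> by_cases hm : Even m <;> by_cases hp : Even p <;>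
          simp [Nat.even_add, Nat.even_mul, ht, hm, hp]
      rw [← this]
      ring
    linear_combination ((-1) ^ (l + k * l) * b⁻¹ ^ (k * l) * eps q S T *
      (eps q (S ∪ X) (T \ X) * eps q (S ∪ X) (T \ X)) *
      (eps q ((S ∪ X) \ Y) (T \ X ∪ Y) * K (vs ((S ∪ X) \ Y) ++ (vs (T \ X ∪ Y) ++ B)))) * hqq +
      ((-1) ^ (l + k * l) * b⁻¹ ^ (k * l) * eps q S T * ((-1) ^ t * q ^ (k * l)) *
      (eps q ((S ∪ X) \ Y) (T \ X ∪ Y) * K (vs ((S ∪ X) \ Y) ++ (vs (T \ X ∪ Y) ++ B)))) * hee
  symm
  change ∑ t ∈ Finset.range (min l (d - k) + 1),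
      (-1) ^ (l + k * l) * q ^ l * b⁻¹ ^ (k * l) * (-q⁻¹) ^ t *
        actW a (ladF d k l t ++ ladE d (k + t) (l - t) (k - l + t)) (vs S ++ (vs T ++ B)) K = _
  rw [Finset.sum_congr rfl hterm, ← Finset.mul_sum, hR]
  have := gs3_fin hd S T (b⁻¹ ^ (k * l)) (K (vs T ++ (vs S ++ B)))
  rw [hS, hT] at this
  exact this

theorem sk_crossLe (ha : a ≠ 0) (hd : (a ^ d) ^ 2 = 1) {k l : ℕ} {o : Bool} {b : ℂ}
    (hb : b = if o then a else a⁻¹) (h : 0 < k ∧ k ≤ l ∧ l < d) :
    SkEq (d := d) a [web true k, web true l] [(1, [cr 0 o])]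
      ((List.range (min k (d - l) + 1)).map fun t =>
        ((-1) ^ (k + k * l) * (b ^ d) ^ k * b⁻¹ ^ (k * l) * (-(b ^ d)⁻¹) ^ t,
          ladE d k l t ++ ladF d (k - t) (l + t) (l - k + t))) := by
  intro cs hcs B K
  obtain ⟨S, T, hS, hT, rfl⟩ := gs3_two hcs
  obtain ⟨h0, h1, h2⟩ := h
  have hTSc : (S \ T).card ≤ min k (d - l) := by
    have e1 : (S \ T).card ≤ S.card := Finset.card_le_card Finset.sdiff_subset
    have e2 : (T ∪ (S \ T)).card = T.card + (S \ T).card :=
      Finset.card_union_of_disjoint Finset.disjoint_sdiff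
    have e3 := card_le_d (T ∪ (S \ T))
    omega
  set q : ℂ := a ^ d with hq
  -- the left side
  have hL : ([((1 : ℂ), [cr 0 o])].map fun x => x.1 *
      actW a x.2 ([CS.web true S, CS.web true T] ++ B) K).sum =
      b⁻¹ ^ (k * l) * q ^ (S ∩ T).card * K (vs T ++ (vs S ++ B)) := by
    rw [vs_of (S := S) (by omega), vs_of (S := T) (by omega)]
    simp only [List.map_cons, List.map_nil, List.sum_cons, List.sum_nil, one_mul, add_zero,
      actW, List.cons_append, List.nil_append]
    rw [act_cr0, gs3_cf hd hb, hS, hT]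
  rw [hL]
  -- the right side
  have hcs' : [CS.web true S, CS.web true T] ++ B = vs S ++ (vs T ++ B) := by
    rw [vs_of (S := S) (by omega), vs_of (S := T) (by omega)]
    rfl
  rw [hcs', List.map_map, gs3_b hd hb, ← hq]
  have hR := gs3_flip (S := T) (T := S) (by omega) hTSc
    (fun C A => eps q A C * K (vs A ++ (vs C ++ B)))
  have hterm : ∀ t ∈ Finset.range (min k (d - l) + 1),
      (-1) ^ (k + k * l) * q ^ k * b⁻¹ ^ (k * l) * (-q⁻¹) ^ t *
        actW a (ladE d k l t ++ ladF d (k - t) (l + t) (l - k + t)) (vs S ++ (vs T ++ B)) K =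
      (-1) ^ (k + k * l) * b⁻¹ ^ (k * l) * q ^ (k * l) * eps q S T *
        ((-1) ^ t * ∑ X ∈ Finset.powersetCard t (S \ T),
          ∑ Y ∈ Finset.powersetCard (T.card - S.card + t) ((T ∪ X) \ (S \ X)),
            (fun C A => eps q A C * K (vs A ++ (vs C ++ B))) ((T ∪ X) \ Y) ((S \ X) ∪ Y)) := by
    intro t ht
    rw [Finset.mem_range] at ht
    have ht1 : t ≤ k := by omega
    have ht2 : l + t ≤ d := by omega
    rw [actW_append, actW_ladE hd hS hT ht1 ht2, Finset.mul_sum, Finset.mul_sum, Finset.mul_sum]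
    apply Finset.sum_congr rfl
    intro X hX
    rw [Finset.mem_powersetCard] at hX
    have hXS : Disjoint T X := Finset.disjoint_of_subset_right hX.1 Finset.disjoint_sdiff
    have hXT : X ⊆ S := hX.1.trans Finset.sdiff_subset
    have hc1 : (T ∪ X).card = l + t := by
      rw [Finset.card_union_of_disjoint hXS]; omega
    have hc2 : (S \ X).card = k - t := by
      rw [Finset.card_sdiff_of_subset hXT]; omega
    rw [actW_ladF hd hc2 hc1 (by omega) (by omega), Finset.mul_sum, Finset.mul_sum,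
      Finset.mul_sum, Finset.mul_sum, hS, hT]
    apply Finset.sum_congr rfl
    intro Y _
    rw [← hq]
    have hee := eps_mul_self hd (S \ X) (T ∪ X)
    have hqq : q ^ k * (-q⁻¹) ^ t * q ^ ((k - t) * t) *
        q ^ ((l - k + t) * (l + t - (l - k + t))) = (-1) ^ t * q ^ (k * l) := by
      rw [gs3_inv hd]
      have : (-q) ^ t = (-1) ^ t * q ^ t := by rw [← mul_pow]; congr 1; ring
      rw [this]
      obtain ⟨m, rfl⟩ : ∃ m, k = t + m := ⟨k - t, by omega⟩
      obtain ⟨p, rfl⟩ : ∃ p, l = t + m + p := ⟨l - (t + m), by omega⟩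
      have e1 : t + m - t = m := by omega
      have e2 : t + m + p - (t + m) + t = p + t := by omega
      have e3 : t + m + p + t - (p + t) = t + m := by omega
      rw [e1, e2, e3]
      have : q ^ (t + m) * q ^ t * q ^ (m * t) * q ^ ((p + t) * (t + m)) =
          q ^ ((t + m) * (t + m + p)) := by
        rw [← pow_add, ← pow_add, ← pow_add]
        apply gs3_pow hd
        by_cases ht : Even t <;> by_cases hm : Even m <;> by_cases hp : Even p <;>
          simp [Nat.even_add, Nat.even_mul, ht, hm, hp]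
      rw [← this]
      ring
    linear_combination ((-1) ^ (k + k * l) * b⁻¹ ^ (k * l) * eps q S T *
      (eps q (S \ X) (T ∪ X) * eps q (S \ X) (T ∪ X)) *
      (eps q (S \ X ∪ Y) ((T ∪ X) \ Y) * K (vs (S \ X ∪ Y) ++ (vs ((T ∪ X) \ Y) ++ B)))) * hqq +
      ((-1) ^ (k + k * l) * b⁻¹ ^ (k * l) * eps q S T * ((-1) ^ t * q ^ (k * l)) *
      (eps q (S \ X ∪ Y) ((T ∪ X) \ Y) * K (vs (S \ X ∪ Y) ++ (vs ((T ∪ X) \ Y) ++ B)))) * hee
  symm
  change ∑ t ∈ Finset.range (min k (d - l) + 1),
      (-1) ^ (k + k * l) * q ^ k * b⁻¹ ^ (k * l) * (-q⁻¹) ^ t *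
        actW a (ladE d k l t ++ ladF d (k - t) (l + t) (l - k + t)) (vs S ++ (vs T ++ B)) K = _
  rw [Finset.sum_congr rfl hterm, ← Finset.mul_sum, hR]
  have := gs3_fin hd T S (b⁻¹ ^ (k * l)) (K (vs T ++ (vs S ++ B)))
  rw [hS, hT, Finset.inter_comm T S, mul_comm l k] at this
  linear_combination this

end Pool.Agent.Helper26.SK.G
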