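import Pool.Agent.Helper26.SK.Natural

/-!
# The evaluation of diagrams for general `d` at `q = a ^ d = ± 1`

Strands of weight `k` are coloured by the subsets of `Fin d` with `k` elements; the poles act by
diagonal matrices with determinant `1` on the webs passing behind them.
-/

namespace Pool.Agent.Helper26.SK.G

open Str Piece

variable {d : ℕ}

/-- Coloured strands.  The pole `pole x hx` acts by the diagonal matrix with the entries `x i`. -/
inductive CS (d : ℕ) : Type
  | pole (x : Fin d → ℂ) (hx : ∏ i, x i = 1)
  | web (u : Bool) (S : Finset (Fin d))

/-- The type of a coloured strand. -/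
def ty : CS d → Str
  | .pole _ _ => Str.pole
  | .web u S => Str.web u S.card

/-- The number of pairs `(i, j)` with `i` in `S`, `j` in `T` and `i < j`. -/
def ell (S T : Finset (Fin d)) : ℕ := ((S ×ˢ T).filter fun p => p.1 < p.2).card

/-- The sign of a pair of subsets, for `q = ± 1`. -/
noncomputable def eps (q : ℂ) (S T : Finset (Fin d)) : ℂ := (-q) ^ ell S T

/-- The quantum trace weight of a strand of weight `k`, for `q = ± 1`. -/
noncomputable def kap (d : ℕ) (q : ℂ) (k : ℕ) : ℂ := q ^ ((d + 1) * k)

/-- The weight of a positive crossing of two upward strands, for `a ^ d = ± 1`. -/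
noncomputable def wgt (a : ℂ) (S T : Finset (Fin d)) : ℂ :=
  a⁻¹ ^ (S.card * T.card) * (a ^ d) ^ (S ∩ T).card

/-- The coefficient of a crossing. -/
noncomputable def cf (a : ℂ) (o : Bool) : CS d → CS d → ℂ
  | .web u S, .web u' T => if (u == u') == o then wgt a S T else (wgt a S T)⁻¹
  | .web u S, .pole x _ => if o then 1 else if u then ∏ i ∈ S, x i else (∏ i ∈ S, x i)⁻¹
  | .pole x _, .web u S => if o then (if u then (∏ i ∈ S, x i)⁻¹ else ∏ i ∈ S, x i) else 1
  | .pole _ _, .pole _ _ => 0

open Classical in
/-- The action of a local maximum. -/
noncomputable def locCap (a : ℂ) : List (CS d) → List (ℂ × List (CS d))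
  | [.web u S, .web u' T] =>
    if u' = !u ∧ S = T then [(if u then kap d (a ^ d) S.card else 1, [])] else []
  | _ => []

/-- The action of a merging vertex. -/
noncomputable def locMerge (a : ℂ) (k l : ℕ) : List (CS d) → List (ℂ × List (CS d))
  | [.web true S, .web true T] =>
    if S.card = k ∧ T.card = l ∧ Disjoint S T then
      [(eps (a ^ d) S T, if vis d (k + l) = 1 then [CS.web true (S ∪ T)] else [])] else []
  | _ => []

/-- The action of a splitting vertex. -/
noncomputable def locSplit (a : ℂ) (k l : ℕ) : List (CS d) → List (ℂ × List (CS d))
  | [] =>
    if k + l = d then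
      (Finset.powersetCard k (Finset.univ : Finset (Fin d))).toList.map fun S =>
        ((a ^ d) ^ (k * l) * eps (a ^ d) S (Finset.univ \ S),
          [CS.web true S, CS.web true (Finset.univ \ S)])
    else []
  | [.web true U] =>
    if U.card = k + l then
      (Finset.powersetCard k U).toList.map fun S =>
        ((a ^ d) ^ (k * l) * eps (a ^ d) S (U \ S), [CS.web true S, CS.web true (U \ S)])
    else []
  | _ => []

/-- The action of a piece without its position, on the strands entering it. -/
noncomputable def loc (a : ℂ) : Piece → List (CS d) → List (ℂ × List (CS d))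
  | cup _ u k, _ =>
    (Finset.powersetCard k (Finset.univ : Finset (Fin d))).toList.map fun S =>
      (if u then 1 else kap d (a ^ d) k, [CS.web u S, CS.web (!u) S])
  | cap _, s => locCap a s
  | cr _ o, [x, y] => [(cf a o x y, [y, x])]
  | cr _ _, _ => []
  | merge _ k l, s => locMerge a k l s
  | split _ k l, s => locSplit a k l s

/-- Functions on the set of lists of coloured strands. -/
abbrev Cont (d : ℕ) : Type := List (CS d) → ℂ

/-- The action of a piece at the position zero. -/
noncomputable def base (a : ℂ) (p : Piece) (s : List (CS d)) (K : Cont d) : ℂ :=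
  if p.inn d ≤ s.length then
    ((loc a p (s.take (p.inn d))).map fun x => x.1 * K (x.2 ++ s.drop (p.inn d))).sum
  else 0

/-- Action at a position. -/
def actAt (f : List (CS d) → Cont d → ℂ) : ℕ → List (CS d) → Cont d → ℂ
  | 0, s, K => f s K
  | _ + 1, [], _ => 0
  | i + 1, c :: s, K => actAt f i s (fun s' => K (c :: s'))

/-- The action of a piece. -/
noncomputable def act (a : ℂ) (p : Piece) (s : List (CS d)) (K : Cont d) : ℂ :=
  actAt (base a p) p.pos s K

/-- The action of a diagram. -/
noncomputable def actW (a : ℂ) : List Piece → List (CS d) → Cont d → ℂ
  | [], s, K => K s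
  | p :: D, s, K => act a p s (fun t => actW a D t K)

/-- The value of a diagram, the poles being coloured by `P`. -/
noncomputable def ev (a : ℂ) (P : List (CS d)) (D : List Piece) : ℂ := actW a D P (fun _ => 1)

/-! ### Generic properties -/

variable {a : ℂ}

theorem inn_shift (p : Piece) (n : ℕ) : (p.shift n).inn d = p.inn d := by
  cases p <;> rfl

theorem out_shift (p : Piece) (n : ℕ) : (p.shift n).out d = p.out d := by
  cases p <;> rfl

theorem loc_shift (p : Piece) (n : ℕ) (s : List (CS d)) : loc a (p.shift n) s = loc a p s := by
  cases p with
  | cr i o =>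
    match s with
    | [] => rfl
    | [_] => rfl
    | [_, _] => rfl
    | _ :: _ :: _ :: _ => rfl
  | _ => rfl

theorem base_shift (p : Piece) (n : ℕ) (s : List (CS d)) (K : Cont d) :
    base a (p.shift n) s K = base a p s K := by
  unfold base
  rw [inn_shift, loc_shift]

theorem act_zero {p : Piece} (h : p.pos = 0) (s : List (CS d)) (K : Cont d) :
    act a p s K = base a p s K := by
  rw [act, h, actAt]

theorem act_shift_one_cons (p : Piece) (c : CS d) (s : List (CS d)) (K : Cont d) :
    act a (p.shift 1) (c :: s) K = act a p s (fun t => K (c :: t)) := by
  have : base (d := d) a (p.shift 1) = base a p := by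
    funext s K; exact base_shift p 1 s K
  rw [act, act, this, pos_shift', actAt]

theorem act_shift_one_nil (p : Piece) (K : Cont d) : act a (p.shift 1) [] K = 0 := by
  rw [act, pos_shift', actAt]

theorem act_shift (p : Piece) (A s : List (CS d)) (K : Cont d) :
    act a (p.shift A.length) (A ++ s) K = act a p s (fun t => K (A ++ t)) := by
  induction A generalizing K with
  | nil => rw [List.length_nil, shift_zero]; rfl
  | cons c A ih =>
    rw [List.length_cons, ← shift_shift, List.cons_append, act_shift_one_cons, ih]
    rfl

theorem act_shift_of_length (p : Piece) {n : ℕ} (A s : List (CS d)) (h : A.length = n)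
    (K : Cont d) : act a (p.shift n) (A ++ s) K = act a p s (fun t => K (A ++ t)) := by
  rw [← h, act_shift]

theorem act_shift_short (p : Piece) {n : ℕ} (s : List (CS d)) (h : s.length < n) (K : Cont d) :
    act a (p.shift n) s K = 0 := by
  induction n generalizing s K with
  | zero => omega
  | succ n ih =>
    rw [← shift_shift]
    cases s with
    | nil => rw [act_shift_one_nil]
    | cons c s =>
      rw [act_shift_one_cons]
      exact ih s (by simpa using h) _

theorem base_add (p : Piece) (s : List (CS d)) (K K' : Cont d) :
    base a p s (fun t => K t + K' t) = base a p s K + base a p s K' := by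
  unfold base
  split_ifs
  · simp only [mul_add]
    rw [List.sum_map_add]
  · simp

theorem base_mul (p : Piece) (s : List (CS d)) (c : ℂ) (K : Cont d) :
    base a p s (fun t => c * K t) = c * base a p s K := by
  unfold base
  split_ifs
  · rw [← List.sum_map_mul_left]
    congr 1
    apply List.map_congr_left
    intro x _
    ring
  · simp

theorem act_add (p : Piece) (s : List (CS d)) (K K' : Cont d) :
    act a p s (fun t => K t + K' t) = act a p s K + act a p s K' := by
  unfold act
  generalize p.pos = i
  induction i generalizing s K K' with
  | zero => exact base_add p s K K'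
  | succ i ih =>
    match s with
    | [] => simp [actAt]
    | c :: s => exact ih s _ _

theorem act_mul (p : Piece) (s : List (CS d)) (c : ℂ) (K : Cont d) :
    act a p s (fun t => c * K t) = c * act a p s K := by
  unfold act
  generalize p.pos = i
  induction i generalizing s K with
  | zero => exact base_mul p s c K
  | succ i ih =>
    match s with
    | [] => simp [actAt]
    | c' :: s => exact ih s _

theorem act_zero_cont (p : Piece) (s : List (CS d)) : act a p s (fun _ => 0) = 0 := by
  have := act_mul (a := a) p s 0 (fun _ => 0)
  simpa using this

theorem act_sum {ι : Type} (p : Piece) (s : List (CS d)) (X : List ι) (c : ι → ℂ)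
    (K : ι → Cont d) : act a p s (fun t => (X.map fun x => c x * K x t).sum) =
      (X.map fun x => c x * act a p s (K x)).sum := by
  induction X with
  | nil => simpa using act_zero_cont p s
  | cons x X ih =>
    simp only [List.map_cons, List.sum_cons]
    rw [act_add p s (fun t => c x * K x t), act_mul, ih]

theorem act_finset_sum {ι : Type} (p : Piece) (s : List (CS d)) (X : Finset ι)
    (K : ι → Cont d) : act a p s (fun t => ∑ x ∈ X, K x t) = ∑ x ∈ X, act a p s (K x) := by
  classical
  induction X using Finset.induction_on with
  | empty => simpa using act_zero_cont p s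
  | insert x X hx ih =>
    simp only [Finset.sum_insert hx]
    rw [act_add p s (K x), ih]

theorem actW_append (D E : List Piece) (s : List (CS d)) (K : Cont d) :
    actW a (D ++ E) s K = actW a D s (fun t => actW a E t K) := by
  induction D generalizing s with
  | nil => rfl
  | cons p D ih =>
    simp only [List.cons_append, actW, ih]

theorem actW_mul (D : List Piece) (s : List (CS d)) (c : ℂ) (K : Cont d) :
    actW a D s (fun t => c * K t) = c * actW a D s K := by
  induction D generalizing s with
  | nil => rfl
  | cons p D ih =>
    simp only [actW, ih]
    exact act_mul p s c _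

theorem actW_add (D : List Piece) (s : List (CS d)) (K K' : Cont d) :
    actW a D s (fun t => K t + K' t) = actW a D s K + actW a D s K' := by
  induction D generalizing s with
  | nil => rfl
  | cons p D ih =>
    simp only [actW, ih]
    exact act_add p s _ _

theorem actW_zero_cont (D : List Piece) (s : List (CS d)) : actW a D s (fun _ => 0) = 0 := by
  have := actW_mul (a := a) D s 0 (fun _ => 0)
  simpa using this

theorem actW_sum {ι : Type} (D : List Piece) (s : List (CS d)) (X : List ι) (c : ι → ℂ)
    (K : ι → Cont d) : actW a D s (fun t => (X.map fun x => c x * K x t).sum) =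
      (X.map fun x => c x * actW a D s (K x)).sum := by
  induction X with
  | nil => simpa using actW_zero_cont D s
  | cons x X ih =>
    simp only [List.map_cons, List.sum_cons]
    rw [actW_add D s (fun t => c x * K x t), actW_mul, ih]

theorem actW_finset_sum {ι : Type} (D : List Piece) (s : List (CS d)) (X : Finset ι)
    (K : ι → Cont d) : actW a D s (fun t => ∑ x ∈ X, K x t) = ∑ x ∈ X, actW a D s (K x) := by
  classical
  induction X using Finset.induction_on with
  | empty => simpa using actW_zero_cont D s
  | insert x X hx ih =>
    simp only [Finset.sum_insert hx]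
    rw [actW_add D s (K x), ih]

theorem actW_shift (D : List Piece) (A s : List (CS d)) (K : Cont d) :
    actW a (D.map (shift A.length)) (A ++ s) K = actW a D s (fun t => K (A ++ t)) := by
  induction D generalizing s with
  | nil => rfl
  | cons p D ih =>
    simp only [List.map_cons, actW]
    rw [act_shift]
    congr 1
    funext t
    exact ih t

/-- The lists of strands produced by `loc` have the right length. -/
theorem length_of_mem_loc (p : Piece) (s : List (CS d)) (x : ℂ × List (CS d))
    (hx : x ∈ loc a p s) : x.2.length = p.out d := by
  cases p with
  | cup i u k =>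
    simp only [loc, List.mem_map] at hx
    obtain ⟨S, -, rfl⟩ := hx
    rfl
  | cap i =>
    simp only [loc] at hx
    unfold locCap at hx
    split at hx
    · split_ifs at hx
      all_goals first | (simp only [List.mem_singleton] at hx; subst hx; rfl) | simp at hx
    · simp at hx
  | cr i o =>
    match s with
    | [] => simp [loc] at hx
    | [_] => simp [loc] at hx
    | [_, _] =>
      simp only [loc, List.mem_singleton] at hx
      subst hx
      rfl
    | _ :: _ :: _ :: _ => simp [loc] at hx
  | merge i k l =>
    simp only [loc] at hx
    unfold locMerge at hx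
    split at hx
    · split_ifs at hx with h1 h2
      · simp only [List.mem_singleton] at hx
        subst hx
        simp [Piece.out, h2]
      · simp only [List.mem_singleton] at hx
        subst hx
        simp only [Piece.out, vis] at h2 ⊢
        split_ifs at h2 ⊢ <;> simp_all
      · simp at hx
    · simp at hx
  | split i k l =>
    simp only [loc] at hx
    unfold locSplit at hx
    split at hx
    · split_ifs at hx
      · simp only [List.mem_map] at hx
        obtain ⟨S, -, rfl⟩ := hx
        rfl
      · simp at hx
    · split_ifs at hx
      · simp only [List.mem_map] at hx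
        obtain ⟨S, -, rfl⟩ := hx
        rfl
      · simp at hx
    · simp at hx

/-- Pieces far from each other. -/
theorem act_far (x y : Piece) (h : x.pos ≤ y.pos) (s : List (CS d)) (K : Cont d) :
    act a x s (fun t => act a (y.shift (x.out d)) t K) =
      act a (y.shift (x.inn d)) s (fun t => act a x t K) := by
  obtain ⟨i, hi⟩ : ∃ i, x.pos = i := ⟨_, rfl⟩
  induction i generalizing x y s K with
  | zero =>
    rcases lt_or_ge s.length (x.inn d) with hs | hs
    · rw [act_shift_short y s hs, act_zero hi]
      exact if_neg (not_le.2 hs)
    · obtain ⟨p, r, rfl, hp⟩ : ∃ p r, s = p ++ r ∧ p.length = x.inn d :=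
        ⟨s.take (x.inn d), s.drop (x.inn d), (List.take_append_drop _ _).symm,
          List.length_take_of_le hs⟩
      rw [act_shift_of_length y p r hp, act_zero hi]
      simp only [act_zero hi]
      unfold base
      simp only [List.length_append, hp, le_add_iff_nonneg_right, zero_le, ↓reduceIte,
        List.take_left' hp, List.drop_left' hp]
      rw [act_sum]
      congr 1
      apply List.map_congr_left
      intro z hz
      rw [act_shift_of_length y z.2 r (length_of_mem_loc _ _ z hz)]
  | succ i ih =>
    obtain ⟨x', rfl, hx'⟩ : ∃ x' : Piece, x = x'.shift 1 ∧ x'.pos = i := by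
      cases x with
      | cup j u c => cases j with
        | zero => simp [Piece.pos] at hi
        | succ j => exact ⟨cup j u c, rfl, by simpa [Piece.pos] using hi⟩
      | cap j => cases j with
        | zero => simp [Piece.pos] at hi
        | succ j => exact ⟨cap j, rfl, by simpa [Piece.pos] using hi⟩
      | cr j o => cases j with
        | zero => simp [Piece.pos] at hi
        | succ j => exact ⟨cr j o, rfl, by simpa [Piece.pos] using hi⟩
      | merge j c l => cases j with
        | zero => simp [Piece.pos] at hi
        | succ j => exact ⟨merge j c l, rfl, by simpa [Piece.pos] using hi⟩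
      | split j c l => cases j with
        | zero => simp [Piece.pos] at hi
        | succ j => exact ⟨split j c l, rfl, by simpa [Piece.pos] using hi⟩
    obtain ⟨y', rfl⟩ : ∃ y' : Piece, y = y'.shift 1 := by
      rw [hi] at h
      cases y with
      | cup j u c => cases j with
        | zero => simp [Piece.pos] at h
        | succ j => exact ⟨cup j u c, rfl⟩
      | cap j => cases j with
        | zero => simp [Piece.pos] at h
        | succ j => exact ⟨cap j, rfl⟩
      | cr j o => cases j with
        | zero => simp [Piece.pos] at h
        | succ j => exact ⟨cr j o, rfl⟩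
      | merge j c l => cases j with
        | zero => simp [Piece.pos] at h
        | succ j => exact ⟨merge j c l, rfl⟩
      | split j c l => cases j with
        | zero => simp [Piece.pos] at h
        | succ j => exact ⟨split j c l, rfl⟩
    have e : ∀ n, (y'.shift 1).shift n = (y'.shift n).shift 1 := fun n => by
      rw [shift_shift, shift_shift, Nat.add_comm]
    rw [inn_shift, out_shift, e, e]
    match s with
    | [] => rw [act_shift_one_nil, act_shift_one_nil]
    | c :: s =>
      rw [act_shift_one_cons, act_shift_one_cons]
      simp only [act_shift_one_cons]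
      exact ih x' y' (by rw [pos_shift', pos_shift'] at h; omega) s (fun t => K (c :: t)) hx'

/-! ### The action of the pieces at the position zero -/

theorem act_cr0 (o : Bool) (x y : CS d) (r : List (CS d)) (K : Cont d) :
    act a (cr 0 o) (x :: y :: r) K = cf a o x y * K (y :: x :: r) := by
  change base a (cr 0 o) (x :: y :: r) K = _
  unfold base
  simp [Piece.inn, loc]

theorem act_cup0 (u : Bool) (k : ℕ) (r : List (CS d)) (K : Cont d) :
    act a (cup 0 u k) r K = ∑ S ∈ Finset.powersetCard k (Finset.univ : Finset (Fin d)),
      (if u then 1 else kap d (a ^ d) k) * K (CS.web u S :: CS.web (!u) S :: r) := by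
  change base a (cup 0 u k) r K = _
  unfold base
  simp only [Piece.inn, Nat.zero_le, ↓reduceIte, loc, List.map_map, List.drop_zero]
  exact Finset.sum_map_toList _ _

theorem act_cap0 (u : Bool) (S T : Finset (Fin d)) (r : List (CS d)) (K : Cont d) :
    act a (cap 0) (CS.web u S :: CS.web (!u) T :: r) K =
      if S = T then (if u then kap d (a ^ d) S.card else 1) * K r else 0 := by
  change base a (cap 0) (CS.web u S :: CS.web (!u) T :: r) K = _
  unfold base
  simp only [Piece.inn, List.length_cons, Nat.le_add_left, ↓reduceIte, loc, List.take_succ_cons,
    List.take_zero, List.drop_succ_cons, List.drop_zero, locCap]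
  by_cases h : S = T
  · simp [h]
  · simp [h]

theorem act_merge0 {k l : ℕ} (S T : Finset (Fin d)) (hS : S.card = k) (hT : T.card = l)
    (r : List (CS d)) (K : Cont d) :
    act a (merge 0 k l) (CS.web true S :: CS.web true T :: r) K =
      if Disjoint S T then eps (a ^ d) S T *
        K ((if vis d (k + l) = 1 then [CS.web true (S ∪ T)] else []) ++ r) else 0 := by
  change base a (merge 0 k l) (CS.web true S :: CS.web true T :: r) K = _
  unfold base
  simp only [Piece.inn, List.length_cons, Nat.le_add_left, ↓reduceIte, loc, List.take_succ_cons,
    List.take_zero, List.drop_succ_cons, List.drop_zero, locMerge]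
  by_cases h : Disjoint S T
  · simp [h, hS, hT]
  · simp [h]

theorem act_split0 {k l : ℕ} (h : vis d (k + l) = 1) (U : Finset (Fin d)) (hU : U.card = k + l)
    (r : List (CS d)) (K : Cont d) :
    act a (split 0 k l) (CS.web true U :: r) K = ∑ S ∈ Finset.powersetCard k U,
      (a ^ d) ^ (k * l) * eps (a ^ d) S (U \ S) *
        K (CS.web true S :: CS.web true (U \ S) :: r) := by
  change base a (split 0 k l) (CS.web true U :: r) K = _
  unfold base
  simp only [Piece.inn, h, List.length_cons, Nat.le_add_left, ↓reduceIte, loc,
    List.take_succ_cons, List.take_zero, List.drop_succ_cons, List.drop_zero, locSplit, hU,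
    List.map_map]
  exact Finset.sum_map_toList _ _

theorem act_split0_tag {k l : ℕ} (h : k + l = d) (r : List (CS d)) (K : Cont d) :
    act a (split 0 k l) r K = ∑ S ∈ Finset.powersetCard k (Finset.univ : Finset (Fin d)),
      (a ^ d) ^ (k * l) * eps (a ^ d) S (Finset.univ \ S) *
        K (CS.web true S :: CS.web true (Finset.univ \ S) :: r) := by
  have hv : vis d (k + l) = 0 := by rw [h]; simp [vis]
  change base a (split 0 k l) r K = _
  unfold base
  simp only [Piece.inn, hv, Nat.zero_le, ↓reduceIte, loc, List.take_zero, List.drop_zero,
    locSplit]
  rw [if_pos h, List.map_map]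
  exact Finset.sum_map_toList _ _

end Pool.Agent.Helper26.SK.G
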