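import Pool.Agent.Helper26.SK.G.QB

/-! This file is the work of helper19. -/

/-!
# Block GS1: bigons, loops, associativity and tags, for general `d`
-/

namespace Pool.Agent.Helper26.SK.G

open Str Piece

variable {d : ℕ} {a : ℂ}

theorem gs_pow_parity {q : ℂ} (hq : q ^ 2 = 1) {m n : ℕ} (h : m % 2 = n % 2) : q ^ m = q ^ n := by
  rw [← Nat.div_add_mod m 2, ← Nat.div_add_mod n 2, pow_add, pow_add, pow_mul, pow_mul, hq,
    one_pow, one_pow, h]

theorem gs_sp_eq {i k l : ℕ} (hk : 0 < k) (hl : 0 < l) : sp i k l = [split i k l] := by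
  unfold sp; rw [if_neg (by omega)]

theorem gs_mg_eq {i k l : ℕ} (hk : 0 < k) (hl : 0 < l) : mg i k l = [merge i k l] := by
  unfold mg; rw [if_neg (by omega)]

theorem gs_ell_add {S T : Finset (Fin d)} (h : Disjoint S T) :
    ell S T + ell T S = S.card * T.card := by
  have h1 : (S ×ˢ T).card = ((S ×ˢ T).filter fun p => p.1 < p.2).card +
      ((S ×ˢ T).filter fun p => ¬ p.1 < p.2).card :=
    (Finset.card_filter_add_card_filter_not _).symm
  have h2 : ((S ×ˢ T).filter fun p => ¬ p.1 < p.2).card = ell T S := by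
    unfold ell
    apply Finset.card_nbij' (fun p => (p.2, p.1)) (fun p => (p.2, p.1))
    · intro p hp
      simp only [Finset.coe_filter, Finset.mem_product, Set.mem_ofPred_eq] at hp ⊢
      refine ⟨⟨hp.1.2, hp.1.1⟩, lt_of_le_of_ne (not_lt.1 hp.2) ?_⟩
      intro he
      exact Finset.disjoint_left.1 h hp.1.1 (he ▸ hp.1.2)
    · intro p hp
      simp only [Finset.coe_filter, Finset.mem_product, Set.mem_ofPred_eq] at hp ⊢
      exact ⟨⟨hp.1.2, hp.1.1⟩, not_lt.2 hp.2.le⟩
    · intro p _; rfl
    · intro p _; rfl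
  rw [Finset.card_product] at h1
  rw [h1, h2]
  rfl

theorem gs_eps_swap {q : ℂ} (hq : q ^ 2 = 1) {S T : Finset (Fin d)} (h : Disjoint S T) :
    eps q S T = (-q) ^ (S.card * T.card) * eps q T S := by
  have h1 : eps q S T * eps q T S = (-q) ^ (S.card * T.card) := by
    unfold eps
    rw [← pow_add, gs_ell_add h]
  rw [← h1, mul_assoc, eps_mul_self hq, mul_one]

theorem sk_digon (ha : a ≠ 0) (hd : (a ^ d) ^ 2 = 1) (hQ : QB (a ^ d)) {k l : ℕ}
    (h : 0 < k ∧ 0 < l ∧ k + l ≤ d) :
    SkEq (d := d) a (lab d (k + l)) [(1, [split 0 k l, merge 0 k l])]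
      [(qbin (a ^ d) (k + l : ℕ) k, [])] := by
  intro cs hcs B K
  obtain ⟨U, hU, rfl⟩ := exists_vs h.2.2 hcs
  have e : [split 0 k l, merge 0 k l] = sp 0 k l ++ mg 0 k l := by
    rw [gs_sp_eq h.1 h.2.1, gs_mg_eq h.1 h.2.1]; rfl
  simp only [List.map_cons, List.map_nil, List.sum_cons, List.sum_nil, one_mul, add_zero]
  rw [e, actW_append, actW_sp hU]
  have h1 : ∀ S ∈ Finset.powersetCard k U,
      (a ^ d) ^ (k * l) * eps (a ^ d) S (U \ S) *
        actW a (mg 0 k l) (vs S ++ (vs (U \ S) ++ B)) K = (a ^ d) ^ (k * l) * K (vs U ++ B) := by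
    intro S hS
    rw [Finset.mem_powersetCard] at hS
    rw [actW_mg hS.2 (by rw [Finset.card_sdiff_of_subset hS.1]; omega) h.2.2,
      if_pos Finset.disjoint_sdiff, Finset.union_sdiff_of_subset hS.1]
    linear_combination ((a ^ d) ^ (k * l) * K (vs U ++ B)) * eps_mul_self hd S (U \ S)
  rw [Finset.sum_congr rfl h1, Finset.sum_const, Finset.card_powersetCard, hU, hQ]
  have h2 : (a ^ d) ^ (k * (((k + l : ℕ) : ℤ).natAbs + k)) = (a ^ d) ^ (k * l) := by
    apply gs_pow_parity hd
    rw [Int.natAbs_natCast]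
    have : k * (k + l + k) = k * l + 2 * (k * k) := by ring
    omega
  rw [h2, Ring.choose_natCast]
  change _ = _ * K (vs U ++ B)
  simp only [nsmul_eq_mul]
  push_cast
  ring

/-- Local minima at the position of a coloured strand. -/
theorem gs_cup_at {n l : ℕ} {A : List (CS d)} (hA : A.length = n) (u : Bool) (B : List (CS d))
    (K : Cont d) :
    actW a [cup n u l] (A ++ B) K = ∑ T ∈ Finset.powersetCard l (Finset.univ : Finset (Fin d)),
      (if u then 1 else kap d (a ^ d) l) * K (A ++ (CS.web u T :: CS.web (!u) T :: B)) := by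
  have : [cup n u l] = [cup 0 u l].map (shift A.length) := by
    rw [hA]; simp [shift]
  rw [this, actW_shift]
  change act a (cup 0 u l) B _ = _
  rw [act_cup0]
  rfl

/-- Local maxima at the position of a coloured strand. -/
theorem gs_cap_at {n : ℕ} {A : List (CS d)} (hA : A.length = n) (u : Bool)
    (S T : Finset (Fin d)) (B : List (CS d)) (K : Cont d) :
    actW a [cap n] (A ++ (CS.web u S :: CS.web (!u) T :: B)) K =
      if S = T then (if u then kap d (a ^ d) S.card else 1) * K (A ++ B) else 0 := by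
  have : [cap n] = [cap 0].map (shift A.length) := by
    rw [hA]; simp [shift]
  rw [this, actW_shift]
  change act a (cap 0) _ _ = _
  rw [act_cap0]
  rfl

/-- Mergings at the position of a coloured strand. -/
theorem gs_mg_at {n k l : ℕ} {A : List (CS d)} (hA : A.length = n) {S T : Finset (Fin d)}
    (hS : S.card = k) (hT : T.card = l) (hkl : k + l ≤ d) (R : List (CS d)) (K : Cont d) :
    actW a (mg n k l) (A ++ (vs S ++ (vs T ++ R))) K =
      if Disjoint S T then eps (a ^ d) S T * K (A ++ (vs (S ∪ T) ++ R)) else 0 := by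
  have : mg n k l = (mg 0 k l).map (shift A.length) := by
    rw [mg_shift, hA, Nat.zero_add]
  rw [this, actW_shift, actW_mg hS hT hkl]

/-- Splittings at the position of a coloured strand. -/
theorem gs_sp_at {n k l : ℕ} {A : List (CS d)} (hA : A.length = n) {U : Finset (Fin d)}
    (hU : U.card = k + l) (R : List (CS d)) (K : Cont d) :
    actW a (sp n k l) (A ++ (vs U ++ R)) K = ∑ S ∈ Finset.powersetCard k U,
      (a ^ d) ^ (k * l) * eps (a ^ d) S (U \ S) * K (A ++ (vs S ++ (vs (U \ S) ++ R))) := by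
  have : sp n k l = (sp 0 k l).map (shift A.length) := by
    rw [sp_shift, hA, Nat.zero_add]
  rw [this, actW_shift, actW_sp hU]

theorem gs_filter_disjoint (S : Finset (Fin d)) (l : ℕ) :
    (Finset.powersetCard l (Finset.univ : Finset (Fin d))).filter (fun T => Disjoint S T) =
      Finset.powersetCard l (Finset.univ \ S) := by
  ext T
  simp only [Finset.mem_filter, Finset.mem_powersetCard, Finset.subset_sdiff]
  constructor
  · rintro ⟨⟨h1, h2⟩, h3⟩; exact ⟨⟨h1, h3.symm⟩, h2⟩
  · rintro ⟨⟨h1, h3⟩, h2⟩; exact ⟨⟨h1, h2⟩, h3.symm⟩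

/-- The common value of the two loop relations. -/
theorem gs_loop_value (hd : (a ^ d) ^ 2 = 1) (hQ : QB (a ^ d)) {k l : ℕ} (h : k + l ≤ d)
    {S : Finset (Fin d)} (hS : S.card = k) (x : ℂ) :
    ∑ T ∈ Finset.powersetCard l (Finset.univ : Finset (Fin d)),
      (if Disjoint S T then (a ^ d) ^ (k * l) * kap d (a ^ d) l * x else 0) =
      qbin (a ^ d) (d - k : ℕ) l * x := by
  rw [← Finset.sum_filter, gs_filter_disjoint, Finset.sum_const, Finset.card_powersetCard,
    Finset.card_sdiff_of_subset (Finset.subset_univ S), Finset.card_univ, Fintype.card_fin, hS,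
    hQ, Ring.choose_natCast]
  have h2 : (a ^ d) ^ (l * (((d - k : ℕ) : ℤ).natAbs + l)) =
      (a ^ d) ^ (k * l) * kap d (a ^ d) l := by
    unfold kap
    rw [← pow_add]
    apply gs_pow_parity hd
    rw [Int.natAbs_natCast]
    obtain ⟨m, rfl⟩ : ∃ m, d = k + m := ⟨d - k, by omega⟩
    rw [Nat.add_sub_cancel_left]
    have e1 : k * l + (k + m + 1) * l = l * m + l + 2 * (k * l) := by ring
    have e2 : l * (m + l) = l * m + l * l := by ring
    have e3 : (l * l) % 2 = l % 2 := by
      rcases Nat.mod_two_eq_zero_or_one l with h | h <;> simp [Nat.mul_mod, h]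
    omega
  rw [h2]
  simp only [nsmul_eq_mul]
  push_cast
  ring

theorem sk_loopR (ha : a ≠ 0) (hd : (a ^ d) ^ 2 = 1) (hQ : QB (a ^ d)) {k l : ℕ}
    (h : 0 < l ∧ l < d ∧ k + l ≤ d) :
    SkEq (d := d) a (lab d k)
      [(1, [cup (vis d k) true l] ++ mg 0 k l ++ sp 0 k l ++ [cap (vis d k)])]
      [(qbin (a ^ d) (d - k : ℕ) l, [])] := by
  intro cs hcs B K
  obtain ⟨S, hS, rfl⟩ := exists_vs (by omega) hcs
  simp only [List.map_cons, List.map_nil, List.sum_cons, List.sum_nil, one_mul, add_zero]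
  rw [actW_append, actW_append, actW_append, gs_cup_at (by rw [length_vs, hS])]
  change _ = _ * K (vs S ++ B)
  rw [← gs_loop_value hd hQ h.2.2 hS (K (vs S ++ B))]
  apply Finset.sum_congr rfl
  intro T hT
  rw [Finset.mem_powersetCard] at hT
  have hTc := hT.2
  have e1 : vs S ++ (CS.web true T :: CS.web (!true) T :: B) =
      vs S ++ (vs T ++ (CS.web false T :: B)) := by
    rw [vs_of (S := T) (by omega)]; rfl
  rw [e1, actW_mg hS hTc h.2.2]
  by_cases hdj : Disjoint S T
  · rw [if_pos hdj, if_pos hdj, actW_sp (by rw [Finset.card_union_of_disjoint hdj, hS, hTc])]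
    have hSU : S ∈ Finset.powersetCard k (S ∪ T) :=
      Finset.mem_powersetCard.2 ⟨Finset.subset_union_left, hS⟩
    rw [Finset.sum_eq_single_of_mem S hSU]
    · have e2 : (S ∪ T) \ S = T := by
        rw [Finset.union_sdiff_left]; exact Finset.sdiff_eq_self_of_disjoint hdj.symm
      have e3 : vs S ++ (vs ((S ∪ T) \ S) ++ (CS.web false T :: B)) =
          vs S ++ (CS.web true T :: CS.web (!true) T :: B) := by
        rw [e2, vs_of (S := T) (by omega)]; rfl
      rw [e3, gs_cap_at (by rw [length_vs, hS]), if_pos rfl, e2, hTc]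
      simp only [if_true]
      linear_combination ((a ^ d) ^ (k * l) * kap d (a ^ d) l * K (vs S ++ B)) *
        eps_mul_self hd S T
    · intro S' hS' hne
      rw [Finset.mem_powersetCard] at hS'
      have hc : ((S ∪ T) \ S').card = l := by
        rw [Finset.card_sdiff_of_subset hS'.1, Finset.card_union_of_disjoint hdj]; omega
      have e3 : vs S' ++ (vs ((S ∪ T) \ S') ++ (CS.web false T :: B)) =
          vs S' ++ (CS.web true ((S ∪ T) \ S') :: CS.web (!true) T :: B) := by
        rw [vs_of (S := (S ∪ T) \ S') (by omega)]; rfl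
      rw [e3, gs_cap_at (by rw [length_vs, hS'.2]), if_neg, mul_zero]
      intro he
      apply hne
      have e4 : S' = (S ∪ T) \ T := by
        rw [← Finset.sdiff_sdiff_eq_self hS'.1, he]
      rw [e4, Finset.union_sdiff_right]
      exact Finset.sdiff_eq_self_of_disjoint hdj
  · rw [if_neg hdj, if_neg hdj, mul_zero]

theorem sk_loopL (ha : a ≠ 0) (hd : (a ^ d) ^ 2 = 1) (hQ : QB (a ^ d)) {k l : ℕ}
    (h : 0 < l ∧ l < d ∧ k + l ≤ d) :
    SkEq (d := d) a (lab d k)
      [(1, [cup 0 false l] ++ mg 1 l k ++ sp 1 l k ++ [cap 0])]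
      [(qbin (a ^ d) (d - k : ℕ) l, [])] := by
  intro cs hcs B K
  obtain ⟨S, hS, rfl⟩ := exists_vs (by omega) hcs
  simp only [List.map_cons, List.map_nil, List.sum_cons, List.sum_nil, one_mul, add_zero]
  rw [actW_append, actW_append, actW_append]
  have e0 := gs_cup_at (a := a) (n := 0) (l := l) (A := []) rfl false (vs S ++ B)
  rw [List.nil_append] at e0
  rw [e0]
  change _ = _ * K (vs S ++ B)
  rw [← gs_loop_value hd hQ h.2.2 hS (K (vs S ++ B))]
  apply Finset.sum_congr rfl
  intro T hT
  rw [Finset.mem_powersetCard] at hT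
  have hTc := hT.2
  have e1 : [] ++ (CS.web false T :: CS.web (!false) T :: (vs S ++ B)) =
      [CS.web false T] ++ (vs T ++ (vs S ++ B)) := by
    rw [vs_of (S := T) (by omega)]; rfl
  rw [e1, gs_mg_at (n := 1) (A := [CS.web false T]) rfl hTc hS (by omega)]
  by_cases hdj : Disjoint S T
  · rw [if_pos hdj.symm, if_pos hdj, gs_sp_at (n := 1) (A := [CS.web false T]) rfl
      (by rw [Finset.card_union_of_disjoint hdj.symm, hS, hTc])]
    have hSU : T ∈ Finset.powersetCard l (T ∪ S) :=
      Finset.mem_powersetCard.2 ⟨Finset.subset_union_left, hTc⟩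
    rw [Finset.sum_eq_single_of_mem T hSU]
    · have e2 : (T ∪ S) \ T = S := by
        rw [Finset.union_sdiff_left]; exact Finset.sdiff_eq_self_of_disjoint hdj
      have e3 : [CS.web false T] ++ (vs T ++ (vs ((T ∪ S) \ T) ++ B)) =
          [] ++ (CS.web false T :: CS.web (!false) T :: (vs S ++ B)) := by
        rw [e2, vs_of (S := T) (by omega)]; rfl
      rw [e3, gs_cap_at (n := 0) rfl, if_pos rfl, e2]
      simp only [Bool.false_eq_true, if_false, List.nil_append, one_mul, Nat.mul_comm l k]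
      linear_combination ((a ^ d) ^ (k * l) * kap d (a ^ d) l * K (vs S ++ B)) *
        eps_mul_self hd T S
    · intro T' hT' hne
      rw [Finset.mem_powersetCard] at hT'
      have e3 : [CS.web false T] ++ (vs T' ++ (vs ((T ∪ S) \ T') ++ B)) =
          [] ++ (CS.web false T :: CS.web (!false) T' :: (vs ((T ∪ S) \ T') ++ B)) := by
        rw [vs_of (S := T') (by omega)]; rfl
      rw [e3, gs_cap_at (n := 0) rfl, if_neg (fun he => hne he.symm), mul_zero]
  · have hdj' : ¬ Disjoint T S := fun h' => hdj h'.symm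
    rw [if_neg hdj', if_neg hdj, mul_zero]

theorem sk_assocMerge (ha : a ≠ 0) (hd : (a ^ d) ^ 2 = 1) {k l j : ℕ}
    (h : 0 < k ∧ 0 < l ∧ 0 < j ∧ k + l + j ≤ d) :
    SkEq (d := d) a [web true k, web true l, web true j]
      [(1, [merge 0 k l, merge 0 (k + l) j])] [(1, [merge 1 l j, merge 0 k (l + j)])] := by
  intro cs hcs B K
  obtain ⟨S, T, V, hS, hT, hV, rfl⟩ : ∃ S T V : Finset (Fin d), S.card = k ∧ T.card = l ∧
      V.card = j ∧ cs = vs S ++ (vs T ++ vs V) := by
    have e : [web true k, web true l, web true j] = lab d k ++ (lab d l ++ lab d j) := by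
      rw [lab_of (k := k) (by omega), lab_of (k := l) (by omega), lab_of (k := j) (by omega)]
      rfl
    rw [e, List.map_eq_append_iff] at hcs
    obtain ⟨c1, c2, rfl, h1, h2⟩ := hcs
    rw [List.map_eq_append_iff] at h2
    obtain ⟨c2, c3, rfl, h2, h3⟩ := h2
    obtain ⟨S, hS, rfl⟩ := exists_vs (by omega) h1
    obtain ⟨T, hT, rfl⟩ := exists_vs (by omega) h2
    obtain ⟨V, hV, rfl⟩ := exists_vs (by omega) h3
    exact ⟨S, T, V, hS, hT, hV, rfl⟩
  have e : [merge 0 k l, merge 0 (k + l) j] = mg 0 k l ++ mg 0 (k + l) j := by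
    rw [gs_mg_eq h.1 h.2.1, gs_mg_eq (by omega) h.2.2.1]; rfl
  have e' : [merge 1 l j, merge 0 k (l + j)] = mg 1 l j ++ mg 0 k (l + j) := by
    rw [gs_mg_eq h.2.1 h.2.2.1, gs_mg_eq (by omega) (by omega)]; rfl
  simp only [List.map_cons, List.map_nil, List.sum_cons, List.sum_nil, one_mul, add_zero]
  rw [e, e', actW_append, actW_append, List.append_assoc, List.append_assoc,
    actW_mg hS hT (by omega)]
  have hv : (vs S).length = 1 := by rw [length_vs, hS, vis_of (by omega)]
  rw [gs_mg_at hv hT hV (by omega)]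
  by_cases h1 : Disjoint S T
  · rw [if_pos h1, actW_mg (by rw [Finset.card_union_of_disjoint h1, hS, hT]) hV h.2.2.2]
    by_cases h2 : Disjoint T V
    · rw [if_pos h2, actW_mg hS (by rw [Finset.card_union_of_disjoint h2, hT, hV]) (by omega)]
      by_cases h3 : Disjoint S V
      · rw [if_pos (Finset.disjoint_union_left.2 ⟨h3, h2⟩),
          if_pos (Finset.disjoint_union_right.2 ⟨h1, h3⟩), eps_union_left h1,
          eps_union_right h2, Finset.union_assoc]
        ring
      · rw [if_neg (fun h' => h3 (Finset.disjoint_union_left.1 h').1),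
          if_neg (fun h' => h3 (Finset.disjoint_union_right.1 h').2)]
        ring
    · rw [if_neg h2, if_neg (fun h' => h2 (Finset.disjoint_union_left.1 h').2), mul_zero]
  · rw [if_neg h1]
    by_cases h2 : Disjoint T V
    · rw [if_pos h2, actW_mg hS (by rw [Finset.card_union_of_disjoint h2, hT, hV]) (by omega),
        if_neg (fun h' => h1 (Finset.disjoint_union_right.1 h').1), mul_zero]
    · rw [if_neg h2]

theorem sk_assocSplit (ha : a ≠ 0) (hd : (a ^ d) ^ 2 = 1) {k l j : ℕ}
    (h : 0 < k ∧ 0 < l ∧ 0 < j ∧ k + l + j ≤ d) :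
    SkEq (d := d) a (lab d (k + l + j))
      [(1, [split 0 (k + l) j, split 0 k l])] [(1, [split 0 k (l + j), split 1 l j])] := by
  intro cs hcs B K
  obtain ⟨U, hU, rfl⟩ := exists_vs h.2.2.2 hcs
  have e : [split 0 (k + l) j, split 0 k l] = sp 0 (k + l) j ++ sp 0 k l := by
    rw [gs_sp_eq h.1 h.2.1, gs_sp_eq (by omega) h.2.2.1]; rfl
  have e' : [split 0 k (l + j), split 1 l j] = sp 0 k (l + j) ++ sp 1 l j := by
    rw [gs_sp_eq h.2.1 h.2.2.1, gs_sp_eq (by omega) (by omega)]; rfl
  simp only [List.map_cons, List.map_nil, List.sum_cons, List.sum_nil, one_mul, add_zero]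
  rw [e, e', actW_append, actW_append, actW_sp hU, actW_sp (by omega)]
  -- the value for a decomposition of `U`
  let f : Finset (Fin d) → Finset (Fin d) → ℂ := fun S T =>
    (a ^ d) ^ (k * l + k * j + l * j) * (eps (a ^ d) S T * eps (a ^ d) S (U \ (S ∪ T)) *
      eps (a ^ d) T (U \ (S ∪ T))) * K (vs S ++ (vs T ++ (vs (U \ (S ∪ T)) ++ B)))
  have hL : ∀ S₁ ∈ Finset.powersetCard (k + l) U,
      (a ^ d) ^ ((k + l) * j) * eps (a ^ d) S₁ (U \ S₁) *
        actW a (sp 0 k l) (vs S₁ ++ (vs (U \ S₁) ++ B)) K =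
      ∑ S ∈ Finset.powersetCard k S₁, f S (S₁ \ S) := by
    intro S₁ hS₁
    rw [Finset.mem_powersetCard] at hS₁
    rw [actW_sp hS₁.2, Finset.mul_sum]
    apply Finset.sum_congr rfl
    intro S hS
    rw [Finset.mem_powersetCard] at hS
    have h1 : S ∪ (S₁ \ S) = S₁ := Finset.union_sdiff_of_subset hS.1
    have h2 : eps (a ^ d) S₁ (U \ S₁) =
        eps (a ^ d) S (U \ S₁) * eps (a ^ d) (S₁ \ S) (U \ S₁) := by
      conv_lhs => rw [← h1]
      rw [eps_union_left Finset.disjoint_sdiff, h1]
    simp only [f]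
    rw [h1, h2]
    ring
  have hR : ∀ S ∈ Finset.powersetCard k U,
      (a ^ d) ^ (k * (l + j)) * eps (a ^ d) S (U \ S) *
        actW a (sp 1 l j) (vs S ++ (vs (U \ S) ++ B)) K =
      ∑ T ∈ Finset.powersetCard l (U \ S), f S T := by
    intro S hS
    rw [Finset.mem_powersetCard] at hS
    have hv : (vs S).length = 1 := by rw [length_vs, hS.2, vis_of (by omega)]
    rw [gs_sp_at hv (by rw [Finset.card_sdiff_of_subset hS.1]; omega), Finset.mul_sum]
    apply Finset.sum_congr rfl
    intro T hT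
    rw [Finset.mem_powersetCard] at hT
    have h1 : U \ (S ∪ T) = (U \ S) \ T := by
      rw [sdiff_sdiff_left]; rfl
    have h2 : eps (a ^ d) S (U \ S) =
        eps (a ^ d) S T * eps (a ^ d) S ((U \ S) \ T) := by
      conv_lhs => rw [← Finset.union_sdiff_of_subset hT.1]
      rw [eps_union_right Finset.disjoint_sdiff]
    simp only [f]
    rw [h1, h2]
    ring
  rw [Finset.sum_congr rfl hL, Finset.sum_congr rfl hR, Finset.sum_sigma', Finset.sum_sigma']
  refine Finset.sum_nbij' (fun x => ⟨x.2, x.1 \ x.2⟩) (fun x => ⟨x.1 ∪ x.2, x.1⟩) ?_ ?_ ?_ ?_ ?_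
  · rintro ⟨S₁, S⟩ hx
    simp only [Finset.mem_sigma, Finset.mem_powersetCard] at hx ⊢
    refine ⟨⟨hx.2.1.trans hx.1.1, hx.2.2⟩, Finset.sdiff_subset_sdiff hx.1.1 (le_refl _), ?_⟩
    rw [Finset.card_sdiff_of_subset hx.2.1]; omega
  · rintro ⟨S, T⟩ hx
    simp only [Finset.mem_sigma, Finset.mem_powersetCard, Finset.subset_sdiff] at hx ⊢
    refine ⟨⟨Finset.union_subset hx.1.1 hx.2.1.1, ?_⟩, Finset.subset_union_left, hx.1.2⟩
    rw [Finset.card_union_of_disjoint hx.2.1.2.symm]; omega
  · rintro ⟨S₁, S⟩ hx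
    simp only [Finset.mem_sigma, Finset.mem_powersetCard] at hx ⊢
    rw [Finset.union_sdiff_of_subset hx.2.1]
  · rintro ⟨S, T⟩ hx
    simp only [Finset.mem_sigma, Finset.mem_powersetCard, Finset.subset_sdiff] at hx ⊢
    rw [Finset.union_sdiff_cancel_left hx.2.1.2.symm]
  · rintro ⟨S₁, S⟩ _
    rfl

/-- The comparison of the two sides of a tag. -/
theorem gs_tag {q : ℂ} (hq : q ^ 2 = 1) {k l : ℕ} (hkl : k + l = d) {S T : Finset (Fin d)}
    (hS : S.card = k) (hT : T.card = l) (h : Disjoint S T) :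
    kap d q k * eps q S T = (-1) ^ (k * l) * eps q T S := by
  have h1 : kap d q k * q ^ (k * l) = 1 := by
    unfold kap
    rw [← pow_add]
    have e1 : (d + 1) * k + k * l = k * (k + 1) + 2 * (k * l) := by
      rw [← hkl]; ring
    have e2 : (k * (k + 1)) % 2 = 0 := Nat.even_iff.1 (Nat.even_mul_succ_self k)
    have e3 : ((d + 1) * k + k * l) % 2 = 0 % 2 := by omega
    rw [gs_pow_parity hq e3, pow_zero]
  rw [gs_eps_swap hq h, hS, hT, neg_pow]
  linear_combination ((-1) ^ (k * l) * eps q T S) * h1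

theorem gs_compl_of_card {k l : ℕ} (hkl : k + l = d) {S T : Finset (Fin d)} (hS : S.card = k)
    (hT : T.card = l) (h : Disjoint S T) : S = Finset.univ \ T := by
  apply Finset.eq_of_subset_of_card_le
  · exact Finset.subset_sdiff.2 ⟨Finset.subset_univ _, h⟩
  · rw [Finset.card_sdiff_of_subset (Finset.subset_univ T), Finset.card_univ, Fintype.card_fin]
    omega

theorem sk_tagMerge (ha : a ≠ 0) (hd : (a ^ d) ^ 2 = 1) {k l : ℕ}
    (h : 0 < k ∧ 0 < l ∧ k + l = d) :
    SkEq (d := d) a [web true l]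
      [(1, [cup 0 false k, merge 1 k l])] [((-1) ^ (k * l), [cup 1 true k, merge 0 l k])] := by
  intro cs hcs B K
  have e : [web true l] = lab d l := by rw [lab_of (by omega)]
  rw [e] at hcs
  obtain ⟨T, hT, rfl⟩ := exists_vs (by omega) hcs
  simp only [List.map_cons, List.map_nil, List.sum_cons, List.sum_nil, one_mul, add_zero]
  have e1 : [cup 0 false k, merge 1 k l] = [cup 0 false k] ++ mg 1 k l := by
    rw [gs_mg_eq h.1 h.2.1]; rfl
  have e2 : [cup 1 true k, merge 0 l k] = [cup 1 true k] ++ mg 0 l k := by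
    rw [gs_mg_eq h.2.1 h.1]; rfl
  have hv : (vs T).length = 1 := by rw [length_vs, hT, vis_of (by omega)]
  have e0 := gs_cup_at (a := a) (n := 0) (l := k) (A := []) rfl false (vs T ++ B)
  rw [List.nil_append] at e0
  rw [e1, e2, actW_append, actW_append, e0, gs_cup_at hv, Finset.mul_sum]
  apply Finset.sum_congr rfl
  intro S hS
  rw [Finset.mem_powersetCard] at hS
  have e3 : [] ++ (CS.web false S :: CS.web (!false) S :: (vs T ++ B)) =
      [CS.web false S] ++ (vs S ++ (vs T ++ B)) := by
    rw [vs_of (S := S) (by omega)]; rfl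
  have e4 : vs T ++ (CS.web true S :: CS.web (!true) S :: B) =
      vs T ++ (vs S ++ (CS.web false S :: B)) := by
    rw [vs_of (S := S) (by omega)]; rfl
  rw [e3, e4, gs_mg_at (n := 1) (A := [CS.web false S]) rfl hS.2 hT (by omega),
    actW_mg hT hS.2 (by omega)]
  by_cases hdj : Disjoint S T
  · rw [if_pos hdj, if_pos hdj.symm, Finset.union_comm T S]
    have hU : vs (S ∪ T) = [] := by
      apply vs_nil
      rw [Finset.card_union_of_disjoint hdj]
      omega
    rw [hU]
    simp only [Bool.false_eq_true, if_false, if_true, List.nil_append, one_mul,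
      List.singleton_append]
    linear_combination (K (CS.web false S :: B)) * gs_tag hd h.2.2 hS.2 hT hdj
  · have hdj' : ¬ Disjoint T S := fun h' => hdj h'.symm
    rw [if_neg hdj, if_neg hdj']
    ring

theorem sk_tagSplit (ha : a ≠ 0) (hd : (a ^ d) ^ 2 = 1) {k l : ℕ}
    (h : 0 < k ∧ 0 < l ∧ k + l = d) :
    SkEq (d := d) a [web false k]
      [(1, [split 1 k l, cap 0])] [((-1) ^ (k * l), [split 0 l k, cap 1])] := by
  intro cs hcs B K
  obtain ⟨S, hS, rfl⟩ : ∃ S : Finset (Fin d), S.card = k ∧ cs = [CS.web false S] := by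
    match cs with
    | [] => simp at hcs
    | [.pole x hx] => simp [ty] at hcs
    | [.web u S] =>
      simp only [List.map_cons, List.map_nil, ty, List.cons.injEq, Str.web.injEq,
        and_true] at hcs
      obtain ⟨rfl, rfl⟩ := hcs
      exact ⟨S, rfl, rfl⟩
    | _ :: _ :: _ => simp at hcs
  simp only [List.map_cons, List.map_nil, List.sum_cons, List.sum_nil, one_mul, add_zero]
  have e1 : [split 1 k l, cap 0] = sp 1 k l ++ [cap 0] := by
    rw [gs_sp_eq h.1 h.2.1]; rfl
  have e2 : [split 0 l k, cap 1] = sp 0 l k ++ [cap 1] := by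
    rw [gs_sp_eq h.2.1 h.1]; rfl
  have hu : (Finset.univ : Finset (Fin d)).card = d := by simp
  have hvu : vs (Finset.univ : Finset (Fin d)) = [] := vs_nil (by omega)
  have e3 : [CS.web false S] ++ B =
      [CS.web false S] ++ (vs (Finset.univ : Finset (Fin d)) ++ B) := by rw [hvu]; rfl
  have e4 : [CS.web false S] ++ B =
      vs (Finset.univ : Finset (Fin d)) ++ ([CS.web false S] ++ B) := by rw [hvu]; rfl
  have hL : actW a ([split 1 k l, cap 0]) ([CS.web false S] ++ B) K =
      (a ^ d) ^ (k * l) * eps (a ^ d) S (Finset.univ \ S) *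
        K (vs (Finset.univ \ S) ++ B) := by
    rw [e1, actW_append, e3, gs_sp_at (n := 1) (A := [CS.web false S]) rfl (by omega)]
    have hm : S ∈ Finset.powersetCard k (Finset.univ : Finset (Fin d)) :=
      Finset.mem_powersetCard.2 ⟨Finset.subset_univ _, hS⟩
    rw [Finset.sum_eq_single_of_mem S hm]
    · have e5 : [CS.web false S] ++ (vs S ++ (vs (Finset.univ \ S) ++ B)) =
          [] ++ (CS.web false S :: CS.web (!false) S :: (vs (Finset.univ \ S) ++ B)) := by
        rw [vs_of (S := S) (by omega)]; rfl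
      rw [e5, gs_cap_at (n := 0) rfl, if_pos rfl]
      simp only [Bool.false_eq_true, if_false, List.nil_append, one_mul]
    · intro T hT hne
      rw [Finset.mem_powersetCard] at hT
      have e5 : [CS.web false S] ++ (vs T ++ (vs (Finset.univ \ T) ++ B)) =
          [] ++ (CS.web false S :: CS.web (!false) T :: (vs (Finset.univ \ T) ++ B)) := by
        rw [vs_of (S := T) (by omega)]; rfl
      rw [e5, gs_cap_at (n := 0) rfl, if_neg (fun he => hne he.symm), mul_zero]
  have hSc : (Finset.univ \ S).card = l := by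
    rw [Finset.card_sdiff_of_subset (Finset.subset_univ S), hu]; omega
  have hSS : Finset.univ \ (Finset.univ \ S) = S :=
    Finset.sdiff_sdiff_eq_self (Finset.subset_univ S)
  have hR : actW a ([split 0 l k, cap 1]) ([CS.web false S] ++ B) K =
      (a ^ d) ^ (l * k) * eps (a ^ d) (Finset.univ \ S) S * kap d (a ^ d) k *
        K (vs (Finset.univ \ S) ++ B) := by
    rw [e2, actW_append, e4, actW_sp (by omega)]
    have hm : Finset.univ \ S ∈ Finset.powersetCard l (Finset.univ : Finset (Fin d)) :=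
      Finset.mem_powersetCard.2 ⟨Finset.subset_univ _, hSc⟩
    rw [Finset.sum_eq_single_of_mem _ hm]
    · have hv : (vs (Finset.univ \ S)).length = 1 := by
        rw [length_vs, hSc, vis_of (by omega)]
      have e5 : vs (Finset.univ \ S) ++ (vs (Finset.univ \ (Finset.univ \ S)) ++
          ([CS.web false S] ++ B)) =
          vs (Finset.univ \ S) ++ (CS.web true S :: CS.web (!true) S :: B) := by
        rw [hSS, vs_of (S := S) (by omega)]; rfl
      rw [e5, gs_cap_at hv, if_pos rfl, hSS, hS]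
      simp only [if_true]
      ring
    · intro T hT hne
      rw [Finset.mem_powersetCard] at hT
      have hTc : (Finset.univ \ T).card = k := by
        rw [Finset.card_sdiff_of_subset (Finset.subset_univ T), hu]; omega
      have hv : (vs T).length = 1 := by
        rw [length_vs, hT.2, vis_of (by omega)]
      have e5 : vs T ++ (vs (Finset.univ \ T) ++ ([CS.web false S] ++ B)) =
          vs T ++ (CS.web true (Finset.univ \ T) :: CS.web (!true) S :: B) := by
        rw [vs_of (S := Finset.univ \ T) (by omega)]; rfl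
      rw [e5, gs_cap_at hv, if_neg, mul_zero]
      intro he
      apply hne
      rw [← he]
      exact (Finset.sdiff_sdiff_eq_self (Finset.subset_univ T)).symm
  rw [hL, hR]
  have ht := gs_tag hd h.2.2 hS hSc Finset.disjoint_sdiff
  have hk1 : kap d (a ^ d) k * kap d (a ^ d) k = 1 := by
    unfold kap
    rw [← mul_pow, ← pow_two, hd, one_pow]
  have hm1 : ((-1 : ℂ)) ^ (k * l) * (-1) ^ (k * l) = 1 := by
    rw [← mul_pow]; norm_num
  rw [Nat.mul_comm l k]
  have key : eps (a ^ d) S (Finset.univ \ S) =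
      (-1) ^ (k * l) * eps (a ^ d) (Finset.univ \ S) S * kap d (a ^ d) k := by
    linear_combination (kap d (a ^ d) k) * ht - (eps (a ^ d) S (Finset.univ \ S)) * hk1
  rw [key]
  ring

end Pool.Agent.Helper26.SK.G
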