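import Pool.Agent.Helper26.SK.G.Defs

/-! This file is the work of helper81. -/

/-!
# MP_05e0c2_gt, block GM1: isotopy invariance of the evaluation for general `d`, moves without
vertices (helper81, after helper14's proof for `d = 3`)
-/

namespace Pool.Agent.Helper26.SK.G

open Str Piece

variable {d : ℕ} {a : ℂ}

/-- The moves without vertices. -/
inductive Plain (d : ℕ) : List Piece → List Piece → Prop
  | far (x y : Piece) (h : x.pos ≤ y.pos) : Plain d [x, y.shift (x.out d)] [y.shift (x.inn d), x]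
  | zigR (i : ℕ) (u : Bool) (k : ℕ) : Plain d [cup i u k, cap (i + 1)] []
  | zigL (i : ℕ) (u : Bool) (k : ℕ) : Plain d [cup (i + 1) u k, cap i] []
  | slideCup (i : ℕ) (u : Bool) (k : ℕ) (o : Bool) :
      Plain d [cup i u k, cr (i + 1) o] [cup (i + 1) u k, cr i (!o)]
  | slideCap (i : ℕ) (o : Bool) : Plain d [cr i o, cap (i + 1)] [cr (i + 1) (!o), cap i]
  | r2 (i : ℕ) (o : Bool) : Plain d [cr i o, cr i (!o)] []
  | r3 (i : ℕ) (o₁ o₂ o₃ : Bool) :
      Plain d [cr i o₁, cr (i + 1) o₂, cr i o₃] [cr (i + 1) o₃, cr i o₂, cr (i + 1) o₁]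
  | curl (i : ℕ) (u : Bool) (k : ℕ) (o : Bool) :
      Plain d [cup (i + 1) u k, cr i o, cap (i + 1)] [cup i (!u) k, cr (i + 1) o, cap i]

namespace GM1

theorem step_cup_inv {i : ℕ} {u : Bool} {c : ℕ} {s t : List Str} (h : Step d (cup i u c) s t) :
    ∃ A B, A.length = i ∧ s = A ++ B ∧ t = A ++ [web u c, web (!u) c] ++ B := by
  generalize hp : cup i u c = p at h
  cases h with
  | cup A B u' k' h =>
    simp only [Piece.cup.injEq] at hp
    obtain ⟨hA, rfl, rfl⟩ := hp
    exact ⟨A, B, hA.symm, rfl, rfl⟩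
  | _ => simp at hp

theorem step_cap_inv {i : ℕ} {s t : List Str} (h : Step d (cap i) s t) :
    ∃ A B u c, A.length = i ∧ s = A ++ [web u c, web (!u) c] ++ B ∧ t = A ++ B := by
  generalize hp : cap i = p at h
  cases h with
  | cap A B u' k' =>
    simp only [Piece.cap.injEq] at hp
    exact ⟨A, B, u', k', hp.symm, rfl, rfl⟩
  | _ => simp at hp

theorem step_cr_inv {i : ℕ} {o : Bool} {s t : List Str} (h : Step d (cr i o) s t) :
    ∃ A B x y, A.length = i ∧ ¬ (x = pole ∧ y = pole) ∧ s = A ++ [x, y] ++ B ∧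
      t = A ++ [y, x] ++ B := by
  generalize hp : cr i o = p at h
  cases h with
  | cr A B x y o' h =>
    simp only [Piece.cr.injEq] at hp
    exact ⟨A, B, x, y, hp.1.symm, h, rfl, rfl⟩
  | _ => simp at hp

theorem red (D0 E0 : List Piece) (cA c0 : List (CS d)) (K : Cont d)
    (h : ∀ K, actW a D0 c0 K = actW a E0 c0 K) :
    actW a (D0.map (shift cA.length)) (cA ++ c0) K =
      actW a (E0.map (shift cA.length)) (cA ++ c0) K := by
  rw [actW_shift, actW_shift, h]

theorem act_cr1 (o : Bool) (w x y : CS d) (r : List (CS d)) (K : Cont d) :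
    act a (cr 1 o) (w :: x :: y :: r) K = cf a o x y * K (w :: y :: x :: r) :=
  act_cr0 (a := a) o x y r (fun t => K (w :: t))

/-- The weight of a minimum. -/
noncomputable def cupw (d : ℕ) (a : ℂ) (u : Bool) (k : ℕ) : ℂ := if u then 1 else kap d (a ^ d) k

/-- The weight of a maximum. -/
noncomputable def capw (d : ℕ) (a : ℂ) (u : Bool) (k : ℕ) : ℂ := if u then kap d (a ^ d) k else 1

theorem kap_sq (hd : (a ^ d) ^ 2 = 1) (k : ℕ) : kap d (a ^ d) k * kap d (a ^ d) k = 1 := by
  unfold kap
  rw [← pow_add, ← two_mul, pow_mul, hd, one_pow]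

theorem cupw_capw_not (hd : (a ^ d) ^ 2 = 1) (u : Bool) (k : ℕ) :
    cupw d a u k * capw d a (!u) k = 1 := by
  cases u
  · simpa [cupw, capw] using kap_sq hd k
  · simp [cupw, capw]

theorem cupw_capw (u : Bool) (k : ℕ) : cupw d a u k * capw d a u k = kap d (a ^ d) k := by
  cases u <;> simp [cupw, capw]

theorem act_cup0' (u : Bool) (k : ℕ) (r : List (CS d)) (K : Cont d) :
    act a (cup 0 u k) r K = ∑ S ∈ Finset.powersetCard k (Finset.univ : Finset (Fin d)),
      cupw d a u k * K (CS.web u S :: CS.web (!u) S :: r) := act_cup0 u k r K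

theorem act_cup1 (u : Bool) (k : ℕ) (x : CS d) (r : List (CS d)) (K : Cont d) :
    act a (cup 1 u k) (x :: r) K = ∑ S ∈ Finset.powersetCard k (Finset.univ : Finset (Fin d)),
      cupw d a u k * K (x :: CS.web u S :: CS.web (!u) S :: r) :=
  act_cup0 (a := a) u k r (fun t => K (x :: t))

open Classical in
/-- The value of a cap on two strands. -/
noncomputable def capv (a : ℂ) : CS d → CS d → ℂ
  | .web u S, .web u' T => if u' = !u ∧ S = T then capw d a u S.card else 0
  | _, _ => 0

theorem act_cap0' (x y : CS d) (r : List (CS d)) (K : Cont d) :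
    act a (cap 0) (x :: y :: r) K = capv a x y * K r := by
  change base a (cap 0) (x :: y :: r) K = _
  unfold base
  simp only [Piece.inn, List.length_cons, Nat.le_add_left, ↓reduceIte, loc, List.take_succ_cons,
    List.take_zero, List.drop_succ_cons, List.drop_zero]
  match x, y with
  | .web u S, .web u' T =>
    simp only [locCap, capv, capw]
    by_cases h : u' = !u ∧ S = T
    · simp [h]
    · simp [h]
  | .pole _ _, .web _ _ => simp [locCap, capv]
  | .web _ _, .pole _ _ => simp [locCap, capv]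
  | .pole _ _, .pole _ _ => simp [locCap, capv]

theorem act_cap1 (w x y : CS d) (r : List (CS d)) (K : Cont d) :
    act a (cap 1) (w :: x :: y :: r) K = capv a x y * K (w :: r) :=
  act_cap0' (a := a) x y r (fun t => K (w :: t))

theorem wgt_comm (S T : Finset (Fin d)) : wgt a S T = wgt a T S := by
  unfold wgt
  rw [mul_comm S.card, Finset.inter_comm]

theorem wgt_ne (ha : a ≠ 0) (S T : Finset (Fin d)) : wgt a S T ≠ 0 := by
  unfold wgt
  exact mul_ne_zero (pow_ne_zero _ (inv_ne_zero ha)) (pow_ne_zero _ (pow_ne_zero _ ha))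

theorem prod_ne {x : Fin d → ℂ} (hx : ∏ i, x i = 1) (S : Finset (Fin d)) : ∏ i ∈ S, x i ≠ 0 := by
  rw [Finset.prod_ne_zero_iff]
  intro i _ h
  rw [Finset.prod_eq_zero (Finset.mem_univ i) h] at hx
  exact zero_ne_one hx

theorem cf_slide (o : Bool) (u : Bool) (S : Finset (Fin d)) (y : CS d) :
    cf a o (CS.web (!u) S) y = cf a (!o) y (CS.web u S) := by
  match y with
  | .pole x hx => cases o <;> cases u <;> simp [cf]
  | .web u' T =>
    simp only [cf]
    rw [wgt_comm T S]
    cases o <;> cases u <;> cases u' <;> simp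

theorem cf_inv (ha : a ≠ 0) (o : Bool) (x y : CS d) (h : ¬ (ty x = pole ∧ ty y = pole)) :
    cf a o x y * cf a (!o) y x = 1 := by
  match x, y with
  | .pole _ _, .pole _ _ => exact absurd ⟨rfl, rfl⟩ h
  | .pole x hx, .web u S =>
    have := prod_ne hx S
    cases o <;> cases u <;> simp [cf, this]
  | .web u S, .pole x hx =>
    have := prod_ne hx S
    cases o <;> cases u <;> simp [cf, this]
  | .web u S, .web u' T =>
    have := wgt_ne ha S T
    simp only [cf]
    rw [wgt_comm T S]
    cases o <;> cases u <;> cases u' <;> simp [this]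

/-- collapsing a sum over colours -/
theorem sum_collapse (S : Finset (Fin d)) (f : Finset (Fin d) → ℂ) (hf : ∀ T, T ≠ S → f T = 0) :
    ∑ T ∈ Finset.powersetCard S.card (Finset.univ : Finset (Fin d)), f T = f S := by
  rw [Finset.sum_eq_single S]
  · intro T _ hT
    exact hf T hT
  · intro h
    exact absurd (Finset.mem_powersetCard.2 ⟨Finset.subset_univ _, rfl⟩) h

theorem zigR0 (hd : (a ^ d) ^ 2 = 1) (u : Bool) (S : Finset (Fin d)) (r : List (CS d))
    (K : Cont d) :
    actW a [cup 0 u S.card, cap 1] (CS.web u S :: r) K = K (CS.web u S :: r) := by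
  simp only [actW]
  rw [act_cup0']
  simp only [act_cap1]
  rw [sum_collapse S]
  · rw [← mul_assoc]
    have : capv a (CS.web (!u) S) (CS.web u S) = capw d a (!u) S.card := by simp [capv]
    rw [this, cupw_capw_not hd, one_mul]
  · intro T hT
    simp [capv, hT]

theorem zigL0 (hd : (a ^ d) ^ 2 = 1) (u : Bool) (S : Finset (Fin d)) (r : List (CS d))
    (K : Cont d) :
    actW a [cup 1 u S.card, cap 0] (CS.web (!u) S :: r) K = K (CS.web (!u) S :: r) := by
  simp only [actW]
  rw [act_cup1]
  simp only [act_cap0']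
  rw [sum_collapse S]
  · rw [← mul_assoc]
    have : capv a (CS.web (!u) S) (CS.web u S) = capw d a (!u) S.card := by simp [capv]
    rw [this, cupw_capw_not hd, one_mul]
  · intro T hT
    simp [capv, hT.symm]

theorem slideCup0 (u : Bool) (c : ℕ) (o : Bool) (y : CS d) (r : List (CS d)) (K : Cont d) :
    actW a [cup 0 u c, cr 1 o] (y :: r) K = actW a [cup 1 u c, cr 0 (!o)] (y :: r) K := by
  simp only [actW]
  rw [act_cup0', act_cup1]
  apply Finset.sum_congr rfl
  intro S _
  rw [act_cr1, act_cr0, cf_slide]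

theorem slideCap0 (o : Bool) (x y z : CS d) (r : List (CS d)) (K : Cont d) :
    actW a [cr 0 o, cap 1] (x :: y :: z :: r) K =
      actW a [cr 1 (!o), cap 0] (x :: y :: z :: r) K := by
  simp only [actW]
  rw [act_cr0, act_cr1, act_cap1, act_cap0']
  match x, z with
  | .web u S, .web u' T =>
    by_cases h : u' = !u ∧ S = T
    · obtain ⟨rfl, rfl⟩ := h
      have := cf_slide (a := a) o (!u) S y
      rw [Bool.not_not] at this
      rw [this]
    · simp [capv, h]
  | .web _ _, .pole _ _ => simp [capv]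
  | .pole _ _, .web _ _ => simp [capv]
  | .pole _ _, .pole _ _ => simp [capv]

theorem r20 (ha : a ≠ 0) (o : Bool) (x y : CS d) (h : ¬ (ty x = pole ∧ ty y = pole))
    (r : List (CS d)) (K : Cont d) :
    actW a [cr 0 o, cr 0 (!o)] (x :: y :: r) K = actW a [] (x :: y :: r) K := by
  simp only [actW]
  rw [act_cr0, act_cr0, ← mul_assoc, cf_inv ha o x y h, one_mul]

theorem r30 (o₁ o₂ o₃ : Bool) (x y z : CS d) (r : List (CS d)) (K : Cont d) :
    actW a [cr 0 o₁, cr 1 o₂, cr 0 o₃] (x :: y :: z :: r) K =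
      actW a [cr 1 o₃, cr 0 o₂, cr 1 o₁] (x :: y :: z :: r) K := by
  simp only [actW]
  rw [act_cr0, act_cr1, act_cr0, act_cr1, act_cr0, act_cr1]
  ring

theorem curl0 (u : Bool) (S : Finset (Fin d)) (o : Bool) (r : List (CS d)) (K : Cont d) :
    actW a [cup 1 u S.card, cr 0 o, cap 1] (CS.web u S :: r) K =
      actW a [cup 0 (!u) S.card, cr 1 o, cap 0] (CS.web u S :: r) K := by
  simp only [actW]
  rw [act_cup1, act_cup0']
  simp only [act_cr0, act_cr1, act_cap0', act_cap1]
  rw [sum_collapse S, sum_collapse S]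
  · have h1 : capv a (CS.web u S) (CS.web (!u) S) = capw d a u S.card := by simp [capv]
    have h2 : capv a (CS.web (!u) S) (CS.web (!(!u)) S) = capw d a (!u) S.card := by simp [capv]
    rw [h1]
    rw [show (CS.web (!(!u)) S : CS d) = CS.web u S by rw [Bool.not_not]] at h2 ⊢
    rw [h2]
    have h3 := cupw_capw (d := d) (a := a) u S.card
    have h4 := cupw_capw (d := d) (a := a) (!u) S.card
    linear_combination (cf a o (CS.web u S) (CS.web u S) * K (CS.web u S :: r)) * (h3 - h4)
  · intro T hT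
    simp [capv, hT]
  · intro T hT
    simp [capv, hT.symm]

theorem decomp {cs : List (CS d)} {A : List Str} {B : List Str} (h : cs.map ty = A ++ B) :
    ∃ cA cB, cs = cA ++ cB ∧ cA.map ty = A ∧ cB.map ty = B ∧ cA.length = A.length := by
  obtain ⟨l1, l2, h1, h2, h3⟩ := List.map_eq_append_iff.1 h
  exact ⟨l1, l2, h1, h2, h3, by rw [← h2, List.length_map]⟩

theorem ty_web {c : CS d} {u : Bool} {n : ℕ} (h : ty c = web u n) :
    ∃ S, c = CS.web u S ∧ S.card = n := by
  match c with
  | .pole _ _ => simp [ty] at h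
  | .web u' S =>
    simp only [ty, Str.web.injEq] at h
    obtain ⟨rfl, h⟩ := h
    exact ⟨S, rfl, h⟩

end GM1

open GM1 in
theorem actW_plain (ha : a ≠ 0) (hd : (a ^ d) ^ 2 = 1) {D E : List Piece} (h : Plain d D E)
    {s t : List Str} (hD : Run d D s t) (hE : Run d E s t) (cs : List (CS d))
    (hcs : cs.map ty = s) (K : Cont d) : actW a D cs K = actW a E cs K := by
  cases h with
  | far x y h => exact act_far x y h cs K
  | zigR i u n =>
    obtain ⟨r, h1, r', h2, h3⟩ := hD
    obtain ⟨A, B, rfl, rfl, rfl⟩ := step_cup_inv h1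
    obtain ⟨A', B', u', c', hA', h4, h5⟩ := step_cap_inv h2
    have h6 : (A ++ [web u n]) ++ ([web (!u) n] ++ B) = A' ++ ([web u' c', web (!u') c'] ++ B') := by
      simpa using h4
    obtain ⟨rfl, h7⟩ := List.append_inj h6 (by simp [hA'])
    simp only [List.cons_append, List.nil_append, List.cons.injEq, Str.web.injEq] at h7
    obtain ⟨⟨rfl, rfl⟩, rfl⟩ := h7
    obtain ⟨cA, cB, rfl, hcA, hcB, hl⟩ := decomp hcs
    match cB with
    | [] => simp at hcB
    | c0 :: cr' =>
      simp only [List.map_cons, List.cons.injEq, Bool.not_not] at hcB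
      obtain ⟨S, rfl, hS⟩ := ty_web hcB.1
      subst hS
      have e := red (a := a) [cup 0 u S.card, cap 1] [] cA (CS.web u S :: cr') K
        (fun K => zigR0 hd u S cr' K)
      rw [hl] at e
      simpa [Piece.shift, Nat.add_comm] using e
  | zigL i u n =>
    obtain ⟨r, h1, r', h2, h3⟩ := hD
    obtain ⟨A, B, hA, rfl, rfl⟩ := step_cup_inv h1
    obtain ⟨A', B', u', c', rfl, h4, h5⟩ := step_cap_inv h2
    obtain ⟨A0, x, rfl⟩ : ∃ A0 x, A = A0 ++ [x] := by
      rcases List.eq_nil_or_concat A with h | ⟨A0, x, h⟩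
      · subst h; simp at hA
      · exact ⟨A0, x, by simpa using h⟩
    have h6 : A0 ++ ([x, web u n] ++ ([web (!u) n] ++ B)) = A' ++ ([web u' c', web (!u') c'] ++ B') := by
      simpa using h4
    obtain ⟨rfl, h7⟩ := List.append_inj h6 (by simpa using hA)
    simp only [List.cons_append, List.nil_append, List.cons.injEq, Str.web.injEq] at h7
    obtain ⟨rfl, ⟨rfl, rfl⟩, rfl⟩ := h7
    rw [List.append_assoc] at hcs
    obtain ⟨cA, cB, rfl, hcA, hcB, hl⟩ := decomp hcs
    match cB with
    | [] => simp at hcB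
    | c0 :: cr' =>
      simp only [List.map_cons, List.cons.injEq, List.cons_append] at hcB
      obtain ⟨S, rfl, hS⟩ := ty_web hcB.1
      subst hS
      have e := red (a := a) [cup 1 (!u') S.card, cap 0] [] cA (CS.web u' S :: cr') K
        (fun K => by
          have := zigL0 hd (!u') S cr' K
          rw [Bool.not_not] at this
          exact this)
      rw [hl] at e
      simpa [Piece.shift, Nat.add_comm] using e
  | slideCup i u n o =>
    obtain ⟨r, h1, r', h2, h3⟩ := hD
    obtain ⟨A, B, rfl, rfl, rfl⟩ := step_cup_inv h1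
    obtain ⟨A', B', x, y, hA', hxy, h4, h5⟩ := step_cr_inv h2
    have h6 : (A ++ [web u n]) ++ ([web (!u) n] ++ B) = A' ++ ([x, y] ++ B') := by
      simpa using h4
    obtain ⟨rfl, h7⟩ := List.append_inj h6 (by simp [hA'])
    simp only [List.cons_append, List.nil_append, List.cons.injEq] at h7
    obtain ⟨rfl, rfl⟩ := h7
    obtain ⟨cA, cB, rfl, hcA, hcB, hl⟩ := decomp hcs
    match cB with
    | [] => simp at hcB
    | c0 :: cr' =>
      have e := red (a := a) [cup 0 u n, cr 1 o] [cup 1 u n, cr 0 (!o)] cA (c0 :: cr') K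
        (fun K => slideCup0 u n o c0 cr' K)
      rw [hl] at e
      simpa [Piece.shift, Nat.add_comm] using e
  | slideCap i o =>
    obtain ⟨r, h1, r', h2, h3⟩ := hD
    obtain ⟨A, B, x, y, rfl, hxy, rfl, rfl⟩ := step_cr_inv h1
    obtain ⟨A', B', u', c', hA', h4, h5⟩ := step_cap_inv h2
    have h6 : (A ++ [y]) ++ ([x] ++ B) = A' ++ ([web u' c', web (!u') c'] ++ B') := by
      simpa using h4
    obtain ⟨rfl, h7⟩ := List.append_inj h6 (by simp [hA'])
    simp only [List.cons_append, List.nil_append, List.cons.injEq] at h7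
    obtain ⟨rfl, rfl⟩ := h7
    rw [List.append_assoc] at hcs
    obtain ⟨cA, cB, rfl, hcA, hcB, hl⟩ := decomp hcs
    match cB with
    | [] => simp at hcB
    | [_] => simp at hcB
    | [_, _] => simp at hcB
    | c0 :: c1 :: c2 :: cr' =>
      have e := red (a := a) [cr 0 o, cap 1] [cr 1 (!o), cap 0] cA (c0 :: c1 :: c2 :: cr') K
        (fun K => slideCap0 o c0 c1 c2 cr' K)
      rw [hl] at e
      simpa [Piece.shift, Nat.add_comm] using e
  | r2 i o =>
    obtain ⟨r, h1, r', h2, h3⟩ := hD
    obtain ⟨A, B, x, y, rfl, hxy, rfl, rfl⟩ := step_cr_inv h1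
    rw [List.append_assoc] at hcs
    obtain ⟨cA, cB, rfl, hcA, hcB, hl⟩ := decomp hcs
    match cB with
    | [] => simp at hcB
    | [_] => simp at hcB
    | c0 :: c1 :: cr' =>
      simp only [List.map_cons, List.cons_append, List.nil_append, List.cons.injEq] at hcB
      obtain ⟨rfl, rfl, -⟩ := hcB
      have e := red (a := a) [cr 0 o, cr 0 (!o)] [] cA (c0 :: c1 :: cr') K
        (fun K => r20 ha o c0 c1 hxy cr' K)
      rw [hl] at e
      simpa [Piece.shift, Nat.add_comm] using e
  | r3 i o₁ o₂ o₃ =>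
    obtain ⟨r, h1, r', h2, h3⟩ := hD
    obtain ⟨A, B, x, y, rfl, hxy, rfl, rfl⟩ := step_cr_inv h1
    obtain ⟨A', B', x', y', hA', hxy', h4, h5⟩ := step_cr_inv h2
    have h6 : (A ++ [y]) ++ ([x] ++ B) = A' ++ ([x', y'] ++ B') := by
      simpa using h4
    obtain ⟨rfl, h7⟩ := List.append_inj h6 (by simp [hA'])
    simp only [List.cons_append, List.nil_append, List.cons.injEq] at h7
    obtain ⟨rfl, rfl⟩ := h7
    rw [List.append_assoc] at hcs
    obtain ⟨cA, cB, rfl, hcA, hcB, hl⟩ := decomp hcs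
    match cB with
    | [] => simp at hcB
    | [_] => simp at hcB
    | [_, _] => simp at hcB
    | c0 :: c1 :: c2 :: cr' =>
      have e := red (a := a) [cr 0 o₁, cr 1 o₂, cr 0 o₃] [cr 1 o₃, cr 0 o₂, cr 1 o₁] cA
        (c0 :: c1 :: c2 :: cr') K (fun K => r30 o₁ o₂ o₃ c0 c1 c2 cr' K)
      rw [hl] at e
      simpa [Piece.shift, Nat.add_comm] using e
  | curl i u n o =>
    obtain ⟨r, h1, r', h2, r'', h3, h3'⟩ := hD
    obtain ⟨A, B, hA, rfl, rfl⟩ := step_cup_inv h1
    obtain ⟨A', B', x', y', rfl, hxy, h4, rfl⟩ := step_cr_inv h2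
    obtain ⟨A'', B'', u', c', hA'', h5, h5'⟩ := step_cap_inv h3
    obtain ⟨A0, x, rfl⟩ : ∃ A0 x, A = A0 ++ [x] := by
      rcases List.eq_nil_or_concat A with h | ⟨A0, x, h⟩
      · subst h; simp at hA
      · exact ⟨A0, x, by simpa using h⟩
    have h6 : A0 ++ ([x, web u n] ++ ([web (!u) n] ++ B)) = A' ++ ([x', y'] ++ B') := by
      simpa using h4
    obtain ⟨rfl, h7⟩ := List.append_inj h6 (by simpa using hA)
    simp only [List.cons_append, List.nil_append, List.cons.injEq] at h7
    obtain ⟨rfl, rfl, rfl⟩ := h7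
    have h8 : (A0 ++ [web u n]) ++ ([x] ++ ([web (!u) n] ++ B)) =
        A'' ++ ([web u' c', web (!u') c'] ++ B'') := by
      simpa using h5
    obtain ⟨rfl, h9⟩ := List.append_inj h8 (by simp [hA''])
    simp only [List.cons_append, List.nil_append, List.cons.injEq, Str.web.injEq] at h9
    obtain ⟨rfl, ⟨h10, rfl⟩, rfl⟩ := h9
    have hu : u = u' := by
      cases u <;> cases u' <;> simp_all
    subst hu
    rw [List.append_assoc] at hcs
    obtain ⟨cA, cB, rfl, hcA, hcB, hl⟩ := decomp hcs
    match cB with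
    | [] => simp at hcB
    | c0 :: cr' =>
      simp only [List.map_cons, List.cons.injEq, List.cons_append] at hcB
      obtain ⟨S, rfl, hS⟩ := ty_web hcB.1
      subst hS
      have e := red (a := a) [cup 1 u S.card, cr 0 o, cap 1] [cup 0 (!u) S.card, cr 1 o, cap 0]
        cA (CS.web u S :: cr') K (fun K => curl0 u S o cr' K)
      rw [hl] at e
      simpa [Piece.shift, Nat.add_comm] using e

end Pool.Agent.Helper26.SK.G
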