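import Pool.Agent.Helper26.SK.G.Defs

/-! This file is the work of helper95. -/

/-! Block GQ of `helper26_SKG_BP`: quantum binomials at `q = ± 1`. -/

namespace Pool.Agent.Helper26.SK.G

private lemma pow_par {q : ℂ} (hq : q ^ 2 = 1) {e e' : ℕ} (h : e % 2 = e' % 2) :
    q ^ e = q ^ e' := by
  have h1 : ∀ e : ℕ, q ^ e = q ^ (e % 2) := by
    intro e
    conv_lhs => rw [← Nat.div_add_mod e 2, pow_add, pow_mul, hq, one_pow, one_mul]
  rw [h1 e, h1 e', h]

private lemma inv_of_sq {q : ℂ} (hq : q ^ 2 = 1) : q⁻¹ = q := by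
  have : q * q = 1 := by rw [← sq]; exact hq
  exact (eq_inv_of_mul_eq_one_left this).symm

theorem qbinN_pm {q : ℂ} (hq : q ^ 2 = 1) (n t : ℕ) :
    qbinN q n t = q ^ (t * (n + t)) * (n.choose t : ℂ) := by
  induction n generalizing t with
  | zero =>
    cases t with
    | zero => simp [qbinN]
    | succ t => simp [qbinN]
  | succ n ih =>
    cases t with
    | zero => simp [qbinN]
    | succ t =>
      rw [qbinN, ih, ih, inv_of_sq hq]
      rcases lt_or_ge n t with h | h
      · rw [Nat.choose_eq_zero_of_lt (by omega : n < t + 1),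
          Nat.choose_eq_zero_of_lt (by omega : n < t),
          Nat.choose_eq_zero_of_lt (by omega : n + 1 < t + 1)]
        simp
      · obtain ⟨m, rfl⟩ : ∃ m, n = t + m := ⟨n - t, by omega⟩
        have e0 : t + m - t = m := by omega
        rw [e0, ← mul_assoc, ← mul_assoc, ← pow_add, ← pow_add]
        have e1 : q ^ (t + 1 + (t + 1) * (t + m + (t + 1))) =
            q ^ ((t + 1) * (t + m + 1 + (t + 1))) := by
          congr 1; ring
        have e2 : q ^ (m + t * (t + m + t)) = q ^ ((t + 1) * (t + m + 1 + (t + 1))) := by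
          apply pow_par hq
          have : (t + 1) * (t + m + 1 + (t + 1)) = m + t * (t + m + t) + 2 * (2 * t + 1) := by
            ring
          rw [this]
          omega
        rw [e1, e2, Nat.choose_succ_succ]
        push_cast
        ring

theorem qbin_pm {q : ℂ} (hq : q ^ 2 = 1) (m : ℤ) (t : ℕ) :
    qbin q m t = q ^ (t * (m.natAbs + t)) * ((Ring.choose m t : ℤ) : ℂ) := by
  cases m with
  | ofNat n =>
    have h : Ring.choose (Int.ofNat n) t = ((n.choose t : ℕ) : ℤ) := Ring.choose_natCast n t
    rw [h]
    show qbinN q n t = _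
    rw [qbinN_pm hq]
    simp
  | negSucc n =>
    have h : Ring.choose (Int.negSucc n) t = (-1) ^ t * (((n + t).choose t : ℕ) : ℤ) := by
      have h1 : (Int.negSucc n : ℤ) = -((n : ℤ) + 1) := by
        rw [Int.negSucc_eq]
      rw [h1, Ring.choose_neg]
      have h2 : ((n : ℤ) + 1 + t - 1) = ((n + t : ℕ) : ℤ) := by push_cast; ring
      rw [h2, Ring.choose_natCast, Int.negOnePow_def, Units.smul_def]
      simp
    rw [h]
    show (-1) ^ t * qbinN q (n + t) t = _
    rw [qbinN_pm hq]
    have e : q ^ (t * (n + t + t)) = q ^ (t * ((Int.negSucc n).natAbs + t)) := by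
      apply pow_par hq
      rw [Int.natAbs_negSucc]
      have h3 : (t * t + t) % 2 = 0 := by
        rcases Nat.even_or_odd t with ⟨k, hk⟩ | ⟨k, hk⟩
        · subst hk
          have : (k + k) * (k + k) + (k + k) = 2 * (2 * (k * k) + k) := by ring
          rw [this]; omega
        · subst hk
          have : (2 * k + 1) * (2 * k + 1) + (2 * k + 1) = 2 * (2 * (k * k) + 3 * k + 1) := by
            ring
          rw [this]; omega
      have h4 : t * (n + t + t) = t * n + 2 * (t * t) := by ring
      have h5 : t * (n.succ + t) = t * n + (t * t + t) := by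
        rw [Nat.succ_eq_add_one]; ring
      rw [h4, h5]
      omega
    rw [e]
    push_cast
    ring

end Pool.Agent.Helper26.SK.G
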