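import Pool.Agent.Helper26.SK.G.QB

/-! This file is the work of helper7. -/

/-!
# Block GS2 of `helper26_SKG_BP2`: the square switch relations
-/

namespace Pool.Agent.Helper26.SK.G

open Str Piece Finset

variable {d : ℕ} {a : ℂ}

/-- The iterated sum of two rungs, in terms of the sets which are really moved. -/
theorem sum_rungs {α : Type*} [DecidableEq α] (Φ : Finset α → Finset α → ℂ) (S T : Finset α)
    (s r : ℕ) :
    ∑ X ∈ powersetCard s (T \ S), ∑ Y ∈ powersetCard r ((S ∪ X) \ (T \ X)),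
        Φ ((S ∪ X) \ Y) ((T \ X) ∪ Y) =
      ∑ p ∈ (T \ S).powerset ×ˢ (S \ T).powerset,
        if p.1.card ≤ s ∧ p.1.card + r = p.2.card + s then
          ((((T \ S).card - p.1.card).choose (s - p.1.card) : ℕ) : ℂ) *
            Φ ((S \ p.2) ∪ p.1) ((T \ p.1) ∪ p.2) else 0 := by
  have h1 : ∑ X ∈ powersetCard s (T \ S), ∑ Y ∈ powersetCard r ((S ∪ X) \ (T \ X)),
        Φ ((S ∪ X) \ Y) ((T \ X) ∪ Y) =
      ∑ p ∈ (((T \ S).powerset ×ˢ (S \ T).powerset) ×ˢ (T \ S).powerset).filter
        (fun p => Disjoint p.1.1 p.2 ∧ p.1.1.card + p.2.card = s ∧ p.1.2.card + p.2.card = r),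
        Φ ((S \ p.1.2) ∪ p.1.1) ((T \ p.1.1) ∪ p.1.2) := by
    rw [Finset.sum_sigma']
    refine Finset.sum_nbij' (fun p => ((p.1 \ p.2, p.2 \ p.1), p.1 ∩ p.2))
      (fun p => ⟨p.1.1 ∪ p.2, p.1.2 ∪ p.2⟩) ?_ ?_ ?_ ?_ ?_
    · rintro ⟨X, Y⟩ h
      simp only [mem_sigma, mem_powersetCard] at h
      obtain ⟨⟨hX, hXc⟩, hY, hYc⟩ := h
      simp only [mem_filter, mem_product, mem_powerset]
      refine ⟨⟨⟨?_, ?_⟩, ?_⟩, ?_, ?_, ?_⟩
      · exact Finset.sdiff_subset.trans hX
      · intro x hx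
        rw [mem_sdiff] at hx
        have := hY hx.1
        simp only [mem_sdiff, mem_union] at this ⊢
        tauto
      · exact Finset.inter_subset_left.trans hX
      · exact Finset.disjoint_sdiff_inter X Y
      · rw [Finset.card_sdiff_add_card_inter, hXc]
      · rw [Finset.inter_comm, Finset.card_sdiff_add_card_inter, hYc]
    · rintro ⟨⟨A, C⟩, U⟩ h
      simp only [mem_filter, mem_product, mem_powerset] at h
      obtain ⟨⟨⟨hA, hC⟩, hU⟩, hAU, h1, h2⟩ := h
      simp only [mem_sigma, mem_powersetCard]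
      refine ⟨⟨Finset.union_subset hA hU, ?_⟩, ?_, ?_⟩
      · rw [Finset.card_union_of_disjoint hAU, h1]
      · intro x hx
        have hC' := @hC x
        simp only [mem_sdiff, mem_union] at hx hC' ⊢
        tauto
      · rw [Finset.card_union_of_disjoint, h2]
        rw [Finset.disjoint_left]
        intro x hx hx'
        have h3 := hC hx
        have h4 := hU hx'
        simp only [mem_sdiff] at h3 h4
        tauto
    · rintro ⟨X, Y⟩ h
      simp only
      congr 1
      · exact Finset.sdiff_union_inter X Y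
      · rw [Finset.inter_comm]
        exact Finset.sdiff_union_inter Y X
    · rintro ⟨⟨A, C⟩, U⟩ h
      simp only [mem_filter, mem_product, mem_powerset] at h
      obtain ⟨⟨⟨hA, hC⟩, hU⟩, hAU, h1, h2⟩ := h
      rw [Finset.disjoint_left] at hAU
      simp only [Prod.mk.injEq]
      refine ⟨⟨?_, ?_⟩, ?_⟩
      · ext x
        have h3 := @hA x
        have h4 := @hC x
        have h5 := @hAU x
        simp only [mem_sdiff, mem_union] at h3 h4 ⊢
        tauto
      · ext x
        have h3 := @hA x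
        have h4 := @hC x
        have h5 := @hU x
        simp only [mem_sdiff, mem_union] at h3 h4 h5 ⊢
        tauto
      · ext x
        have h3 := @hA x
        have h4 := @hC x
        simp only [mem_sdiff, mem_union, mem_inter] at h3 h4 ⊢
        tauto
    · rintro ⟨X, Y⟩ h
      simp only [mem_sigma, mem_powersetCard] at h
      obtain ⟨⟨hX, hXc⟩, hY, hYc⟩ := h
      simp only
      congr 1
      · ext x
        have h3 := @hX x
        have h4 := @hY x
        simp only [mem_sdiff, mem_union] at h3 h4 ⊢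
        tauto
      · ext x
        have h3 := @hX x
        have h4 := @hY x
        simp only [mem_sdiff, mem_union] at h3 h4 ⊢
        tauto
  rw [h1, Finset.sum_filter, Finset.sum_product]
  apply Finset.sum_congr rfl
  rintro ⟨A, C⟩ hAC
  simp only [mem_product, mem_powerset] at hAC
  simp only
  split_ifs with hc
  · rw [← Finset.sum_filter, Finset.sum_const, nsmul_eq_mul]
    congr 2
    have : (T \ S).powerset.filter (fun U => Disjoint A U ∧ A.card + U.card = s ∧
        C.card + U.card = r) = powersetCard (s - A.card) ((T \ S) \ A) := by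
      ext U
      simp only [mem_filter, mem_powerset, mem_powersetCard, Finset.subset_sdiff]
      constructor
      · rintro ⟨h1, h2, h3, h4⟩
        exact ⟨⟨h1, h2.symm⟩, by omega⟩
      · rintro ⟨⟨h1, h2⟩, h3⟩
        exact ⟨h1, h2.symm, by omega, by omega⟩
    rw [this, Finset.card_powersetCard, Finset.card_sdiff_of_subset hAC.1]
  · apply Finset.sum_eq_zero
    intro U _
    rw [if_neg]
    rintro ⟨-, h2, h3⟩
    exact hc ⟨by omega, by omega⟩

/-- The iterated sum of two rungs, in the other order. -/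
theorem sum_rungs' {α : Type*} [DecidableEq α] (Φ : Finset α → Finset α → ℂ) (S T : Finset α)
    (r s : ℕ) :
    ∑ Y ∈ powersetCard r (S \ T), ∑ X ∈ powersetCard s ((T ∪ Y) \ (S \ Y)),
        Φ ((S \ Y) ∪ X) ((T ∪ Y) \ X) =
      ∑ p ∈ (T \ S).powerset ×ˢ (S \ T).powerset,
        if p.2.card ≤ r ∧ p.2.card + s = p.1.card + r then
          ((((S \ T).card - p.2.card).choose (r - p.2.card) : ℕ) : ℂ) *
            Φ ((S \ p.2) ∪ p.1) ((T \ p.1) ∪ p.2) else 0 := by
  rw [sum_rungs (fun x y => Φ y x) T S r s, Finset.sum_product, Finset.sum_product_right]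

theorem vander {m : ℤ} {n n' : ℕ} (u : ℕ) (h : (n : ℤ) = m + n') :
    ((n.choose u : ℕ) : ℤ) =
      ∑ t ∈ Finset.range (u + 1), Ring.choose m t * ((n'.choose (u - t) : ℕ) : ℤ) := by
  have h1 := Ring.add_choose_eq u (Commute.all m (n' : ℤ))
  rw [← h, Ring.choose_natCast, Finset.Nat.sum_antidiagonal_eq_sum_range_succ
    (fun i j => Ring.choose m i * Ring.choose (n' : ℤ) j)] at h1
  simpa [Ring.choose_natCast] using h1

/-- The square relation, without signs. -/
theorem comb_FE {α : Type*} [DecidableEq α] (Φ : Finset α → Finset α → ℂ) (S T : Finset α)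
    (r s : ℕ) :
    ∑ X ∈ powersetCard s (T \ S), ∑ Y ∈ powersetCard r ((S ∪ X) \ (T \ X)),
        Φ ((S ∪ X) \ Y) ((T \ X) ∪ Y) =
      ∑ t ∈ Finset.range (min r s + 1),
        ((Ring.choose ((T.card : ℤ) - S.card + r - s) t : ℤ) : ℂ) *
          ∑ Y ∈ powersetCard (r - t) (S \ T), ∑ X ∈ powersetCard (s - t) ((T ∪ Y) \ (S \ Y)),
            Φ ((S \ Y) ∪ X) ((T ∪ Y) \ X) := by
  simp only [sum_rungs']
  rw [sum_rungs]
  simp only [Finset.mul_sum]
  rw [Finset.sum_comm]
  apply Finset.sum_congr rfl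
  rintro ⟨A, C⟩ hAC
  simp only [mem_product, mem_powerset] at hAC
  obtain ⟨hA, hC⟩ := hAC
  have hA' := Finset.card_le_card hA
  have hC' := Finset.card_le_card hC
  have hTS := Finset.card_sdiff_add_card_inter T S
  have hST := Finset.card_sdiff_add_card_inter S T
  rw [Finset.inter_comm T S] at hTS
  simp only
  split_ifs with hc
  · obtain ⟨hc1, hc2⟩ := hc
    have hv := vander (m := (T.card : ℤ) - S.card + r - s) (n := (T \ S).card - A.card)
      (n' := (S \ T).card - C.card) (s - A.card) (by omega)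
    have hv' : ((((T \ S).card - A.card).choose (s - A.card) : ℕ) : ℂ) =
      ∑ t ∈ Finset.range (s - A.card + 1),
        ((Ring.choose ((T.card : ℤ) - S.card + r - s) t : ℤ) : ℂ) *
          ((((S \ T).card - C.card).choose (s - A.card - t) : ℕ) : ℂ) := by
      have := congrArg (Int.cast (R := ℂ)) hv
      push_cast at this
      exact this
    rw [hv', Finset.sum_mul]
    have hsub : Finset.range (s - A.card + 1) ⊆ Finset.range (min r s + 1) := by
      intro t ht
      rw [Finset.mem_range] at ht ⊢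
      omega
    rw [← Finset.sum_subset hsub]
    · apply Finset.sum_congr rfl
      intro t ht
      rw [Finset.mem_range] at ht
      rw [if_pos ⟨by omega, by omega⟩]
      have : s - A.card - t = r - t - C.card := by omega
      rw [this]
      ring
    · intro t ht ht'
      rw [Finset.mem_range] at ht ht'
      rw [if_neg (by omega), mul_zero]
  · symm
    apply Finset.sum_eq_zero
    intro t ht
    rw [Finset.mem_range] at ht
    rw [if_neg (by omega), mul_zero]

theorem comb_EF {α : Type*} [DecidableEq α] (Φ : Finset α → Finset α → ℂ) (S T : Finset α)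
    (r s : ℕ) :
    ∑ Y ∈ powersetCard r (S \ T), ∑ X ∈ powersetCard s ((T ∪ Y) \ (S \ Y)),
        Φ ((S \ Y) ∪ X) ((T ∪ Y) \ X) =
      ∑ t ∈ Finset.range (min r s + 1),
        ((Ring.choose ((S.card : ℤ) - T.card + s - r) t : ℤ) : ℂ) *
          ∑ X ∈ powersetCard (s - t) (T \ S), ∑ Y ∈ powersetCard (r - t) ((S ∪ X) \ (T \ X)),
            Φ ((S ∪ X) \ Y) ((T \ X) ∪ Y) := by
  rw [min_comm]
  exact comb_FE (fun x y => Φ y x) T S s r

theorem actW_FE (hq : (a ^ d) ^ 2 = 1) {k l s r : ℕ} {S T : Finset (Fin d)} (hS : S.card = k)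
    (hT : T.card = l) (hs : s ≤ l) (hks : k + s ≤ d) (hr : r ≤ k + s) (hlr : l - s + r ≤ d)
    (R : List (CS d)) (K : Cont d) :
    actW a (ladF d k l s ++ ladE d (k + s) (l - s) r) (vs S ++ (vs T ++ R)) K =
      (a ^ d) ^ (s * (l - s)) * (a ^ d) ^ ((k + s - r) * r) * eps (a ^ d) S T *
        ∑ X ∈ powersetCard s (T \ S), ∑ Y ∈ powersetCard r ((S ∪ X) \ (T \ X)),
          eps (a ^ d) ((S ∪ X) \ Y) ((T \ X) ∪ Y) *
            K (vs ((S ∪ X) \ Y) ++ (vs ((T \ X) ∪ Y) ++ R)) := by
  rw [actW_append, actW_ladF hq hS hT hs hks, Finset.mul_sum]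
  apply Finset.sum_congr rfl
  intro X hX
  rw [mem_powersetCard, Finset.subset_sdiff] at hX
  obtain ⟨⟨hXT, hXS⟩, hXc⟩ := hX
  have h1 : (S ∪ X).card = k + s := by
    rw [Finset.card_union_of_disjoint hXS.symm, hS, hXc]
  have h2 : (T \ X).card = l - s := by
    rw [Finset.card_sdiff_of_subset hXT, hT, hXc]
  rw [actW_ladE hq h1 h2 hr hlr, Finset.mul_sum, Finset.mul_sum]
  apply Finset.sum_congr rfl
  intro Y _
  have h3 := eps_mul_self hq (S ∪ X) (T \ X)
  linear_combination ((a ^ d) ^ (s * (l - s)) * (a ^ d) ^ ((k + s - r) * r) * eps (a ^ d) S T *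
    eps (a ^ d) ((S ∪ X) \ Y) ((T \ X) ∪ Y) *
      K (vs ((S ∪ X) \ Y) ++ (vs ((T \ X) ∪ Y) ++ R))) * h3

theorem actW_EF (hq : (a ^ d) ^ 2 = 1) {k l s r : ℕ} {S T : Finset (Fin d)} (hS : S.card = k)
    (hT : T.card = l) (hr : r ≤ k) (hlr : l + r ≤ d) (hs : s ≤ l + r) (hks : k - r + s ≤ d)
    (R : List (CS d)) (K : Cont d) :
    actW a (ladE d k l r ++ ladF d (k - r) (l + r) s) (vs S ++ (vs T ++ R)) K =
      (a ^ d) ^ ((k - r) * r) * (a ^ d) ^ (s * (l + r - s)) * eps (a ^ d) S T *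
        ∑ Y ∈ powersetCard r (S \ T), ∑ X ∈ powersetCard s ((T ∪ Y) \ (S \ Y)),
          eps (a ^ d) ((S \ Y) ∪ X) ((T ∪ Y) \ X) *
            K (vs ((S \ Y) ∪ X) ++ (vs ((T ∪ Y) \ X) ++ R)) := by
  rw [actW_append, actW_ladE hq hS hT hr hlr, Finset.mul_sum]
  apply Finset.sum_congr rfl
  intro Y hY
  rw [mem_powersetCard, Finset.subset_sdiff] at hY
  obtain ⟨⟨hYS, hYT⟩, hYc⟩ := hY
  have h1 : (T ∪ Y).card = l + r := by
    rw [Finset.card_union_of_disjoint hYT.symm, hT, hYc]
  have h2 : (S \ Y).card = k - r := by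
    rw [Finset.card_sdiff_of_subset hYS, hS, hYc]
  rw [actW_ladF hq h2 h1 hs hks, Finset.mul_sum, Finset.mul_sum]
  apply Finset.sum_congr rfl
  intro X _
  have h3 := eps_mul_self hq (S \ Y) (T ∪ Y)
  linear_combination ((a ^ d) ^ ((k - r) * r) * (a ^ d) ^ (s * (l + r - s)) * eps (a ^ d) S T *
    eps (a ^ d) ((S \ Y) ∪ X) ((T ∪ Y) \ X) *
      K (vs ((S \ Y) ∪ X) ++ (vs ((T ∪ Y) \ X) ++ R))) * h3

theorem sum_filter_range (n : ℕ) (P : ℕ → Prop) [DecidablePred P] (F : ℕ → ℂ) :
    ((((List.range n).filter fun t => P t)).map F).sum =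
      ∑ t ∈ Finset.range n, if P t then F t else 0 := by
  induction n with
  | zero => simp
  | succ n ih =>
    rw [List.range_succ, List.filter_append, List.map_append, List.sum_append, ih,
      Finset.sum_range_succ]
    congr 1
    by_cases h : P n <;> simp [h]

private theorem pow_par' {q : ℂ} (hq : q ^ 2 = 1) {e e' : ℕ} (h : (e : ZMod 2) = e') :
    q ^ e = q ^ e' := by
  have h1 : ∀ e : ℕ, q ^ e = q ^ (e % 2) := by
    intro e
    conv_lhs => rw [← Nat.div_add_mod e 2, pow_add, pow_mul, hq, one_pow, one_mul]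
  rw [h1 e, h1 e', (ZMod.natCast_eq_natCast_iff' e e' 2).mp h]

private theorem natAbs_cast' (m : ℤ) : ((m.natAbs : ℕ) : ZMod 2) = (m : ZMod 2) := by
  rcases Int.natAbs_eq m with h | h
  · have h1 : (m : ZMod 2) = (((m.natAbs : ℤ) : ℤ) : ZMod 2) := congrArg _ h
    rw [h1, Int.cast_natCast]
  · have h1 : (m : ZMod 2) = ((-(m.natAbs : ℤ) : ℤ) : ZMod 2) := congrArg _ h
    rw [h1, Int.cast_neg, Int.cast_natCast, CharTwo.neg_eq]

theorem sk_squareFE (ha : a ≠ 0) (hd : (a ^ d) ^ 2 = 1) (hQ : QB (a ^ d)) {k l r s : ℕ}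
    (h : k ≤ d ∧ l ≤ d ∧ s ≤ l ∧ k + s ≤ d ∧ r ≤ k + s ∧ l - s + r ≤ d) :
    SkEq (d := d) a (lab d k ++ lab d l)
      [(1, ladF d k l s ++ ladE d (k + s) (l - s) r)]
      (((List.range (min r s + 1)).filter fun t => r ≤ k + t ∧ l + r ≤ d + t).map fun t =>
        (qbin (a ^ d) ((l : ℤ) - k + r - s) t,
          ladE d k l (r - t) ++ ladF d (k - (r - t)) (l + (r - t)) (s - t))) := by
  obtain ⟨hk, hl, hs, hks, hr, hlr⟩ := h
  intro cs hcs B K
  obtain ⟨c1, c2, rfl, h1, h2⟩ := List.map_eq_append_iff.mp hcs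
  obtain ⟨S, hS, rfl⟩ := exists_vs hk h1
  obtain ⟨T, hT, rfl⟩ := exists_vs hl h2
  rw [List.append_assoc, List.map_map, sum_filter_range (min r s + 1)
    (fun t => r ≤ k + t ∧ l + r ≤ d + t)]
  simp only [List.map_cons, List.map_nil, List.sum_cons, List.sum_nil, add_zero, one_mul]
  have hcomb := comb_FE (fun x y => eps (a ^ d) x y * K (vs x ++ (vs y ++ B))) S T r s
  rw [actW_FE hd hS hT hs hks hr hlr, hcomb, Finset.mul_sum]
  apply Finset.sum_congr rfl
  intro t ht
  rw [Finset.mem_range] at ht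
  rw [hS, hT]
  split_ifs with hc
  · obtain ⟨hc1, hc2⟩ := hc
    simp only [Function.comp]
    rw [actW_EF hd hS hT (by omega) (by omega) (by omega) (by omega), hQ]
    have hpar : (a ^ d) ^ (s * (l - s)) * (a ^ d) ^ ((k + s - r) * r) =
        (a ^ d) ^ (t * (((l : ℤ) - k + r - s).natAbs + t)) *
          ((a ^ d) ^ ((k - (r - t)) * (r - t)) *
            (a ^ d) ^ ((s - t) * (l + (r - t) - (s - t)))) := by
      rw [← pow_add, ← pow_add, ← pow_add]
      apply pow_par' hd
      obtain ⟨r', rfl⟩ : ∃ r', r = t + r' := ⟨r - t, by omega⟩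
      obtain ⟨s', rfl⟩ : ∃ s', s = t + s' := ⟨s - t, by omega⟩
      obtain ⟨l', rfl⟩ : ∃ l', l = t + s' + l' := ⟨l - (t + s'), by omega⟩
      obtain ⟨k', rfl⟩ : ∃ k', k = r' + k' := ⟨k - r', by omega⟩
      have e1 : t + s' + l' - (t + s') = l' := by omega
      have e2 : r' + k' + (t + s') - (t + r') = k' + s' := by omega
      have e3 : t + r' - t = r' := by omega
      have e4 : r' + k' - r' = k' := by omega
      have e5 : t + s' - t = s' := by omega
      have e6 : t + s' + l' + r' - s' = t + l' + r' := by omega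
      rw [e1, e2, e3, e4, e5, e6]
      push_cast
      rw [natAbs_cast']
      push_cast
      have h2 : (2 : ZMod 2) = 0 := rfl
      linear_combination (-(t : ZMod 2) * l' + (t : ZMod 2) * k' - (t : ZMod 2) ^ 2 +
        (t : ZMod 2) * l') * h2
    rw [hpar]
    ring
  · have hz : ∑ Y ∈ powersetCard (r - t) (S \ T), ∑ X ∈ powersetCard (s - t) ((T ∪ Y) \ (S \ Y)),
        eps (a ^ d) ((S \ Y) ∪ X) ((T ∪ Y) \ X) *
          K (vs ((S \ Y) ∪ X) ++ (vs ((T ∪ Y) \ X) ++ B)) = 0 := by
      have h3 : (S \ T).card < r - t := by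
        have h4 : (S \ T).card ≤ k := hS ▸ Finset.card_le_card Finset.sdiff_subset
        have h5 : (S \ T).card + T.card ≤ d := by
          rw [← Finset.card_union_of_disjoint Finset.sdiff_disjoint]
          exact card_le_d _
        omega
      rw [Finset.powersetCard_eq_empty.mpr h3, Finset.sum_empty]
    rw [hz]
    ring

theorem sk_squareEF (ha : a ≠ 0) (hd : (a ^ d) ^ 2 = 1) (hQ : QB (a ^ d)) {k l r s : ℕ}
    (h : k ≤ d ∧ l ≤ d ∧ r ≤ k ∧ l + r ≤ d ∧ s ≤ l + r ∧ k - r + s ≤ d) :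
    SkEq (d := d) a (lab d k ++ lab d l)
      [(1, ladE d k l r ++ ladF d (k - r) (l + r) s)]
      (((List.range (min r s + 1)).filter fun t => s ≤ l + t ∧ k + s ≤ d + t).map fun t =>
        (qbin (a ^ d) ((k : ℤ) - l + s - r) t,
          ladF d k l (s - t) ++ ladE d (k + (s - t)) (l - (s - t)) (r - t))) := by
  obtain ⟨hk, hl, hr, hlr, hs, hks⟩ := h
  intro cs hcs B K
  obtain ⟨c1, c2, rfl, h1, h2⟩ := List.map_eq_append_iff.mp hcs
  obtain ⟨S, hS, rfl⟩ := exists_vs hk h1
  obtain ⟨T, hT, rfl⟩ := exists_vs hl h2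
  rw [List.append_assoc, List.map_map, sum_filter_range (min r s + 1)
    (fun t => s ≤ l + t ∧ k + s ≤ d + t)]
  simp only [List.map_cons, List.map_nil, List.sum_cons, List.sum_nil, add_zero, one_mul]
  have hcomb := comb_EF (fun x y => eps (a ^ d) x y * K (vs x ++ (vs y ++ B))) S T r s
  rw [actW_EF hd hS hT hr hlr hs hks, hcomb, Finset.mul_sum]
  apply Finset.sum_congr rfl
  intro t ht
  rw [Finset.mem_range] at ht
  rw [hS, hT]
  split_ifs with hc
  · obtain ⟨hc1, hc2⟩ := hc
    simp only [Function.comp]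
    rw [actW_FE hd hS hT (by omega) (by omega) (by omega) (by omega), hQ]
    have hpar : (a ^ d) ^ ((k - r) * r) * (a ^ d) ^ (s * (l + r - s)) =
        (a ^ d) ^ (t * (((k : ℤ) - l + s - r).natAbs + t)) *
          ((a ^ d) ^ ((s - t) * (l - (s - t))) *
            (a ^ d) ^ ((k + (s - t) - (r - t)) * (r - t))) := by
      rw [← pow_add, ← pow_add, ← pow_add]
      apply pow_par' hd
      obtain ⟨r', rfl⟩ : ∃ r', r = t + r' := ⟨r - t, by omega⟩
      obtain ⟨s', rfl⟩ : ∃ s', s = t + s' := ⟨s - t, by omega⟩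
      obtain ⟨l', rfl⟩ : ∃ l', l = s' + l' := ⟨l - s', by omega⟩
      obtain ⟨k', rfl⟩ : ∃ k', k = t + r' + k' := ⟨k - (t + r'), by omega⟩
      have e1 : t + r' + k' - (t + r') = k' := by omega
      have e2 : s' + l' + (t + r') - (t + s') = l' + r' := by omega
      have e3 : t + r' - t = r' := by omega
      have e5 : t + s' - t = s' := by omega
      have e4 : s' + l' - s' = l' := by omega
      have e6 : t + r' + k' + s' - r' = t + k' + s' := by omega
      rw [e1, e2, e3, e5, e4, e6]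
      push_cast
      rw [natAbs_cast']
      push_cast
      have h2 : (2 : ZMod 2) = 0 := rfl
      linear_combination (-(t : ZMod 2) ^ 2 + (t : ZMod 2) * l') * h2
    rw [hpar]
    ring
  · have hz : ∑ X ∈ powersetCard (s - t) (T \ S), ∑ Y ∈ powersetCard (r - t) ((S ∪ X) \ (T \ X)),
        eps (a ^ d) ((S ∪ X) \ Y) ((T \ X) ∪ Y) *
          K (vs ((S ∪ X) \ Y) ++ (vs ((T \ X) ∪ Y) ++ B)) = 0 := by
      have h3 : (T \ S).card < s - t := by
        have h4 : (T \ S).card ≤ l := hT ▸ Finset.card_le_card Finset.sdiff_subset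
        have h5 : (T \ S).card + S.card ≤ d := by
          rw [← Finset.card_union_of_disjoint Finset.sdiff_disjoint]
          exact card_le_d _
        omega
      rw [Finset.powersetCard_eq_empty.mpr h3, Finset.sum_empty]
    rw [hz]
    ring

end Pool.Agent.Helper26.SK.G
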