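import Pool.Agent.Helper26.SK.G.Defs

/-! This file is the work of helper66. -/

/-!
# Isotopy invariance of the evaluation for general `d`: the four moves with vertices
-/

namespace Pool.Agent.Helper26.SK.G
open Str Piece
variable {d : ℕ} {a : ℂ}

/-- The moves with vertices. -/
inductive Vert (d : ℕ) : List Piece → List Piece → Prop
  | slideMerge (i k l : ℕ) (o : Bool) :
      Vert d (merge i k l :: (if k + l < d then [cr i o] else []))
        [cr (i + 1) o, cr i o, merge (i + 1) k l]
  | slideSplit (i k l : ℕ) (o : Bool) :
      Vert d ((if k + l < d then [cr i o] else []) ++ [split (i + 1) k l])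
        [split i k l, cr (i + 1) o, cr i o]
  | turnMerge (i k l : ℕ) :
      Vert d ([cup (i + vis d (k + l)) true k, cup (i + vis d (k + l) + 1) true l,
          merge (i + vis d (k + l)) k l] ++ (if k + l < d then [cap i] else []))
        ([cup i false l, cup (i + 1) false k, merge (i + 2) k l] ++
          (if k + l < d then [cap (i + 2)] else []))
  | turnSplit (i k l : ℕ) :
      Vert d ((if k + l < d then [cup (i + 2) true (k + l)] else []) ++
          [split (i + 2) k l, cap (i + 1), cap i])
        ((if k + l < d then [cup i false (k + l)] else []) ++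
          [split (i + vis d (k + l)) k l, cap (i + vis d (k + l) + 1), cap (i + vis d (k + l))])

namespace VertAux

/-! ### Lengths -/

theorem step_length {p : Piece} {s t : List Str} (h : Step d p s t) :
    p.pos + p.inn d ≤ s.length ∧ t.length + p.inn d = s.length + p.out d := by
  cases h with
  | cup A B u k h => simp [Piece.pos, Piece.inn, Piece.out]; omega
  | cap A B u k => simp [Piece.pos, Piece.inn, Piece.out]; omega
  | cr A B x y o h => simp [Piece.pos, Piece.inn, Piece.out]
  | merge A B k l h => simp [Piece.pos, Piece.inn, Piece.out, length_lab]; omega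
  | split A B k l h => simp [Piece.pos, Piece.inn, Piece.out, length_lab]; omega

theorem step_merge {i k l : ℕ} {s t : List Str} (h : Step d (merge i k l) s t) :
    0 < k ∧ 0 < l ∧ k + l ≤ d := by
  cases h with
  | merge A B k l h => exact h

theorem step_split {i k l : ℕ} {s t : List Str} (h : Step d (split i k l) s t) :
    0 < k ∧ 0 < l ∧ k + l ≤ d := by
  cases h with
  | split A B k l h => exact h

theorem exists_append {i : ℕ} {cs : List (CS d)} (h : i ≤ cs.length) :
    ∃ A cs', cs = A ++ cs' ∧ A.length = i :=
  ⟨cs.take i, cs.drop i, (List.take_append_drop _ _).symm, List.length_take_of_le h⟩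

/-- Reduction to position zero. -/
theorem reduce {D E D0 E0 : List Piece} {i : ℕ} (hD : D = D0.map (shift i))
    (hE : E = E0.map (shift i)) {cs : List (CS d)} {n : ℕ} (hn : i + n ≤ cs.length)
    (h : ∀ (cs' : List (CS d)), n ≤ cs'.length → ∀ K : Cont d, actW a D0 cs' K = actW a E0 cs' K)
    (K : Cont d) : actW a D cs K = actW a E cs K := by
  obtain ⟨A, cs', rfl, hA⟩ := exists_append (show i ≤ cs.length by omega)
  subst hA
  rw [hD, hE, actW_shift, actW_shift]
  apply h
  rw [List.length_append] at hn
  omega

theorem exists_cons {n : ℕ} {cs : List (CS d)} (h : n + 1 ≤ cs.length) :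
    ∃ x cs', cs = x :: cs' ∧ n ≤ cs'.length := by
  match cs, h with
  | x :: cs', h => exact ⟨x, cs', rfl, by simpa using h⟩

/-! ### Coefficients -/

theorem wgt_union {S T : Finset (Fin d)} (h : Disjoint S T) (U : Finset (Fin d)) :
    wgt a (S ∪ T) U = wgt a S U * wgt a T U := by
  unfold wgt
  rw [Finset.card_union_of_disjoint h, Finset.union_inter_distrib_right,
    Finset.card_union_of_disjoint (h.mono Finset.inter_subset_left Finset.inter_subset_left),
    add_mul, pow_add, pow_add]
  ring

theorem cf_union (o : Bool) {S T : Finset (Fin d)} (h : Disjoint S T) (z : CS d) :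
    cf a o (.web true (S ∪ T)) z = cf a o (.web true S) z * cf a o (.web true T) z := by
  cases z with
  | pole x hx =>
    cases o
    · simp only [cf, Bool.false_eq_true, if_false, if_true]
      exact Finset.prod_union h
    · simp [cf]
  | web u U =>
    simp only [cf, wgt_union h]
    split_ifs
    · rfl
    · rw [mul_inv]

theorem wgt_univ (ha : a ≠ 0) (U : Finset (Fin d)) : wgt a (Finset.univ : Finset (Fin d)) U = 1 := by
  unfold wgt
  rw [Finset.univ_inter, Finset.card_univ, Fintype.card_fin, ← pow_mul, inv_pow,
    inv_mul_cancel₀ (pow_ne_zero _ ha)]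

theorem cf_univ (ha : a ≠ 0) (o : Bool) (z : CS d) :
    cf a o (.web true Finset.univ) z = 1 := by
  cases z with
  | pole x hx =>
    cases o
    · simp only [cf, Bool.false_eq_true, if_false, if_true]
      exact hx
    · simp [cf]
  | web u U =>
    simp only [cf, wgt_univ ha]
    split_ifs <;> simp

theorem kap_add (q : ℂ) (k l : ℕ) : kap d q (k + l) = kap d q k * kap d q l := by
  unfold kap
  rw [mul_add, pow_add]

theorem kap_sq {q : ℂ} (hq : q ^ 2 = 1) (k : ℕ) : kap d q k * kap d q k = 1 := by
  unfold kap
  rw [← pow_add, ← two_mul, pow_mul, hq, one_pow]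

theorem kap_self {q : ℂ} (hq : q ^ 2 = 1) : kap d q d = 1 := by
  unfold kap
  obtain ⟨m, hm⟩ := Nat.even_mul_succ_self d
  rw [mul_comm, show d * (d + 1) = 2 * m by rw [hm]; ring, pow_mul, hq, one_pow]

/-! ### The action at small positions -/

theorem act_cr1 (o : Bool) (z x y : CS d) (B : List (CS d)) (K : Cont d) :
    act a (cr 1 o) (z :: x :: y :: B) K = cf a o x y * K (z :: y :: x :: B) := by
  have := act_shift_one_cons (a := a) (cr 0 o) z (x :: y :: B) K
  rw [act_cr0] at this
  exact this

/-- the coefficient of a local maximum -/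
noncomputable def capc (a : ℂ) (x y : CS d) : ℂ :=
  ((locCap a [x, y]).map fun w => w.1).sum

theorem act_cap0' (x y : CS d) (B : List (CS d)) (K : Cont d) :
    act a (cap 0) (x :: y :: B) K = capc a x y * K B := by
  change base a (cap 0) (x :: y :: B) K = _
  unfold base capc
  simp only [Piece.inn, List.length_cons, Nat.le_add_left, ↓reduceIte, loc, List.take_succ_cons,
    List.take_zero, List.drop_succ_cons, List.drop_zero]
  unfold locCap
  split
  · split_ifs <;> simp
  · simp

theorem act_cap1 (z x y : CS d) (B : List (CS d)) (K : Cont d) :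
    act a (cap 1) (z :: x :: y :: B) K = capc a x y * K (z :: B) := by
  have := act_shift_one_cons (a := a) (cap 0) z (x :: y :: B) K
  rw [act_cap0'] at this
  exact this

theorem act_cap2 (z z' x y : CS d) (B : List (CS d)) (K : Cont d) :
    act a (cap 2) (z :: z' :: x :: y :: B) K = capc a x y * K (z :: z' :: B) := by
  have := act_shift_one_cons (a := a) (cap 1) z (z' :: x :: y :: B) K
  rw [act_cap1] at this
  exact this

/-- Turning around a local maximum. -/
theorem capc_turn (V : Finset (Fin d)) (x : CS d) :
    capc a (.web true V) x = kap d (a ^ d) V.card * capc a x (.web true V) := by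
  unfold capc
  cases x with
  | pole x hx => simp [locCap]
  | web u U =>
    cases u
    · by_cases h : V = U
      · subst h
        simp [locCap]
      · simp [locCap, h, Ne.symm h]
    · simp [locCap]

theorem act_cup1 (u : Bool) (k : ℕ) (z : CS d) (r : List (CS d)) (K : Cont d) :
    act a (cup 1 u k) (z :: r) K = ∑ S ∈ Finset.powersetCard k (Finset.univ : Finset (Fin d)),
      (if u then 1 else kap d (a ^ d) k) * K (z :: CS.web u S :: CS.web (!u) S :: r) := by
  have := act_shift_one_cons (a := a) (cup 0 u k) z r K
  rw [act_cup0] at this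
  exact this

theorem act_cup2 (u : Bool) (k : ℕ) (z z' : CS d) (r : List (CS d)) (K : Cont d) :
    act a (cup 2 u k) (z :: z' :: r) K =
      ∑ S ∈ Finset.powersetCard k (Finset.univ : Finset (Fin d)),
        (if u then 1 else kap d (a ^ d) k) * K (z :: z' :: CS.web u S :: CS.web (!u) S :: r) := by
  have := act_shift_one_cons (a := a) (cup 1 u k) z (z' :: r) K
  rw [act_cup1] at this
  exact this

theorem act_merge1 {k l : ℕ} (z : CS d) (S T : Finset (Fin d)) (hS : S.card = k) (hT : T.card = l)
    (r : List (CS d)) (K : Cont d) :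
    act a (merge 1 k l) (z :: CS.web true S :: CS.web true T :: r) K =
      if Disjoint S T then eps (a ^ d) S T *
        K (z :: ((if vis d (k + l) = 1 then [CS.web true (S ∪ T)] else []) ++ r)) else 0 := by
  have := act_shift_one_cons (a := a) (merge 0 k l) z (CS.web true S :: CS.web true T :: r) K
  rw [act_merge0 S T hS hT] at this
  exact this

theorem act_merge2 {k l : ℕ} (z z' : CS d) (S T : Finset (Fin d)) (hS : S.card = k)
    (hT : T.card = l) (r : List (CS d)) (K : Cont d) :
    act a (merge 2 k l) (z :: z' :: CS.web true S :: CS.web true T :: r) K =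
      if Disjoint S T then eps (a ^ d) S T *
        K (z :: z' :: ((if vis d (k + l) = 1 then [CS.web true (S ∪ T)] else []) ++ r)) else 0 := by
  have := act_shift_one_cons (a := a) (merge 1 k l) z (z' :: CS.web true S :: CS.web true T :: r) K
  rw [act_merge1 z' S T hS hT] at this
  exact this

theorem act_split1 {k l : ℕ} (h : vis d (k + l) = 1) (z : CS d) (U : Finset (Fin d))
    (hU : U.card = k + l) (r : List (CS d)) (K : Cont d) :
    act a (split 1 k l) (z :: CS.web true U :: r) K = ∑ S ∈ Finset.powersetCard k U,
      (a ^ d) ^ (k * l) * eps (a ^ d) S (U \ S) *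
        K (z :: CS.web true S :: CS.web true (U \ S) :: r) := by
  have := act_shift_one_cons (a := a) (split 0 k l) z (CS.web true U :: r) K
  rw [act_split0 h U hU] at this
  exact this

theorem act_split2 {k l : ℕ} (h : vis d (k + l) = 1) (z z' : CS d) (U : Finset (Fin d))
    (hU : U.card = k + l) (r : List (CS d)) (K : Cont d) :
    act a (split 2 k l) (z :: z' :: CS.web true U :: r) K = ∑ S ∈ Finset.powersetCard k U,
      (a ^ d) ^ (k * l) * eps (a ^ d) S (U \ S) *
        K (z :: z' :: CS.web true S :: CS.web true (U \ S) :: r) := by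
  have := act_shift_one_cons (a := a) (split 1 k l) z (z' :: CS.web true U :: r) K
  rw [act_split1 h z' U hU] at this
  exact this

theorem act_split1_tag {k l : ℕ} (h : k + l = d) (z : CS d) (r : List (CS d)) (K : Cont d) :
    act a (split 1 k l) (z :: r) K = ∑ S ∈ Finset.powersetCard k (Finset.univ : Finset (Fin d)),
      (a ^ d) ^ (k * l) * eps (a ^ d) S (Finset.univ \ S) *
        K (z :: CS.web true S :: CS.web true (Finset.univ \ S) :: r) := by
  have := act_shift_one_cons (a := a) (split 0 k l) z r K
  rw [act_split0_tag h] at this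
  exact this

theorem act_split2_tag {k l : ℕ} (h : k + l = d) (z z' : CS d) (r : List (CS d)) (K : Cont d) :
    act a (split 2 k l) (z :: z' :: r) K =
      ∑ S ∈ Finset.powersetCard k (Finset.univ : Finset (Fin d)),
      (a ^ d) ^ (k * l) * eps (a ^ d) S (Finset.univ \ S) *
        K (z :: z' :: CS.web true S :: CS.web true (Finset.univ \ S) :: r) := by
  have := act_shift_one_cons (a := a) (split 1 k l) z (z' :: r) K
  rw [act_split1_tag h z'] at this
  exact this

theorem vis_of_lt {k l : ℕ} (hk : 0 < k) (h : k + l < d) : vis d (k + l) = 1 := by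
  simp [vis, h]
  omega

theorem vis_of_not_lt {k l : ℕ} (h : ¬ k + l < d) : vis d (k + l) = 0 := by
  simp [vis, h]

/-! ### Slides -/

theorem act_merge0_gen (k l : ℕ) (x y : CS d) (B : List (CS d)) (K : Cont d) :
    act a (merge 0 k l) (x :: y :: B) K =
      ((locMerge a k l [x, y]).map fun w => w.1 * K (w.2 ++ B)).sum := by
  change base a (merge 0 k l) (x :: y :: B) K = _
  unfold base
  simp [Piece.inn, loc]

theorem act_merge1_gen (k l : ℕ) (z x y : CS d) (B : List (CS d)) (K : Cont d) :
    act a (merge 1 k l) (z :: x :: y :: B) K =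
      ((locMerge a k l [x, y]).map fun w => w.1 * K (z :: (w.2 ++ B))).sum := by
  have := act_shift_one_cons (a := a) (merge 0 k l) z (x :: y :: B) K
  rw [act_merge0_gen] at this
  exact this

theorem slideMerge_loc (ha : a ≠ 0) {k l : ℕ} (h : 0 < k ∧ 0 < l ∧ k + l ≤ d) (o : Bool)
    (cs : List (CS d)) (hcs : 3 ≤ cs.length) (K : Cont d) :
    actW a (merge 0 k l :: (if k + l < d then [cr 0 o] else [])) cs K =
      actW a [cr 1 o, cr 0 o, merge 1 k l] cs K := by
  obtain ⟨x, cs1, rfl, hcs1⟩ := exists_cons hcs
  obtain ⟨y, cs2, rfl, hcs2⟩ := exists_cons hcs1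
  obtain ⟨z, B, rfl, -⟩ := exists_cons hcs2
  have hR : actW a [cr 1 o, cr 0 o, merge 1 k l] (x :: y :: z :: B) K =
      cf a o y z * (cf a o x z *
        ((locMerge a k l [x, y]).map fun w => w.1 * K (z :: (w.2 ++ B))).sum) := by
    simp only [actW, act_cr1, act_cr0, act_merge1_gen]
  have hL : actW a (merge 0 k l :: (if k + l < d then [cr 0 o] else [])) (x :: y :: z :: B) K =
      ((locMerge a k l [x, y]).map fun w => w.1 *
        actW a (if k + l < d then [cr 0 o] else []) (w.2 ++ z :: B) K).sum := by
    simp only [actW, act_merge0_gen]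
  rw [hR, hL]
  have hz : ∀ (p r : ℂ) (X : List (ℂ × List (CS d))), X = [] →
      (X.map fun w => w.1 *
        actW a (if k + l < d then [cr 0 o] else []) (w.2 ++ z :: B) K).sum =
      p * (r * (X.map fun w => w.1 * K (z :: (w.2 ++ B))).sum) := by
    rintro p r X rfl
    simp
  match x, y with
  | .web true S, .web true T =>
    by_cases hc : S.card = k ∧ T.card = l ∧ Disjoint S T
    · obtain ⟨hS, hT, hST⟩ := hc
      by_cases hkl : k + l < d
      · have e1 : locMerge a k l [.web true S, .web true T] =
            [(eps (a ^ d) S T, [CS.web true (S ∪ T)])] := by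
          simp only [locMerge, hS, hT, hST, vis_of_lt h.1 hkl, and_self, if_true]
        rw [e1, if_pos hkl]
        simp only [List.map_cons, List.map_nil, List.sum_cons, List.sum_nil, add_zero, actW,
          List.cons_append, List.nil_append, act_cr0]
        rw [cf_union o hST z]
        ring
      · have e1 : locMerge a k l [.web true S, .web true T] = [(eps (a ^ d) S T, [])] := by
          simp [locMerge, hS, hT, hST, vis_of_not_lt hkl]
        rw [e1, if_neg hkl]
        simp only [List.map_cons, List.map_nil, List.sum_cons, List.sum_nil, add_zero, actW,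
          List.nil_append]
        have hu : S ∪ T = Finset.univ := by
          apply Finset.eq_univ_of_card
          rw [Finset.card_union_of_disjoint hST, hS, hT, Fintype.card_fin]
          omega
        have h1 := cf_union (a := a) o hST z
        rw [hu, cf_univ ha] at h1
        linear_combination (eps (a ^ d) S T * K (z :: B)) * h1
    · apply hz
      simp only [locMerge, if_neg hc]
  | .web false _, _ => exact hz _ _ _ rfl
  | .pole _ _, _ => exact hz _ _ _ rfl
  | .web true _, .web false _ => exact hz _ _ _ rfl
  | .web true _, .pole _ _ => exact hz _ _ _ rfl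

theorem act_split0_gen {k l : ℕ} (hv : vis d (k + l) = 1) (x : CS d) (B : List (CS d))
    (K : Cont d) : act a (split 0 k l) (x :: B) K =
      ((locSplit a k l [x]).map fun w => w.1 * K (w.2 ++ B)).sum := by
  change base a (split 0 k l) (x :: B) K = _
  unfold base
  simp [Piece.inn, loc, hv]

theorem act_split1_gen {k l : ℕ} (hv : vis d (k + l) = 1) (z x : CS d) (B : List (CS d))
    (K : Cont d) : act a (split 1 k l) (z :: x :: B) K =
      ((locSplit a k l [x]).map fun w => w.1 * K (z :: (w.2 ++ B))).sum := by
  have := act_shift_one_cons (a := a) (split 0 k l) z (x :: B) K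
  rw [act_split0_gen hv] at this
  exact this

theorem slideSplit_loc (ha : a ≠ 0) {k l : ℕ} (h : 0 < k ∧ 0 < l ∧ k + l ≤ d) (o : Bool)
    (cs : List (CS d)) (hcs : vis d (k + l) + 1 ≤ cs.length) (K : Cont d) :
    actW a ((if k + l < d then [cr 0 o] else []) ++ [split 1 k l]) cs K =
      actW a [split 0 k l, cr 1 o, cr 0 o] cs K := by
  by_cases hkl : k + l < d
  · have hv : vis d (k + l) = 1 := vis_of_lt h.1 hkl
    rw [hv] at hcs
    obtain ⟨x, cs1, rfl, hcs1⟩ := exists_cons hcs
    obtain ⟨y, B, rfl, -⟩ := exists_cons hcs1
    rw [if_pos hkl]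
    match x with
    | .web true U =>
      by_cases hU : U.card = k + l
      · simp only [List.cons_append, List.nil_append, actW, act_cr0, act_split0 hv U hU,
          act_split1 hv y U hU, act_cr1]
        rw [Finset.mul_sum]
        apply Finset.sum_congr rfl
        intro S hS
        rw [Finset.mem_powersetCard] at hS
        have h3 := cf_union (a := a) o (Finset.disjoint_sdiff (s := S) (t := U)) y
        rw [Finset.union_sdiff_of_subset hS.1] at h3
        rw [h3]
        ring
      · simp only [List.cons_append, List.nil_append, actW, act_cr0, act_split0_gen hv,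
          act_split1_gen hv]
        simp [locSplit, if_neg hU]
    | .web false _ =>
      simp only [List.cons_append, List.nil_append, actW, act_cr0, act_split0_gen hv,
        act_split1_gen hv]
      simp [locSplit]
    | .pole _ _ =>
      simp only [List.cons_append, List.nil_append, actW, act_cr0, act_split0_gen hv,
        act_split1_gen hv]
      simp [locSplit]
  · have hv : vis d (k + l) = 0 := vis_of_not_lt hkl
    have hkl' : k + l = d := by omega
    rw [hv] at hcs
    obtain ⟨y, B, rfl, -⟩ := exists_cons hcs
    rw [if_neg hkl]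
    simp only [List.nil_append, actW, act_split0_tag hkl', act_split1_tag hkl', act_cr1, act_cr0]
    apply Finset.sum_congr rfl
    intro S hS
    rw [Finset.mem_powersetCard] at hS
    have h3 := cf_union (a := a) o (Finset.disjoint_sdiff (s := S) (t := Finset.univ)) y
    rw [Finset.union_sdiff_of_subset hS.1, cf_univ ha] at h3
    linear_combination ((a ^ d) ^ (k * l) * eps (a ^ d) S (Finset.univ \ S) *
      K (y :: CS.web true S :: CS.web true (Finset.univ \ S) :: B)) * h3

/-! ### Turns -/

theorem turnMerge_loc (hd : (a ^ d) ^ 2 = 1) {k l : ℕ} (h : 0 < k ∧ 0 < l ∧ k + l ≤ d)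
    (cs : List (CS d)) (hcs : vis d (k + l) ≤ cs.length) (K : Cont d) :
    actW a ([cup (vis d (k + l)) true k, cup (vis d (k + l) + 1) true l,
        merge (vis d (k + l)) k l] ++ (if k + l < d then [cap 0] else [])) cs K =
      actW a ([cup 0 false l, cup 1 false k, merge 2 k l] ++
        (if k + l < d then [cap 2] else [])) cs K := by
  by_cases hkl : k + l < d
  · have hv : vis d (k + l) = 1 := vis_of_lt h.1 hkl
    rw [hv] at hcs
    obtain ⟨x, B, rfl, -⟩ := exists_cons (n := 0) hcs
    rw [if_pos hkl, if_pos hkl, hv]
    simp only [List.cons_append, List.nil_append, actW]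
    rw [act_cup1, act_cup0]
    simp only [show (1 : ℕ) + 1 = 2 from rfl, act_cup2, act_cup1, Bool.not_true, Bool.not_false,
      Bool.false_eq_true, if_false, if_true, one_mul]
    simp only [Finset.mul_sum]
    rw [Finset.sum_comm]
    apply Finset.sum_congr rfl
    intro T hT
    apply Finset.sum_congr rfl
    intro S hS
    rw [Finset.mem_powersetCard] at hS hT
    rw [act_merge1 x S T hS.2 hT.2, act_merge2 _ _ S T hS.2 hT.2]
    by_cases hST : Disjoint S T
    · rw [if_pos hST, if_pos hST, if_pos hv]
      simp only [List.cons_append, List.nil_append, act_cap0', act_cap2]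
      rw [capc_turn, Finset.card_union_of_disjoint hST, hS.2, hT.2, kap_add]
      have e1 := kap_sq (d := d) hd k
      have e2 := kap_sq (d := d) hd l
      have e3 : kap d (a ^ d) l * (kap d (a ^ d) k * (kap d (a ^ d) k * kap d (a ^ d) l)) = 1 := by
        linear_combination (kap d (a ^ d) l * kap d (a ^ d) l) * e1 + e2
      linear_combination (-(eps (a ^ d) S T * capc a x (CS.web true (S ∪ T)) *
        K (CS.web false T :: CS.web false S :: B))) * e3
    · simp [hST]
  · have hv : vis d (k + l) = 0 := vis_of_not_lt hkl
    have hkl' : k + l = d := by omega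
    rw [if_neg hkl, if_neg hkl, hv]
    simp only [List.append_nil, actW]
    rw [act_cup0, act_cup0]
    simp only [show (0 : ℕ) + 1 = 1 from rfl, act_cup1, Bool.not_true, Bool.not_false,
      Bool.false_eq_true, if_false, if_true, one_mul]
    simp only [Finset.mul_sum]
    rw [Finset.sum_comm]
    apply Finset.sum_congr rfl
    intro T hT
    apply Finset.sum_congr rfl
    intro S hS
    rw [Finset.mem_powersetCard] at hS hT
    rw [act_merge0 S T hS.2 hT.2, act_merge2 _ _ S T hS.2 hT.2]
    by_cases hST : Disjoint S T
    · rw [if_pos hST, if_pos hST, hv]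
      simp only [zero_ne_one, if_false, List.nil_append]
      have e3 : kap d (a ^ d) l * kap d (a ^ d) k = 1 := by
        rw [mul_comm, ← kap_add, hkl', kap_self hd]
      linear_combination (-(eps (a ^ d) S T *
        K (CS.web false T :: CS.web false S :: cs))) * e3
    · simp [hST]

theorem turnSplit_loc (hd : (a ^ d) ^ 2 = 1) {k l : ℕ} (h : 0 < k ∧ 0 < l ∧ k + l ≤ d)
    (cs : List (CS d)) (hcs : 2 ≤ cs.length) (K : Cont d) :
    actW a ((if k + l < d then [cup 2 true (k + l)] else []) ++
        [split 2 k l, cap 1, cap 0]) cs K =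
      actW a ((if k + l < d then [cup 0 false (k + l)] else []) ++
        [split (vis d (k + l)) k l, cap (vis d (k + l) + 1), cap (vis d (k + l))]) cs K := by
  obtain ⟨x, cs1, rfl, hcs1⟩ := exists_cons hcs
  obtain ⟨y, B, rfl, -⟩ := exists_cons hcs1
  by_cases hkl : k + l < d
  · have hv : vis d (k + l) = 1 := vis_of_lt h.1 hkl
    rw [if_pos hkl, if_pos hkl, hv]
    simp only [List.cons_append, List.nil_append, actW]
    rw [act_cup2, act_cup0]
    apply Finset.sum_congr rfl
    intro U hU
    rw [Finset.mem_powersetCard] at hU
    simp only [Bool.not_true, Bool.not_false, Bool.false_eq_true, if_false, if_true, one_mul,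
      show (1 : ℕ) + 1 = 2 from rfl]
    rw [act_split2 hv _ _ U hU.2, act_split1 hv _ U hU.2, Finset.mul_sum]
    apply Finset.sum_congr rfl
    intro S hS
    rw [Finset.mem_powersetCard] at hS
    have hl : (U \ S).card = l := by
      rw [Finset.card_sdiff_of_subset hS.1, hU.2, hS.2]; omega
    simp only [act_cap1, act_cap0', act_cap2]
    rw [capc_turn (U \ S) x, capc_turn S y, hl, hS.2, kap_add]
    have e1 := kap_sq (d := d) hd k
    have e2 := kap_sq (d := d) hd l
    have e3 : kap d (a ^ d) k * kap d (a ^ d) l * (kap d (a ^ d) l * kap d (a ^ d) k) = 1 := by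
      linear_combination (kap d (a ^ d) l * kap d (a ^ d) l) * e1 + e2
    linear_combination (-((a ^ d) ^ (k * l) * eps (a ^ d) S (U \ S) *
      capc a y (CS.web true S) * capc a x (CS.web true (U \ S)) * K (CS.web false U :: B))) * e3
  · have hv : vis d (k + l) = 0 := vis_of_not_lt hkl
    have hkl' : k + l = d := by omega
    rw [if_neg hkl, if_neg hkl, hv]
    simp only [List.nil_append, actW, show (0 : ℕ) + 1 = 1 from rfl]
    rw [act_split2_tag hkl', act_split0_tag hkl']
    apply Finset.sum_congr rfl
    intro S hS
    rw [Finset.mem_powersetCard] at hS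
    have hl : ((Finset.univ : Finset (Fin d)) \ S).card = l := by
      rw [Finset.card_sdiff_of_subset hS.1, Finset.card_univ, Fintype.card_fin, hS.2]; omega
    simp only [act_cap1, act_cap0']
    rw [capc_turn (Finset.univ \ S) x, capc_turn S y, hl, hS.2]
    have e3 : kap d (a ^ d) l * kap d (a ^ d) k = 1 := by
      rw [mul_comm, ← kap_add, hkl', kap_self hd]
    linear_combination (-((a ^ d) ^ (k * l) * eps (a ^ d) S (Finset.univ \ S) *
      capc a y (CS.web true S) * capc a x (CS.web true (Finset.univ \ S)) * K B)) * e3

end VertAux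

open VertAux

theorem actW_vert (ha : a ≠ 0) (hd : (a ^ d) ^ 2 = 1) {D E : List Piece} (h : Vert d D E)
    {s t : List Str} (hD : Run d D s t) (hE : Run d E s t) (cs : List (CS d))
    (hcs : cs.map ty = s) (K : Cont d) : actW a D cs K = actW a E cs K := by
  have hlen : s.length = cs.length := by rw [← hcs, List.length_map]
  cases h with
  | slideMerge i m l o =>
    have hml : 0 < m ∧ 0 < l ∧ m + l ≤ d := by
      obtain ⟨r, hr, -⟩ := hD
      exact step_merge hr
    have hn : i + 3 ≤ cs.length := by
      obtain ⟨r, hr, -⟩ := hE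
      have := (step_length hr).1
      simp only [Piece.pos, Piece.inn] at this
      omega
    refine reduce (i := i) (D0 := merge 0 m l :: (if m + l < d then [cr 0 o] else []))
      (E0 := [cr 1 o, cr 0 o, merge 1 m l]) ?_ ?_ hn (slideMerge_loc ha hml o) K
    · split_ifs <;> simp [Piece.shift]
    · simp [Piece.shift, Nat.add_comm]
  | slideSplit i m l o =>
    have hml : 0 < m ∧ 0 < l ∧ m + l ≤ d := by
      obtain ⟨r, hr, -⟩ := hE
      exact step_split hr
    have hn : i + (vis d (m + l) + 1) ≤ cs.length := by
      obtain ⟨r, hr, r', hr', -⟩ := hE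
      have h1 := step_length hr
      have h2 := step_length hr'
      simp only [Piece.pos, Piece.inn, Piece.out] at h1 h2
      omega
    refine reduce (i := i) (D0 := (if m + l < d then [cr 0 o] else []) ++ [split 1 m l])
      (E0 := [split 0 m l, cr 1 o, cr 0 o]) ?_ ?_ hn (slideSplit_loc ha hml o) K
    · split_ifs <;> simp [Piece.shift, Nat.add_comm]
    · simp [Piece.shift, Nat.add_comm]
  | turnMerge i m l =>
    have hml : 0 < m ∧ 0 < l ∧ m + l ≤ d := by
      obtain ⟨r, hr, r', hr', r'', hr'', -⟩ := hE
      exact step_merge hr''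
    have hn : i + vis d (m + l) ≤ cs.length := by
      obtain ⟨r, hr, -⟩ := hD
      have h1 := step_length hr
      simp only [Piece.pos, Piece.inn, Piece.out] at h1
      omega
    refine reduce (i := i) (D0 := [cup (vis d (m + l)) true m, cup (vis d (m + l) + 1) true l,
        merge (vis d (m + l)) m l] ++ (if m + l < d then [cap 0] else []))
      (E0 := [cup 0 false l, cup 1 false m, merge 2 m l] ++
        (if m + l < d then [cap 2] else [])) ?_ ?_ hn (turnMerge_loc hd hml) K
    · split_ifs <;> simp [Piece.shift, Nat.add_comm, Nat.add_left_comm]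
    · split_ifs <;> simp [Piece.shift, Nat.add_comm]
  | turnSplit i m l =>
    have hml : 0 < m ∧ 0 < l ∧ m + l ≤ d := by
      split_ifs at hE with hml
      · obtain ⟨r, hr, r', hr', -⟩ := hE
        exact step_split hr'
      · obtain ⟨r, hr, -⟩ := hE
        exact step_split hr
    have hn : i + 2 ≤ cs.length := by
      split_ifs at hD with hml
      · obtain ⟨r, hr, -⟩ := hD
        have h1 := step_length hr
        simp only [Piece.pos, Piece.inn, Piece.out] at h1
        omega
      · obtain ⟨r, hr, -⟩ := hD
        have h1 := step_length hr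
        simp only [Piece.pos, Piece.inn, Piece.out] at h1
        omega
    refine reduce (i := i) (D0 := (if m + l < d then [cup 2 true (m + l)] else []) ++
        [split 2 m l, cap 1, cap 0])
      (E0 := (if m + l < d then [cup 0 false (m + l)] else []) ++
        [split (vis d (m + l)) m l, cap (vis d (m + l) + 1), cap (vis d (m + l))]) ?_ ?_ hn
      (turnSplit_loc hd hml) K
    · split_ifs <;> simp [Piece.shift, Nat.add_comm]
    · split_ifs <;> simp [Piece.shift, Nat.add_comm, Nat.add_left_comm]

end Pool.Agent.Helper26.SK.G
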