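import Pool.Agent.Helper26.SK.G.Main
import Pool.Agent.Helper26.SK.G.Plain
import Pool.Agent.Helper26.SK.G.Cable
import Pool.Agent.Helper26.SK.G.Vert
import Pool.Agent.Helper26.SK.G.Qbin
import Pool.Agent.Helper26.SK.G.Loops
import Pool.Agent.Helper26.SK.G.Squares
import Pool.Agent.Helper26.SK.G.Cross

/-!
# The counterexample
-/

namespace Pool.Agent.Helper26.SK.G

open Str Piece

variable {d : ℕ} {a : ℂ}

theorem good (ha : a ≠ 0) (hd : (a ^ d) ^ 2 = 1) : Good d a where
  move := by
    intro D E h s t hD hE cs hcs K
    cases h with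
    | far x y h => exact actW_plain ha hd (Plain.far x y h) hD hE cs hcs K
    | zigR i u k => exact actW_plain ha hd (Plain.zigR i u k) hD hE cs hcs K
    | zigL i u k => exact actW_plain ha hd (Plain.zigL i u k) hD hE cs hcs K
    | slideCup i u k o => exact actW_plain ha hd (Plain.slideCup i u k o) hD hE cs hcs K
    | slideCap i o => exact actW_plain ha hd (Plain.slideCap i o) hD hE cs hcs K
    | slideMerge i k l o => exact actW_vert ha hd (Vert.slideMerge i k l o) hD hE cs hcs K
    | slideSplit i k l o => exact actW_vert ha hd (Vert.slideSplit i k l o) hD hE cs hcs K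
    | r2 i o => exact actW_plain ha hd (Plain.r2 i o) hD hE cs hcs K
    | r3 i o₁ o₂ o₃ h => exact actW_plain ha hd (Plain.r3 i o₁ o₂ o₃) hD hE cs hcs K
    | curl i u k o => exact actW_plain ha hd (Plain.curl i u k o) hD hE cs hcs K
    | turnMerge i k l => exact actW_vert ha hd (Vert.turnMerge i k l) hD hE cs hcs K
    | turnSplit i k l => exact actW_vert ha hd (Vert.turnSplit i k l) hD hE cs hcs K
  skein := by
    intro s t X Y h
    have hQ : QB (a ^ d) := fun m t => qbin_pm hd m t
    cases h with
    | digon k l h => exact sk_digon ha hd hQ h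
    | loopR k l h => exact sk_loopR ha hd hQ h
    | loopL k l h => exact sk_loopL ha hd hQ h
    | assocMerge k l j h => exact sk_assocMerge ha hd h
    | assocSplit k l j h => exact sk_assocSplit ha hd h
    | tagMerge k l h => exact sk_tagMerge ha hd h
    | tagSplit k l h => exact sk_tagSplit ha hd h
    | squareFE k l r s h => exact sk_squareFE ha hd hQ h
    | squareEF k l r s h => exact sk_squareEF ha hd hQ h
    | crossGe k l o b hb h => exact sk_crossGe ha hd hb h
    | crossLe k l o b hb h => exact sk_crossLe ha hd hb h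

/-- For all `d ≥ 3` and `n > 1` dividing `d`, the center of the skein algebra of the disc with
three punctures is not generated by the puncture skeins and the threaded knots. -/
theorem counterexample {n : ℕ} (hd3 : 3 ≤ d) (hn : 1 < n) (hnd : n ∣ d)
    (hp : IsPrimitiveRoot (a ^ 2) n) : ∃ x ∈ center d a 3, x ∉ generated d a 3 n := by
  have ha : a ≠ 0 := by
    rintro rfl
    have := hp.ne_zero (by omega)
    simp at this
  have hd : (a ^ d) ^ 2 = 1 := by
    rw [← pow_mul, mul_comm, pow_mul]
    obtain ⟨e, rfl⟩ := hnd
    rw [pow_mul, hp.pow_eq_one, one_pow]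
  refine ⟨cl d a 3 (ring 0 2 false 1), fun y => ?_, ?_⟩
  · exact ((Subalgebra.mem_center_iff.1 (central ha hd (by omega))) y).symm
  · exact main_of (good ha hd) ha hd (by omega) hn hnd hp
      (fun hL _ hw _ hc _ _ _ _ hx hx' hxx hy hz => ev_cable ha hd hL hw hc hx hx' hxx hy hz)

end Pool.Agent.Helper26.SK.G
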