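import Pool.Agent.Helper26.SK.G.Lad

/-!
# The evaluation as an algebra homomorphism
-/

namespace Pool.Agent.Helper26.SK.G

open Str Piece

variable {d : ℕ} {a : ℂ}

/-- Is this coloured strand a pole? -/
def isPole : CS d → Bool
  | .pole _ _ => true
  | .web _ _ => false

theorem web_of_ty {c : CS d} {u : Bool} {k : ℕ} (h : ty c = Str.web u k) :
    ∃ S, c = CS.web u S ∧ S.card = k := by
  cases c with
  | pole x hx => simp [ty] at h
  | web u' S =>
    simp only [ty, Str.web.injEq] at h
    obtain ⟨rfl, rfl⟩ := h
    exact ⟨S, rfl, rfl⟩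

theorem split3 {cs : List (CS d)} {A X B : List Str} (h : cs.map ty = A ++ X ++ B) :
    ∃ cA cX cB, cs = cA ++ (cX ++ cB) ∧ cA.map ty = A ∧ cX.map ty = X ∧ cB.map ty = B := by
  rw [List.append_assoc, List.map_eq_append_iff] at h
  obtain ⟨cA, r, rfl, hA, hr⟩ := h
  rw [List.map_eq_append_iff] at hr
  obtain ⟨cX, cB, rfl, hX, hB⟩ := hr
  exact ⟨cA, cX, cB, rfl, hA, hX, hB⟩

theorem act_congr {p : Piece} {s t : List Str} (h : Step d p s t) {cs : List (CS d)}
    (hcs : cs.map ty = s) {K K' : Cont d}
    (hK : ∀ c, c.map ty = t → c.filter isPole = cs.filter isPole → K c = K' c) :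
    act a p cs K = act a p cs K' := by
  cases h with
  | cup A B u k h =>
    rw [List.map_eq_append_iff] at hcs
    obtain ⟨cA, cB, rfl, rfl, rfl⟩ := hcs
    have e : cup (cA.map ty).length u k = (cup 0 u k).shift cA.length := by
      simp [Piece.shift]
    rw [e, act_shift, act_shift, act_cup0, act_cup0]
    apply Finset.sum_congr rfl
    intro S hS
    rw [Finset.mem_powersetCard] at hS
    rw [hK]
    · simp [ty, hS.2]
    · simp [isPole]
  | cap A B u k =>
    obtain ⟨cA, cX, cB, rfl, rfl, hX, rfl⟩ := split3 hcs
    match cX with
    | [] => simp at hX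
    | [_] => simp at hX
    | [x, y] =>
      simp only [List.map_cons, List.map_nil, List.cons.injEq, and_true] at hX
      obtain ⟨S, rfl, hS⟩ := web_of_ty hX.1
      obtain ⟨T, rfl, hT⟩ := web_of_ty hX.2
      have e : cap (cA.map ty).length = (cap 0).shift cA.length := by
        simp [Piece.shift]
      rw [e, act_shift, act_shift]
      simp only [List.cons_append, List.nil_append]
      rw [act_cap0, act_cap0]
      by_cases h1 : S = T
      · rw [if_pos h1, if_pos h1, hK]
        · simp
        · simp [isPole]
      · rw [if_neg h1, if_neg h1]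
    | _ :: _ :: _ :: _ => simp at hX
  | cr A B x y o h =>
    obtain ⟨cA, cX, cB, rfl, rfl, hX, rfl⟩ := split3 hcs
    match cX with
    | [] => simp at hX
    | [_] => simp at hX
    | [z, w] =>
      simp only [List.map_cons, List.map_nil, List.cons.injEq, and_true] at hX
      have e : cr (cA.map ty).length o = (cr 0 o).shift cA.length := by
        simp [Piece.shift]
      rw [e, act_shift, act_shift]
      simp only [List.cons_append, List.nil_append]
      rw [act_cr0, act_cr0, hK]
      · simp [hX.1, hX.2]
      · cases z with
        | web u S => cases w <;> simp [isPole]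
        | pole x hx =>
          cases w with
          | web u S => simp [isPole]
          | pole x' hx' =>
            exfalso
            exact h ⟨hX.1.symm, hX.2.symm⟩
    | _ :: _ :: _ :: _ => simp at hX
  | merge A B k l h =>
    obtain ⟨cA, cX, cB, rfl, rfl, hX, rfl⟩ := split3 hcs
    match cX with
    | [] => simp at hX
    | [_] => simp at hX
    | [x, y] =>
      simp only [List.map_cons, List.map_nil, List.cons.injEq, and_true] at hX
      obtain ⟨S, rfl, hS⟩ := web_of_ty hX.1
      obtain ⟨T, rfl, hT⟩ := web_of_ty hX.2
      have e : merge (cA.map ty).length k l = (merge 0 k l).shift cA.length := by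
        simp [Piece.shift]
      rw [e, act_shift, act_shift]
      simp only [List.cons_append, List.nil_append]
      rw [act_merge0 S T hS hT, act_merge0 S T hS hT]
      by_cases h1 : Disjoint S T
      · rw [if_pos h1, if_pos h1, hK]
        · have hc := Finset.card_union_of_disjoint h1
          rw [List.map_append, List.map_append, List.append_assoc]
          congr 2
          rcases lab_cases d (show 0 < k + l by omega) h.2.2 with ⟨-, h2, h3⟩ | ⟨-, h2, h3⟩
          · rw [h2, h3]; simp [ty, hc, hS, hT]
          · rw [h2, h3]; simp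
        · split_ifs <;> simp [isPole]
      · rw [if_neg h1, if_neg h1]
    | _ :: _ :: _ :: _ => simp at hX
  | split A B k l h =>
    obtain ⟨cA, cX, cB, rfl, rfl, hX, rfl⟩ := split3 hcs
    have e : split (cA.map ty).length k l = (split 0 k l).shift cA.length := by
      simp [Piece.shift]
    rw [e, act_shift, act_shift]
    rcases lab_cases d (show 0 < k + l by omega) h.2.2 with ⟨h1, h2, h3⟩ | ⟨h1, h2, h3⟩
    · rw [h2] at hX
      match cX with
      | [] => simp at hX
      | [x] =>
        simp only [List.map_cons, List.map_nil, List.cons.injEq, and_true] at hX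
        obtain ⟨U, rfl, hU⟩ := web_of_ty hX
        rw [List.singleton_append, act_split0 h3 U hU, act_split0 h3 U hU]
        apply Finset.sum_congr rfl
        intro S hS
        rw [Finset.mem_powersetCard] at hS
        have h4 := Finset.card_sdiff_of_subset hS.1
        rw [hK]
        · simp only [List.map_append, List.map_cons, ty, hS.2]
          rw [h4, hU, hS.2, Nat.add_sub_cancel_left]
          simp
        · simp [isPole]
      | _ :: _ :: _ => simp at hX
    · rw [h2, List.map_eq_nil_iff] at hX
      subst hX
      rw [List.nil_append, act_split0_tag h1, act_split0_tag h1]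
      apply Finset.sum_congr rfl
      intro S hS
      rw [Finset.mem_powersetCard] at hS
      have h4 := Finset.card_sdiff_of_subset hS.1
      rw [Finset.card_univ, Fintype.card_fin, hS.2] at h4
      rw [hK]
      · simp only [List.map_append, List.map_cons, ty, hS.2]
        rw [h4]
        have : d - k = l := by omega
        rw [this]
        simp
      · simp [isPole]

theorem actW_congr {D : List Piece} {s t : List Str} (h : Run d D s t) {cs : List (CS d)}
    (hcs : cs.map ty = s) {K K' : Cont d}
    (hK : ∀ c, c.map ty = t → c.filter isPole = cs.filter isPole → K c = K' c) :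
    actW a D cs K = actW a D cs K' := by
  induction D generalizing s cs with
  | nil =>
    cases h
    exact hK cs hcs rfl
  | cons p D ih =>
    obtain ⟨r, hp, hD⟩ := h
    refine act_congr hp hcs fun c hc hc' => ?_
    exact ih hD hc fun c' h1 h2 => hK c' h1 (h2.trans hc')

theorem eq_of_poles {m : ℕ} {c P : List (CS d)} (hc : c.map ty = poles m)
    (hP : P.map ty = poles m) (h : c.filter isPole = P.filter isPole) : c = P := by
  have key : ∀ x : List (CS d), x.map ty = poles m → x.filter isPole = x := by
    intro x hx
    rw [List.filter_eq_self]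
    intro z hz
    have : ty z ∈ poles m := by rw [← hx]; exact List.mem_map_of_mem hz
    have := List.eq_of_mem_replicate this
    cases z with
    | pole => rfl
    | web => simp [ty] at this
  rw [← key c hc, ← key P hP, h]

theorem actW_closed {m : ℕ} {D : List Piece} (hD : Run d D (poles m) (poles m))
    {P : List (CS d)} (hP : P.map ty = poles m) (K : Cont d) :
    actW a D P K = ev a P D * K P := by
  have : actW a D P K = actW a D P (fun _ => K P * 1) := by
    refine actW_congr hD hP fun c hc hc' => ?_
    rw [eq_of_poles hc hP hc', mul_one]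
  rw [this, actW_mul, ev, mul_comm]

theorem ev_append {m : ℕ} {D : List Piece} (E : List Piece) (hD : Run d D (poles m) (poles m))
    {P : List (CS d)} (hP : P.map ty = poles m) :
    ev a P (D ++ E) = ev a P D * ev a P E := by
  rw [ev, actW_append, actW_closed hD hP]
  rfl

/-- The evaluation as a homomorphism of monoids. -/
noncomputable def evMon (a : ℂ) (m : ℕ) (P : List (CS d)) (hP : P.map ty = poles m) :
    Diag d m →* ℂ where
  toFun D := ev a P (FreeMonoid.toList D.1)
  map_one' := rfl
  map_mul' D E := ev_append _ D.2 hP

/-- The evaluation as a homomorphism of algebras. -/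
noncomputable def evAlg (a : ℂ) (m : ℕ) (P : List (CS d)) (hP : P.map ty = poles m) :
    MonoidAlgebra ℂ (Diag d m) →ₐ[ℂ] ℂ :=
  MonoidAlgebra.lift ℂ ℂ (Diag d m) (evMon a m P hP)

theorem evAlg_dg {m : ℕ} {D : List Piece} (hD : Run d D (poles m) (poles m))
    {P : List (CS d)} (hP : P.map ty = poles m) :
    evAlg a m P hP (dg d m D) = ev a P D := by
  rw [dg_of_run hD, evAlg, MonoidAlgebra.lift_single, one_smul]
  rfl

/-- The evaluation satisfies all relations. -/
structure Good (d : ℕ) (a : ℂ) : Prop where
  move : ∀ {D E : List Piece} (_ : Move d D E) {s t : List Str} (_ : Run d D s t)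
    (_ : Run d E s t) (cs : List (CS d)) (_ : cs.map ty = s) (K : Cont d),
    actW a D cs K = actW a E cs K
  skein : ∀ {s t : List Str} {X Y : List (ℂ × List Piece)} (_ : Skein d a s t X Y),
    SkEq (d := d) a s X Y

theorem evAlg_ins {m : ℕ} {U V : List Piece} {A B s t : List Str}
    {X : List (ℂ × List Piece)} (hX : ∀ x ∈ X, Run d x.2 s t)
    (hU : Run d U (poles m) (A ++ s ++ B)) (hV : Run d V (A ++ t ++ B) (poles m))
    {P : List (CS d)} (hP : P.map ty = poles m) :
    evAlg a m P hP (ins d m A.length U V X) = actW a U P (fun c =>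
      (X.map fun x => x.1 * actW a (x.2.map (shift A.length)) c
        (fun c' => actW a V c' (fun _ => 1))).sum) := by
  rw [actW_sum, ins, map_list_sum, List.map_map]
  congr 1
  apply List.map_congr_left
  intro x hx
  have hr := (hU.append ((hX x hx).shift A B)).append hV
  rw [Function.comp_apply, map_smul, evAlg_dg hr, smul_eq_mul, ev, List.append_assoc,
    actW_append]
  congr 1
  congr 1
  funext c
  rw [actW_append]

theorem evAlg_rel (hg : Good d a) {m : ℕ} {P : List (CS d)} (hP : P.map ty = poles m)
    {x y : MonoidAlgebra ℂ (Diag d m)} (h : Rel d a m x y) :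
    evAlg a m P hP x = evAlg a m P hP y := by
  cases h with
  | move U V D E s t h hU hD hE hV =>
    rw [evAlg_dg ((hU.append hD).append hV), evAlg_dg ((hU.append hE).append hV), ev, ev,
      List.append_assoc, List.append_assoc, actW_append, actW_append]
    refine actW_congr hU hP fun c hc _ => ?_
    rw [actW_append, actW_append]
    exact hg.move h hD hE c hc _
  | skein U V A B s t X Y h hU hV =>
    rw [evAlg_ins h.run.1 hU hV, evAlg_ins h.run.2 hU hV]
    refine actW_congr hU hP fun c hc _ => ?_
    obtain ⟨cA, cX, cB, rfl, rfl, rfl, rfl⟩ := split3 hc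
    have := hg.skein h cX rfl cB (fun t => actW a V (cA ++ t) (fun _ => 1))
    simp only [List.length_map, actW_shift]
    exact this

/-- The evaluation of skeins. -/
noncomputable def evHom (hg : Good d a) (m : ℕ) (P : List (CS d)) (hP : P.map ty = poles m) :
    Sk d a m →ₐ[ℂ] ℂ :=
  RingQuot.liftAlgHom ℂ ⟨evAlg a m P hP, fun _ _ h => evAlg_rel hg hP h⟩

theorem evHom_cl (hg : Good d a) {m : ℕ} {D : List Piece} (hD : Run d D (poles m) (poles m))
    {P : List (CS d)} (hP : P.map ty = poles m) :
    evHom hg m P hP (cl d a m D) = ev a P D := by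
  rw [cl, toSk, evHom, RingQuot.liftAlgHom_mkAlgHom_apply]
  exact evAlg_dg hD hP

theorem evHom_cl_of_not (hg : Good d a) {m : ℕ} {D : List Piece}
    (hD : ¬ Run d D (poles m) (poles m)) {P : List (CS d)} (hP : P.map ty = poles m) :
    evHom hg m P hP (cl d a m D) = 0 := by
  rw [cl, dg_of_not_run hD, map_zero, map_zero]

end Pool.Agent.Helper26.SK.G
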