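import Pool.Agent.Helper26.SK.G.Defs
import Pool.Agent.Helper26.SK.SkeinRun

/-!
# The action of ladder rungs
-/

namespace Pool.Agent.Helper26.SK.G

open Str Piece

variable {d : ℕ} {a : ℂ}

/-- The upward strand coloured by `S`; it is invisible if `S` is empty or everything. -/
def vs (S : Finset (Fin d)) : List (CS d) :=
  if 0 < S.card ∧ S.card < d then [CS.web true S] else []

theorem vs_of {S : Finset (Fin d)} (h : 0 < S.card ∧ S.card < d) : vs S = [CS.web true S] :=
  if_pos h

theorem vs_nil {S : Finset (Fin d)} (h : ¬ (0 < S.card ∧ S.card < d)) : vs S = [] := if_neg h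

theorem vs_empty : vs (∅ : Finset (Fin d)) = [] := vs_nil (by simp)

theorem ty_vs (S : Finset (Fin d)) : (vs S).map ty = lab d S.card := by
  unfold vs lab
  split_ifs <;> rfl

theorem length_vs (S : Finset (Fin d)) : (vs S).length = vis d S.card := by
  unfold vs vis
  split_ifs <;> rfl

theorem card_le_d (S : Finset (Fin d)) : S.card ≤ d := by
  simpa using Finset.card_le_univ S

theorem exists_vs {cs : List (CS d)} {k : ℕ} (hk : k ≤ d) (h : cs.map ty = lab d k) :
    ∃ S : Finset (Fin d), S.card = k ∧ cs = vs S := by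
  by_cases hk' : 0 < k ∧ k < d
  · rw [lab_of hk'] at h
    match cs with
    | [] => simp at h
    | [.pole x hx] => simp [ty] at h
    | [.web u S] =>
      simp only [List.map_cons, List.map_nil, ty, List.cons.injEq, Str.web.injEq, and_true] at h
      obtain ⟨rfl, rfl⟩ := h
      exact ⟨S, rfl, (vs_of hk').symm⟩
    | _ :: _ :: _ => simp at h
  · have : lab d k = [] := if_neg hk'
    rw [this, List.map_eq_nil_iff] at h
    subst h
    rcases Nat.eq_zero_or_pos k with rfl | h0
    · exact ⟨∅, rfl, vs_empty.symm⟩
    · refine ⟨Finset.univ, by simp; omega, ?_⟩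
      rw [vs_nil]; simp

theorem ell_empty_left (T : Finset (Fin d)) : ell ∅ T = 0 := by simp [ell]

theorem ell_empty_right (S : Finset (Fin d)) : ell S ∅ = 0 := by simp [ell]

theorem ell_union_left {S S' : Finset (Fin d)} (h : Disjoint S S') (T : Finset (Fin d)) :
    ell (S ∪ S') T = ell S T + ell S' T := by
  unfold ell
  rw [Finset.union_product, Finset.filter_union, Finset.card_union_of_disjoint]
  apply Finset.disjoint_filter_filter
  rw [Finset.disjoint_product]
  exact Or.inl h

theorem ell_union_right {T T' : Finset (Fin d)} (h : Disjoint T T') (S : Finset (Fin d)) :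
    ell S (T ∪ T') = ell S T + ell S T' := by
  unfold ell
  rw [Finset.product_union, Finset.filter_union, Finset.card_union_of_disjoint]
  apply Finset.disjoint_filter_filter
  rw [Finset.disjoint_product]
  exact Or.inr h

theorem eps_empty_left (q : ℂ) (T : Finset (Fin d)) : eps q ∅ T = 1 := by
  simp [eps, ell_empty_left]

theorem eps_empty_right (q : ℂ) (S : Finset (Fin d)) : eps q S ∅ = 1 := by
  simp [eps, ell_empty_right]

theorem eps_union_left {q : ℂ} {S S' : Finset (Fin d)} (h : Disjoint S S')
    (T : Finset (Fin d)) : eps q (S ∪ S') T = eps q S T * eps q S' T := by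
  rw [eps, ell_union_left h, pow_add]; rfl

theorem eps_union_right {q : ℂ} {T T' : Finset (Fin d)} (h : Disjoint T T')
    (S : Finset (Fin d)) : eps q S (T ∪ T') = eps q S T * eps q S T' := by
  rw [eps, ell_union_right h, pow_add]; rfl

theorem eps_mul_self {q : ℂ} (hq : q ^ 2 = 1) (S T : Finset (Fin d)) :
    eps q S T * eps q S T = 1 := by
  rw [eps, ← mul_pow]
  have : (-q) * (-q) = 1 := by rw [← hq]; ring
  rw [this, one_pow]

/-- The signs of a rung moving weight to the left are a coboundary. -/
theorem gaugeF {q : ℂ} (hq : q ^ 2 = 1) {S T X : Finset (Fin d)} (hX : X ⊆ T)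
    (hd : Disjoint S X) :
    eps q X (T \ X) * eps q S X = eps q S T * eps q (S ∪ X) (T \ X) := by
  have h1 : eps q S T = eps q S X * eps q S (T \ X) := by
    rw [← eps_union_right Finset.disjoint_sdiff, Finset.union_sdiff_of_subset hX]
  rw [h1, eps_union_left hd]
  have := eps_mul_self hq S (T \ X)
  linear_combination (-(eps q X (T \ X)) * eps q S X) * this

/-- The signs of a rung moving weight to the right are a coboundary. -/
theorem gaugeE {q : ℂ} (hq : q ^ 2 = 1) {S T Y : Finset (Fin d)} (hY : Y ⊆ S)
    (hd : Disjoint Y T) :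
    eps q (S \ Y) Y * eps q Y T = eps q S T * eps q (S \ Y) (T ∪ Y) := by
  have h1 : eps q S T = eps q (S \ Y) T * eps q Y T := by
    rw [← eps_union_left Finset.sdiff_disjoint, Finset.sdiff_union_of_subset hY]
  rw [h1, eps_union_right hd.symm]
  have := eps_mul_self hq (S \ Y) T
  linear_combination (-(eps q (S \ Y) Y) * eps q Y T) * this

/-- The action of a splitting, in a uniform form. -/
theorem actW_sp {k l : ℕ} {U : Finset (Fin d)} (hU : U.card = k + l) (R : List (CS d))
    (K : Cont d) :
    actW a (sp 0 k l) (vs U ++ R) K = ∑ S ∈ Finset.powersetCard k U,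
      (a ^ d) ^ (k * l) * eps (a ^ d) S (U \ S) * K (vs S ++ (vs (U \ S) ++ R)) := by
  unfold sp
  rcases Nat.eq_zero_or_pos k with rfl | hk
  · simp [actW, vs_empty, eps_empty_left]
  · rcases Nat.eq_zero_or_pos l with rfl | hl
    · have : U.card = k := by simpa using hU
      rw [← this]
      simp [actW, vs_empty, eps_empty_right]
    · have hUd := card_le_d U
      rw [if_neg (by omega)]
      change act a (split 0 k l) (vs U ++ R) K = _
      have hS : ∀ S ∈ Finset.powersetCard k U, vs S = [CS.web true S] ∧
          vs (U \ S) = [CS.web true (U \ S)] := by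
        intro S hS
        rw [Finset.mem_powersetCard] at hS
        have h2 : (U \ S).card = l := by
          rw [Finset.card_sdiff_of_subset hS.1]; omega
        exact ⟨vs_of (by omega), vs_of (by omega)⟩
      rcases lt_or_eq_of_le hUd with h | h
      · rw [vs_of (by omega), List.singleton_append, act_split0 (by simp [vis]; omega) U hU]
        apply Finset.sum_congr rfl
        intro S h'
        rw [(hS S h').1, (hS S h').2]
        rfl
      · have hU' : U = Finset.univ := Finset.eq_univ_of_card U (by simpa using h)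
        rw [vs_nil (by omega), List.nil_append, act_split0_tag (by omega)]
        subst hU'
        apply Finset.sum_congr rfl
        intro S h'
        rw [(hS S h').1, (hS S h').2]
        rfl

/-- The action of a merging, in a uniform form. -/
theorem actW_mg {k l : ℕ} {S T : Finset (Fin d)} (hS : S.card = k) (hT : T.card = l)
    (hkl : k + l ≤ d) (R : List (CS d)) (K : Cont d) :
    actW a (mg 0 k l) (vs S ++ (vs T ++ R)) K =
      if Disjoint S T then eps (a ^ d) S T * K (vs (S ∪ T) ++ R) else 0 := by
  unfold mg
  rcases Nat.eq_zero_or_pos k with rfl | hk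
  · rw [Finset.card_eq_zero] at hS
    subst hS
    simp [actW, vs_empty, eps_empty_left]
  · rcases Nat.eq_zero_or_pos l with rfl | hl
    · rw [Finset.card_eq_zero] at hT
      subst hT
      simp [actW, vs_empty, eps_empty_right]
    · rw [if_neg (by omega), vs_of (S := S) (by omega), vs_of (S := T) (by omega)]
      change act a (merge 0 k l) (CS.web true S :: CS.web true T :: R) K = _
      rw [act_merge0 S T hS hT]
      split_ifs with h1 h2 h2
      · have hc := Finset.card_union_of_disjoint h1
        rw [vs_of]
        simp only [vis] at h2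
        split_ifs at h2
        omega
      · have hc := Finset.card_union_of_disjoint h1
        rw [vs_nil]
        simp only [vis] at h2
        split_ifs at h2
        · omega
        · omega
      · rfl

/-- The action of a rung moving weight to the left. -/
theorem actW_ladF (hq : (a ^ d) ^ 2 = 1) {k l s : ℕ} {S T : Finset (Fin d)} (hS : S.card = k)
    (hT : T.card = l) (hs : s ≤ l) (hks : k + s ≤ d) (R : List (CS d)) (K : Cont d) :
    actW a (ladF d k l s) (vs S ++ (vs T ++ R)) K =
      ∑ X ∈ Finset.powersetCard s (T \ S), (a ^ d) ^ (s * (l - s)) *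
        (eps (a ^ d) S T * eps (a ^ d) (S ∪ X) (T \ X)) *
          K (vs (S ∪ X) ++ (vs (T \ X) ++ R)) := by
  have e1 : sp (vis d k) s (l - s) = (sp 0 s (l - s)).map (shift (vs S).length) := by
    rw [sp_shift, length_vs, hS, Nat.zero_add]
  rw [ladF, actW_append, e1, actW_shift, actW_sp (by omega)]
  have e2 : Finset.powersetCard s (T \ S) ⊆ Finset.powersetCard s T :=
    Finset.powersetCard_mono Finset.sdiff_subset
  rw [← Finset.sum_subset e2]
  · apply Finset.sum_congr rfl
    intro X hX
    rw [Finset.mem_powersetCard] at hX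
    have hd : Disjoint S X := Finset.disjoint_of_subset_right hX.1 Finset.disjoint_sdiff
    have hXT : X ⊆ T := hX.1.trans Finset.sdiff_subset
    rw [actW_mg hS hX.2 hks, if_pos hd, ← gaugeF hq hXT hd]
    ring
  · intro X hX hX'
    rw [Finset.mem_powersetCard] at hX hX'
    have : ¬ Disjoint S X := by
      intro hd
      exact hX' ⟨Finset.subset_sdiff.2 ⟨hX.1, hd.symm⟩, hX.2⟩
    rw [actW_mg hS hX.2 hks, if_neg this, mul_zero]

/-- The action of a rung moving weight to the right. -/
theorem actW_ladE (hq : (a ^ d) ^ 2 = 1) {k l r : ℕ} {S T : Finset (Fin d)} (hS : S.card = k)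
    (hT : T.card = l) (hr : r ≤ k) (hlr : l + r ≤ d) (R : List (CS d)) (K : Cont d) :
    actW a (ladE d k l r) (vs S ++ (vs T ++ R)) K =
      ∑ Y ∈ Finset.powersetCard r (S \ T), (a ^ d) ^ ((k - r) * r) *
        (eps (a ^ d) S T * eps (a ^ d) (S \ Y) (T ∪ Y)) *
          K (vs (S \ Y) ++ (vs (T ∪ Y) ++ R)) := by
  rw [ladE, actW_append, actW_sp (by omega)]
  -- reindex by complements
  have e0 : ∀ g : Finset (Fin d) → ℂ, ∑ S₁ ∈ Finset.powersetCard (k - r) S, g S₁ =
      ∑ Y ∈ Finset.powersetCard r S, g (S \ Y) := by
    intro g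
    refine Finset.sum_nbij' (fun Z => S \ Z) (fun Z => S \ Z) ?_ ?_ ?_ ?_ ?_
    · intro Z hZ
      rw [Finset.mem_powersetCard] at hZ ⊢
      exact ⟨Finset.sdiff_subset, by rw [Finset.card_sdiff_of_subset hZ.1]; omega⟩
    · intro Z hZ
      rw [Finset.mem_powersetCard] at hZ ⊢
      exact ⟨Finset.sdiff_subset, by rw [Finset.card_sdiff_of_subset hZ.1]; omega⟩
    · intro Z hZ
      rw [Finset.mem_powersetCard] at hZ
      exact Finset.sdiff_sdiff_eq_self hZ.1
    · intro Z hZ
      rw [Finset.mem_powersetCard] at hZ
      exact Finset.sdiff_sdiff_eq_self hZ.1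
    · intro Z hZ
      rw [Finset.mem_powersetCard] at hZ
      rw [Finset.sdiff_sdiff_eq_self hZ.1]
  rw [e0]
  have e2 : Finset.powersetCard r (S \ T) ⊆ Finset.powersetCard r S :=
    Finset.powersetCard_mono Finset.sdiff_subset
  rw [← Finset.sum_subset e2]
  · apply Finset.sum_congr rfl
    intro Y hY
    rw [Finset.mem_powersetCard] at hY
    have hd : Disjoint Y T := Finset.disjoint_of_subset_left hY.1 Finset.sdiff_disjoint
    have hYS : Y ⊆ S := hY.1.trans Finset.sdiff_subset
    have e3 : S \ (S \ Y) = Y := Finset.sdiff_sdiff_eq_self hYS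
    have e4 : (S \ Y).card = k - r := by rw [Finset.card_sdiff_of_subset hYS]; omega
    have e5 : mg (vis d (k - r)) r l = (mg 0 r l).map (shift (vs (S \ Y)).length) := by
      rw [mg_shift, length_vs, e4, Nat.zero_add]
    rw [e3, e5, actW_shift, actW_mg hY.2 hT (by omega), if_pos hd, ← gaugeE hq hYS hd,
      Finset.union_comm Y T]
    ring
  · intro Y hY hY'
    rw [Finset.mem_powersetCard] at hY hY'
    have e3 : S \ (S \ Y) = Y := Finset.sdiff_sdiff_eq_self hY.1
    have e4 : (S \ Y).card = k - r := by rw [Finset.card_sdiff_of_subset hY.1]; omega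
    have e5 : mg (vis d (k - r)) r l = (mg 0 r l).map (shift (vs (S \ Y)).length) := by
      rw [mg_shift, length_vs, e4, Nat.zero_add]
    have : ¬ Disjoint Y T := by
      intro hd
      exact hY' ⟨Finset.subset_sdiff.2 ⟨hY.1, hd⟩, hY.2⟩
    rw [e3, e5, actW_shift, actW_mg hY.2 hT (by omega), if_neg this, mul_zero]

/-- Equality of formal combinations under the evaluation, on strands of types `s`. -/
def SkEq (a : ℂ) (s : List Str) (X Y : List (ℂ × List Piece)) : Prop :=
  ∀ cs : List (CS d), cs.map ty = s → ∀ (B : List (CS d)) (K : Cont d),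
    (X.map fun x => x.1 * actW a x.2 (cs ++ B) K).sum =
      (Y.map fun x => x.1 * actW a x.2 (cs ++ B) K).sum

end Pool.Agent.Helper26.SK.G
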