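import Pool.Agent.Helper26.SK.G.Defs

/-! This file is the work of helper95. -/

/-! Block GW of `helper26_SKG_BP`: the weights of the reduced power elementary polynomials. -/

namespace Pool.Agent.Helper26.SK.G

open MvPolynomial

namespace GW

variable {d : ℕ}

/-- the weights of the variables `e_1, …, e_d` -/
def wt (d : ℕ) (j : Fin d) : ℕ := j + 1

/-- substitution of the elementary symmetric polynomials -/
noncomputable def Psi (d : ℕ) : MvPolynomial (Fin d) ℤ →ₐ[ℤ] MvPolynomial (Fin d) ℤ :=
  aeval (fun j : Fin d => esymm (Fin d) ℤ (j + 1))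

lemma Psi_inj (d : ℕ) : Function.Injective (Psi d) := by
  intro p q hpq
  apply (esymmAlgHom_fin_bijective (R := ℤ) d).1
  ext1
  rw [esymmAlgHom_apply, esymmAlgHom_apply]
  exact hpq

lemma esymm_homog (d k : ℕ) : (esymm (Fin d) ℤ k).IsHomogeneous k := by
  unfold esymm
  apply IsHomogeneous.sum
  intro t ht
  have h := IsHomogeneous.prod t (fun i => (X i : MvPolynomial (Fin d) ℤ)) (fun _ => 1)
    (fun i _ => isHomogeneous_X ℤ i)
  rw [Finset.sum_const, smul_eq_mul, mul_one, (Finset.mem_powersetCard.1 ht).2] at h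
  exact h

lemma Psi_monomial_homog (β : Fin d →₀ ℕ) (c : ℤ) :
    (Psi d (monomial β c)).IsHomogeneous (Finsupp.weight (wt d) β) := by
  unfold Psi
  rw [aeval_monomial, Finsupp.weight_apply]
  have h1 : (algebraMap ℤ (MvPolynomial (Fin d) ℤ) c).IsHomogeneous 0 := by
    exact isHomogeneous_C _ c
  have h2 : (β.prod fun j k => (esymm (Fin d) ℤ (j + 1)) ^ k).IsHomogeneous
      (β.sum fun i a => a • wt d i) := by
    unfold Finsupp.prod Finsupp.sum
    apply IsHomogeneous.prod
    intro i _
    have := (esymm_homog d (i + 1)).pow (β i)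
    simp only [smul_eq_mul, wt]
    rw [mul_comm]
    exact this
  have := h1.mul h2
  rwa [zero_add] at this

lemma comp_Psi (k : ℕ) (P : MvPolynomial (Fin d) ℤ) :
    homogeneousComponent k (Psi d P) = Psi d (weightedHomogeneousComponent (wt d) k P) := by
  induction P using MvPolynomial.induction_on' with
  | monomial β c =>
    have h1 := Psi_monomial_homog β c
    have h2 : IsWeightedHomogeneous (wt d) (monomial β c) (Finsupp.weight (wt d) β) :=
      isWeightedHomogeneous_monomial _ _ _ rfl
    rw [homogeneousComponent_of_mem h1]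
    by_cases hk : k = Finsupp.weight (wt d) β
    · rw [if_pos hk, hk, h2.weightedHomogeneousComponent_same]
    · rw [if_neg hk, h2.weightedHomogeneousComponent_ne _ hk, map_zero]
  | add p q hp hq => rw [map_add, map_add, map_add, map_add, hp, hq]

lemma weight_eq {n i : ℕ} {P : MvPolynomial (Fin d) ℤ} (h : IsPowerElementary d n i P)
    {β : Fin d →₀ ℕ} (hβ : β ∈ P.support) : Finsupp.weight (wt d) β = n * i := by
  by_contra hne
  have h1 : (Psi d P).IsHomogeneous (n * i) := by
    have : Psi d P = _ := h
    rw [this]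
    apply IsHomogeneous.sum
    intro J hJ
    have h := IsHomogeneous.prod J (fun j => (X j : MvPolynomial (Fin d) ℤ) ^ n) (fun _ => n)
      (fun j _ => by simpa using (isHomogeneous_X ℤ j).pow n)
    rw [Finset.sum_const, smul_eq_mul, (Finset.mem_powersetCard.1 hJ).2, mul_comm] at h
    exact h
  have h2 := comp_Psi (Finsupp.weight (wt d) β) P
  rw [homogeneousComponent_of_mem h1, if_neg hne] at h2
  have h3 : weightedHomogeneousComponent (wt d) (Finsupp.weight (wt d) β) P = 0 := by
    apply Psi_inj d
    rw [← h2, map_zero]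
  have h4 : coeff β (weightedHomogeneousComponent (wt d) (Finsupp.weight (wt d) β) P) =
      coeff β P := by
    rw [coeff_weightedHomogeneousComponent, if_pos rfl]
  rw [h3, coeff_zero] at h4
  exact (mem_support_iff.1 hβ) h4.symm

lemma weights_sum (α : Fin (d - 1) →₀ ℕ) :
    (weights d α).sum = ∑ j : Fin (d - 1), α j * ((j : ℕ) + 1) := by
  unfold weights
  rw [List.flatMap_def, List.sum_flatten, List.map_map, Fin.sum_univ_def]
  congr 1
  apply List.map_congr_left
  intro j _
  simp

end GW

open GW in
theorem weights_sum_dvd {d n i : ℕ} (hd : 0 < d) (hn : n ∣ d)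
    {P : MvPolynomial (Fin d) ℤ} (h : IsPowerElementary d n i P) {α : Fin (d - 1) →₀ ℕ}
    (hα : α ∈ (hat d P).support) : n ∣ (weights d α).sum := by
  set w' : Fin (d - 1) → ZMod n := fun j => (((j : ℕ) + 1 : ℕ) : ZMod n) with hw'
  have key : IsWeightedHomogeneous w' (hat d P) 0 := by
    unfold hat
    rw [aeval_def, eval₂_eq]
    apply IsWeightedHomogeneous.sum
    intro β hβ
    have h1 := weight_eq h hβ
    have h2 : IsWeightedHomogeneous w' (∏ j ∈ β.support,
        (if h : (j : ℕ) < d - 1 then (X (⟨j, h⟩ : Fin (d - 1)) : MvPolynomial (Fin (d - 1)) ℤ)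
          else 1) ^ β j) (∑ j ∈ β.support, β j • (((j : ℕ) + 1 : ℕ) : ZMod n)) := by
      apply IsWeightedHomogeneous.prod
      intro j _
      apply IsWeightedHomogeneous.pow
      split_ifs with hj
      · exact isWeightedHomogeneous_X ℤ w' (⟨j, hj⟩ : Fin (d - 1))
      · have : (((j : ℕ) + 1 : ℕ) : ZMod n) = 0 := by
          have hj' : (j : ℕ) + 1 = d := by have := j.2; omega
          rw [hj']
          exact (ZMod.natCast_eq_zero_iff d n).2 hn
        rw [this]
        exact isWeightedHomogeneous_one ℤ w'
    have h3 : (∑ j ∈ β.support, β j • (((j : ℕ) + 1 : ℕ) : ZMod n)) = 0 := by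
      have : (∑ j ∈ β.support, β j • (((j : ℕ) + 1 : ℕ) : ZMod n)) =
          ((Finsupp.weight (wt d) β : ℕ) : ZMod n) := by
        rw [Finsupp.weight_apply, Finsupp.sum]
        push_cast
        apply Finset.sum_congr rfl
        intro j _
        simp [wt]
        ring
      rw [this, h1]
      push_cast
      simp
    rw [h3] at h2
    exact h2.C_mul _
  have h4 := key (mem_support_iff.1 hα)
  rw [← ZMod.natCast_eq_zero_iff, weights_sum]
  rw [Finsupp.weight_apply, Finsupp.sum_fintype _ _ (by simp)] at h4
  rw [← h4]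
  push_cast
  apply Finset.sum_congr rfl
  intro j _
  simp [hw']
  ring

end Pool.Agent.Helper26.SK.G
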