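import Pool.Agent.Helper26.SK.G.Hom
import Pool.Agent.Helper26.SK.Central
import Pool.Agent.Helper26.SK.G.Rings
import Pool.Agent.Helper26.SK.G.Weights

/-!
# The loop around the first two poles is not in the subalgebra
-/

namespace Pool.Agent.Helper26.SK.G

open Str Piece

variable {d : ℕ} {a : ℂ}

theorem mem_weights {α : Fin (d - 1) →₀ ℕ} {k : ℕ} (hk : k ∈ weights d α) : 0 < k ∧ k < d := by
  unfold weights at hk
  rw [List.mem_flatMap] at hk
  obtain ⟨j, -, hj⟩ := hk
  rw [List.mem_replicate] at hj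
  have := j.2
  omega

theorem run_ring {u : Bool} {k : ℕ} (hk : 0 < k ∧ k < d) :
    Run d (ring 0 2 u k) (poles 3) (poles 3) := by
  simp [ring, poles, List.range_succ, Run, step_cup_zero, step_cr_succ, step_cr_zero,
    step_cap_zero, hk]

theorem main_of (hg : Good d a) (ha : a ≠ 0) (hd : (a ^ d) ^ 2 = 1) (hd1 : 1 < d) {n : ℕ}
    (hn : 1 < n) (hnd : n ∣ d) (hp : IsPrimitiveRoot (a ^ 2) n)
    (hcable : ∀ {L : List Piece} (_ : IsLink d 3 L)
    {w : List ℕ} (_ : ∀ k ∈ w, 0 < k ∧ k < d) {c : ℂ} (_ : c ^ w.sum = 1)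
    {x x' y z : Fin d → ℂ} (hx : ∏ i, x i = 1) (hx' : ∏ i, x' i = 1) (_ : ∀ i, x' i = c * x i)
    (hy : ∏ i, y i = 1) (hz : ∏ i, z i = 1),
    ev a [CS.pole x' hx', CS.pole y hy, CS.pole z hz] (cable w L (poles 3)) =
      ev a [CS.pole x hx, CS.pole y hy, CS.pole z hz] (cable w L (poles 3))) :
    cl d a 3 (ring 0 2 false 1) ∉
      Algebra.adjoin ℂ (punctureSkeins d a 3 ∪ threadSkeins d a 3 n) := by
  obtain ⟨x, hx, hvan⟩ := exists_diag (show 0 < d by omega)
  have hx0 : ∀ i, x i ≠ 0 := fun i h0 => by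
    have : ∏ i, x i = 0 := Finset.prod_eq_zero (Finset.mem_univ i) h0
    rw [hx] at this
    exact one_ne_zero this
  set c : ℂ := a ^ 2 with hc
  have hc0 : c ≠ 0 := pow_ne_zero _ ha
  have hc1 : c ≠ 1 := hp.ne_one hn
  have hcd : c ^ d = 1 := by
    obtain ⟨e, rfl⟩ := hnd
    rw [pow_mul, hp.pow_eq_one, one_pow]
  have hx' : ∏ i, (fun i => c * x i) i = 1 := by
    rw [Finset.prod_mul_distrib, hx, Finset.prod_const, Finset.card_univ, Fintype.card_fin, hcd,
      one_mul]
  have hy : ∏ i, (fun i => (x i)⁻¹) i = 1 := by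
    rw [Finset.prod_inv_distrib, hx, inv_one]
  have hP : ([CS.pole x hx, CS.pole _ hy, CS.pole x hx] : List (CS d)).map ty = poles 3 := rfl
  have hP' : ([CS.pole _ hx', CS.pole _ hy, CS.pole x hx] : List (CS d)).map ty = poles 3 := rfl
  have hvan1 : ∀ k, 0 < k → k < d →
      (∑ S ∈ Finset.powersetCard k (Finset.univ : Finset (Fin d)), ∏ i ∈ S, x i = 0) ∧
      (∑ S ∈ Finset.powersetCard k (Finset.univ : Finset (Fin d)), ∏ i ∈ S, (x i)⁻¹ = 0) := by
    intro k h1 h2
    simpa using hvan 1 k h1 h2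
  -- equality on the generators
  have hgen : Set.EqOn (evHom hg 3 _ hP) (evHom hg 3 _ hP')
      (punctureSkeins d a 3 ∪ threadSkeins d a 3 n) := by
    rintro s ((⟨j, u, k, hj, hk, hkd, rfl⟩ | ⟨u, k, hk, hkd, rfl⟩) | ⟨L, P, i, hL, hi, hid, hPE, rfl⟩)
    · by_cases hr : Run d (ring j 1 u k) (poles 3) (poles 3)
      · rw [evHom_cl hg hr, evHom_cl hg hr, ev_ring_inner _ _ _ hd u k j hj,
          ev_ring_inner _ _ _ hd u k j hj]
        congr 1
        interval_cases j
        · cases u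
          · simpa using ((hvan1 k hk hkd).2).trans ((hvan c k hk hkd).2).symm
          · simpa using ((hvan1 k hk hkd).1).trans ((hvan c k hk hkd).1).symm
        · rfl
        · rfl
      · rw [evHom_cl_of_not hg hr, evHom_cl_of_not hg hr]
    · by_cases hr : Run d (ring 0 3 u k) (poles 3) (poles 3)
      · rw [evHom_cl hg hr, evHom_cl hg hr, ev_ring_outer _ _ _ hd u k,
          ev_ring_outer _ _ _ hd u k]
        congr 1
        have e1 : ∀ i, x i * (x i)⁻¹ * x i = x i := fun i => by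
          rw [mul_inv_cancel₀ (hx0 i), one_mul]
        have e2 : ∀ i, c * x i * (x i)⁻¹ * x i = c * x i := fun i => by
          rw [mul_assoc c, mul_inv_cancel₀ (hx0 i), mul_one]
        simp only [e1, e2]
        cases u
        · simpa using ((hvan1 k hk hkd).2).trans ((hvan c k hk hkd).2).symm
        · simpa using ((hvan1 k hk hkd).1).trans ((hvan c k hk hkd).1).symm
      · rw [evHom_cl_of_not hg hr, evHom_cl_of_not hg hr]
    · rw [thread, map_sum, map_sum]
      apply Finset.sum_congr rfl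
      intro α hα
      rw [map_smul, map_smul]
      congr 1
      have hdvd : n ∣ (weights d α).sum := weights_sum_dvd (show 0 < d by omega) hnd hPE hα
      have hcs : c ^ (weights d α).sum = 1 := by
        obtain ⟨e, he⟩ := hdvd
        rw [he, pow_mul, hp.pow_eq_one, one_pow]
      by_cases hr : Run d (cable (weights d α) L (poles 3)) (poles 3) (poles 3)
      · rw [evHom_cl hg hr, evHom_cl hg hr]
        exact (hcable hL.1 (fun k hk => mem_weights hk) hcs hx hx' (fun _ => rfl) hy hx).symm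
      · rw [evHom_cl_of_not hg hr, evHom_cl_of_not hg hr]
  intro hmem
  have h1 := (AlgHom.eqOn_adjoin_iff.2 hgen) hmem
  have hr := run_ring (d := d) (u := false) (k := 1) ⟨one_pos, hd1⟩
  rw [evHom_cl hg hr, evHom_cl hg hr, ev_ring_two _ _ _ hd, ev_ring_two _ _ _ hd] at h1
  have hk0 : kap d (a ^ d) 1 ≠ 0 := by
    unfold kap
    exact pow_ne_zero _ (pow_ne_zero _ ha)
  have h2 := mul_left_cancel₀ hk0 h1
  have e1 : ∀ i, x i * (x i)⁻¹ = 1 := fun i => mul_inv_cancel₀ (hx0 i)
  have e2 : ∀ i, c * x i * (x i)⁻¹ = c := fun i => by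
    rw [mul_assoc, mul_inv_cancel₀ (hx0 i), mul_one]
  simp only [e1, e2, Bool.false_eq_true, ↓reduceIte, inv_one, Finset.prod_const_one] at h2
  have h3 : ∑ S ∈ Finset.powersetCard 1 (Finset.univ : Finset (Fin d)), (∏ i ∈ S, c⁻¹ : ℂ) =
      ∑ S ∈ Finset.powersetCard 1 (Finset.univ : Finset (Fin d)), c⁻¹ := by
    apply Finset.sum_congr rfl
    intro S hS
    rw [Finset.mem_powersetCard] at hS
    rw [Finset.prod_const, hS.2, pow_one]
  rw [h3, Finset.sum_const, Finset.sum_const, Finset.card_powersetCard, Finset.card_univ,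
    Fintype.card_fin, Nat.choose_one_right, nsmul_eq_mul, nsmul_eq_mul] at h2
  have hd0 : (d : ℂ) ≠ 0 := by
    exact_mod_cast (show d ≠ 0 by omega)
  have h4 := mul_left_cancel₀ hd0 h2
  exact hc1 (inv_eq_one.1 h4.symm)

end Pool.Agent.Helper26.SK.G
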