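import Pool.Agent.Helper26.SK.G.Lad

/-!
# The value of the quantum binomials at `q = ± 1`, as a hypothesis
-/

namespace Pool.Agent.Helper26.SK.G

/-- the value of the quantum binomials at q = ±1 -/
def QB (q : ℂ) : Prop := ∀ (m : ℤ) (t : ℕ),
  qbin q m t = q ^ (t * (m.natAbs + t)) * ((Ring.choose m t : ℤ) : ℂ)

end Pool.Agent.Helper26.SK.G
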